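import Pool.Agent.T3h87.RP.Num
import Pool.Agent.N647.NG.Expl

/-!
# The full linear systems
-/

set_option autoImplicit false

namespace Pool.Agent.T3h87.RP

open Finset Polynomial NumberField IsDedekindDomain
open Pool.Agent.N842.HS (VT mem_VT cf norm_card)
open Pool.Agent.N647.NG

section
variable {r : ℕ} (d : Fin r → ℕ) (e m : ℕ) (R : Type) [CommRing R]

/-- the exponents -/
abbrev Ep : Type := Σ j : Fin r, Fin (d j) × (Fin m → Fin (e + 1))

variable {d e m} in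
/-- the monomials of the curve number `i` -/
noncomputable def hp (i : Fin r) (k : Ep d e m) : (MvPolynomial (Fin m) R)[X] :=
  if k.1 = i then X ^ (k.2.1 : ℕ) * C (∏ l, MvPolynomial.X l ^ (k.2.2 l : ℕ)) else 0

lemma hp_deg (i : Fin r) (hd : 0 < d i) (k : Ep d e m) : (hp R i k).natDegree < d i := by
  obtain ⟨j, a, α⟩ := k
  unfold hp
  by_cases h : j = i
  · subst h
    rw [if_pos rfl]
    exact lt_of_le_of_lt ((natDegree_mul_C_le _ _).trans (natDegree_X_pow_le _)) a.2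
  · rw [if_neg h, natDegree_zero]
    exact hd

variable {R} {κ : Type} [CommRing κ] (φ : R →+* κ)

lemma vf_hp (i : Fin r) (k : Ep d e m) (P : (Fin m → κ) × κ) :
    vf φ (hp R i k) P = if k.1 = i then P.2 ^ (k.2.1 : ℕ) * ∏ l, P.1 l ^ (k.2.2 l : ℕ) else 0 := by
  unfold hp
  by_cases h : k.1 = i
  · rw [if_pos h, if_pos h, vf_mul, vf_X_pow, vf_C, map_prod]
    simp
  · rw [if_neg h, if_neg h]
    unfold vf ev
    rw [Polynomial.map_zero, eval_zero]

/-- the function is a combination of the monomials of the curve number `i` -/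
def Rep {D : ℕ} (E : Fin D ≃ Ep d e m) (i : Fin r) (G : (Fin m → κ) × κ → κ) : Prop :=
  ∃ c : Fin D → κ, (∀ P, ∑ k, c k * vf φ (hp R i (E k)) P = G P) ∧ ∀ j, j ≠ i → ∀ P, ∑ k, c k * vf φ (hp R j (E k)) P = 0

variable {d e m φ} {D : ℕ} {E : Fin D ≃ Ep d e m} {i : Fin r}

lemma Rep.add {G G' : (Fin m → κ) × κ → κ} (h : Rep d e m φ E i G) (h' : Rep d e m φ E i G') :
    Rep d e m φ E i (fun P => G P + G' P) := by
  obtain ⟨c, h1, h2⟩ := h
  obtain ⟨c', h3, h4⟩ := h'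
  refine ⟨fun k => c k + c' k, fun P => ?_, fun j hj P => ?_⟩
  · simp only [add_mul]
    rw [sum_add_distrib, h1, h3]
  · simp only [add_mul]
    rw [sum_add_distrib, h2 j hj, h4 j hj, add_zero]

lemma Rep.smul {G : (Fin m → κ) × κ → κ} (a : κ) (h : Rep d e m φ E i G) : Rep d e m φ E i (fun P => a * G P) := by
  obtain ⟨c, h1, h2⟩ := h
  refine ⟨fun k => a * c k, fun P => ?_, fun j hj P => ?_⟩
  · simp only [mul_assoc]
    rw [← mul_sum, h1]
  · simp only [mul_assoc]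
    rw [← mul_sum, h2 j hj, mul_zero]

lemma rep_mono (a : Fin (d i)) (α : Fin m → Fin (e + 1)) :
    Rep d e m φ E i (fun P => P.2 ^ (a : ℕ) * ∏ l, P.1 l ^ (α l : ℕ)) := by
  classical
  have h0 : ∀ (j : Fin r) (P : (Fin m → κ) × κ), ∑ k, (if k = E.symm ⟨i, a, α⟩ then (1 : κ) else 0) * vf φ (hp R j (E k)) P =
      vf φ (hp R j (⟨i, a, α⟩ : Ep d e m)) P := by
    intro j P
    rw [sum_eq_single (E.symm ⟨i, a, α⟩)]
    · rw [if_pos rfl, one_mul, Equiv.apply_symm_apply]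
    · intro k _ hk
      rw [if_neg hk, zero_mul]
    · intro hk
      exact absurd (mem_univ _) hk
  refine ⟨fun k => if k = E.symm ⟨i, a, α⟩ then 1 else 0, fun P => ?_, fun j hj P => ?_⟩
  · rw [h0, vf_hp, if_pos rfl]
  · rw [h0, vf_hp, if_neg (Ne.symm hj)]

lemma rep_one (hd : 1 ≤ d i) : Rep d e m φ E i (fun _ => 1) := by
  have h := rep_mono (φ := φ) (E := E) (⟨0, hd⟩ : Fin (d i)) (fun _ => 0)
  simpa using h

lemma rep_x (hd : 2 ≤ d i) : Rep d e m φ E i (fun P => P.2) := by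
  have h := rep_mono (φ := φ) (E := E) (⟨1, hd⟩ : Fin (d i)) (fun _ => 0)
  simpa using h

/-- the exponents of one variable -/
def ex (he : 1 ≤ e) (l : Fin m) : Fin m → Fin (e + 1) := fun l' => if l' = l then ⟨1, by omega⟩ else ⟨0, by omega⟩

lemma prod_ex (he : 1 ≤ e) (l : Fin m) (t : Fin m → κ) : ∏ l', t l' ^ (ex he l l' : ℕ) = t l := by
  rw [prod_eq_single l]
  · unfold ex
    rw [if_pos rfl, pow_one]
  · intro k _ hk
    unfold ex
    rw [if_neg hk, pow_zero]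
  · intro hk
    exact absurd (mem_univ _) hk

lemma rep_t (hd : 1 ≤ d i) (he : 1 ≤ e) (l : Fin m) : Rep d e m φ E i (fun P => P.1 l) := by
  have h := rep_mono (φ := φ) (E := E) (⟨0, hd⟩ : Fin (d i)) (ex he l)
  simp only [prod_ex] at h
  simpa using h

lemma rep_xt (hd : 2 ≤ d i) (he : 1 ≤ e) (l : Fin m) : Rep d e m φ E i (fun P => P.2 * P.1 l) := by
  have h := rep_mono (φ := φ) (E := E) (⟨1, hd⟩ : Fin (d i)) (ex he l)
  simp only [prod_ex] at h
  simpa using h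

lemma rep_diff (hd : 1 ≤ d i) (he : 1 ≤ e) (l : Fin m) (b : κ) : Rep d e m φ E i (fun P => P.1 l - b) := by
  have h := (rep_t (φ := φ) (E := E) hd he l).add ((rep_one (φ := φ) (E := E) hd).smul (-b))
  simpa [sub_eq_add_neg] using h

lemma rep_diff2 (hd : 2 ≤ d i) (he : 1 ≤ e) (l : Fin m) (b y : κ) : Rep d e m φ E i (fun P => (P.1 l - b) * (P.2 - y)) := by
  have h := ((rep_xt (φ := φ) (E := E) hd he l).add ((rep_x (φ := φ) (E := E) hd).smul (-b))).add
    (((rep_t (φ := φ) (E := E) (by omega) he l).smul (-y)).add ((rep_one (φ := φ) (E := E) (by omega)).smul (b * y)))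
  refine (congrArg (Rep d e m φ E i) ?_).mp h
  funext P
  ring

end

section
variable {K : Type} [Field K] [NumberField K] {r : ℕ} {d : Fin r → ℕ} {e m D : ℕ} (E : Fin D ≃ Ep d e m)

lemma sep4_p (hd : ∀ j, 2 ≤ d j) (he : 1 ≤ e) (v : HeightOneSpectrum (𝓞 K)) (i j : Fin r) :
    SepV4 v (i = j) (fun k => hp (𝓞 K) i (E k)) (fun k => hp (𝓞 K) j (E k)) := by
  have hmax : v.asIdeal.IsMaximal := v.isMaximal
  let fld : Field (𝓞 K ⧸ v.asIdeal) := Ideal.Quotient.field v.asIdeal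
  intro t t' htt x y x' y' hI _
  obtain ⟨l, hl⟩ := Function.ne_iff.1 htt
  by_cases hij : i = j
  · subst hij
    obtain ⟨h1, h2⟩ := hI rfl
    obtain ⟨c, hc, -⟩ := rep_diff2 (φ := mkv v) (E := E) (hd i) he l (t' l) y
    refine ⟨c, ?_, ?_, ?_, ?_⟩
    · rw [hc]
      exact mul_ne_zero (sub_ne_zero.2 hl) (sub_ne_zero.2 h1)
    · rw [hc]
      beta_reduce
      rw [sub_self, mul_zero]
    · rw [hc]
      beta_reduce
      rw [sub_self, zero_mul]
    · rw [hc]
      beta_reduce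
      rw [sub_self, zero_mul]
  · obtain ⟨c, hc, hc'⟩ := rep_diff (φ := mkv v) (E := E) (i := i) (by have := hd i; omega) he l (t' l)
    refine ⟨c, ?_, ?_, ?_, ?_⟩
    · rw [hc]
      exact sub_ne_zero.2 hl
    · exact hc' j (Ne.symm hij) _
    · rw [hc]
      beta_reduce
      rw [sub_self]
    · exact hc' j (Ne.symm hij) _

lemma few_p (hd : ∀ j, 1 ≤ d j) (v : HeightOneSpectrum (𝓞 K)) (i : Fin r) : FewV v 0 (fun k => hp (𝓞 K) i (E k)) := by
  have hmax : v.asIdeal.IsMaximal := v.isMaximal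
  let fld : Field (𝓞 K ⧸ v.asIdeal) := Ideal.Quotient.field v.asIdeal
  intro t
  refine le_of_eq (Nat.card_eq_zero.2 (Or.inl ⟨fun x => ?_⟩))
  have h := x.2 (E.symm ⟨i, ⟨0, hd i⟩, fun _ => 0⟩)
  beta_reduce at h
  rw [Equiv.apply_symm_apply, vf_hp, if_pos rfl] at h
  simp at h

end

end Pool.Agent.T3h87.RP
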