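import Pool.Agent.N647.NG.SurfT

/-!
# Sums of arbitrary local functions without bad prime ideals
-/

set_option autoImplicit false

namespace Pool.Agent.T3h87.RP

open Finset Polynomial NumberField IsDedekindDomain Filter
open Pool.Agent.N842.HS (VT mem_VT cf norm_card)
open Pool.Agent.N647.TS
open Pool.Agent.N647.NG

variable {K : Type} [Field K] [NumberField K] {D : ℕ}

open Classical in
/-- **The theorem for the integer parts of generalised polynomials, with a set of bad prime ideals.** -/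
theorem genB {Θ : Type} (Q : Finset Θ) (Φ : Θ → ∀ v : HeightOneSpectrum (𝓞 K), (Fin D → 𝓞 K ⧸ v.asIdeal) → ℝ)
    (hbd : ∀ θ ∈ Q, ∃ C : ℝ, 0 ≤ C ∧ ∀ v, Bd C 0 v (Φ θ v))
    (P : MvPolynomial (Fin D) (𝓞 K)) (hP : P ≠ 0)
    {g : ℕ} (ω : Fin g → 𝓞 K) (hω : Submodule.span ℤ (Set.range ω) = ⊤) (hD : 1 ≤ D * g)
    {G : Fin (D * g) → Finset ℝ} {a : Fin (D * g) → ℝ → ℝ} {c : Fin (D * g) → ℝ}
    (ha : ∀ i, Adm (G i) (a i) (c i)) (hc : Function.Injective c) (δ : ℝ) (hδ : 0 < δ) (A B : ℕ) :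
    ∃ κ : ℝ, 0 < κ ∧ ∃ y₀ : ℕ, ∀ y N : ℕ, y₀ ≤ y →
    ∀ W : ℕ → Set (HeightOneSpectrum (𝓞 K) → ℝ), (∀ T, (W T).Finite ∧ (W T).ncard ≤ T ^ B) → (∀ T, ∀ w ∈ W T, ∀ v, |w v| ≤ 1) →
    ∀ E : (Fin (D * g) → ℕ) → Prop,
    (∀ n, (∀ T : ℕ, y ≤ T → (T : ℝ) ≤ (N : ℝ) ^ κ → ∀ w ∈ W T, ∀ R : Set (HeightOneSpectrum (𝓞 K)),
      (∀ v ∈ R, MvPolynomial.eval (cf ω n) P ∈ v.asIdeal) → ∀ θ ∈ Q,
      |∑ v ∈ (VT K T).filter (fun v => v ∉ R), w v * (Φ θ v (rd ω v n) * Real.log (Ideal.absNorm v.asIdeal))| ≤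
        (T : ℝ) ^ (1 / 2 + δ)) → E n) →
    (((Ioc N (2 * N)).filter fun t => ¬ E (pv G a t)).card : ℝ) ≤ 1 / (y : ℝ) ^ A * N ∧
    ((((Ioc N (2 * N)).filter Nat.Prime).filter fun t => ¬ E (pv G a t)).card : ℝ) ≤
      1 / (y : ℝ) ^ A * ((Ioc N (2 * N)).filter Nat.Prime).card := by
  -- the bounds for the bad part
  obtain ⟨s, hs'⟩ : ∃ s, P.coeff s ≠ 0 := by
    by_contra hcon
    push Not at hcon
    exact hP (MvPolynomial.ext _ _ fun s => by rw [hcon s, MvPolynomial.coeff_zero])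
  obtain ⟨Ψ, hΨ⟩ : ∃ Ψ : Θ → ∀ v : HeightOneSpectrum (𝓞 K), (Fin D → 𝓞 K ⧸ v.asIdeal) → ℝ,
    Ψ = fun θ v u => |Φ θ v u| * (if MvPolynomial.eval u (MvPolynomial.map (mkv v) P) = 0 then 1 else 0) := ⟨_, rfl⟩
  have hΨbd : ∀ θ ∈ Q, ∃ C : ℝ, 0 ≤ C ∧ ∀ v, Bd C 0 v (Ψ θ v) := by
    intro θ hθ
    obtain ⟨C₂, hC₂0, hC₂⟩ := hbd θ hθ
    exact upgrade (Ψ θ) 0 _ (finite_dvd (P.coeff s) hs') (C₂ + Real.sqrt (C₂ * P.totalDegree)) (by positivity) (by
      intro v hv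
      rw [hΨ]
      refine Bd_bad P v ?_ C₂ hC₂0 (Φ θ v) (hC₂ v)
      intro h0
      apply hv
      have h1 := congrArg (MvPolynomial.coeff s) h0
      rw [MvPolynomial.coeff_map, MvPolynomial.coeff_zero] at h1
      exact Ideal.Quotient.eq_zero_iff_mem.1 h1)
  obtain ⟨κ, hκ, y₁, hgen⟩ := genN ω hω hD ha hc (δ / 2) (by positivity) A (B + 1) (Q ×ˢ (univ : Finset Bool))
    (fun b => if b.2 then Φ b.1 else Ψ b.1) (fun _ => 0)
    (fun b hb => by
      rw [mem_product] at hb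
      obtain ⟨θ, b⟩ := b
      cases b
      · obtain ⟨C₃, hC₃0, hC₃⟩ := hΨbd θ hb.1
        exact ⟨C₃, hC₃0, fun v => hC₃ v⟩
      · obtain ⟨C₂, hC₂0, hC₂⟩ := hbd θ hb.1
        exact ⟨C₂, hC₂0, fun v => hC₂ v⟩)
  have hev : ∀ᶠ T : ℕ in atTop, (2 : ℝ) ≤ (T : ℝ) ^ (δ / 2) := by
    have h1 : Tendsto (fun x : ℝ => x ^ (δ / 2)) atTop atTop := tendsto_rpow_atTop (by positivity)
    exact (h1.comp tendsto_natCast_atTop_atTop).eventually (eventually_ge_atTop _)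
  obtain ⟨y₂, hy₂⟩ := eventually_atTop.1 hev
  refine ⟨κ, hκ, y₁ + y₂ + 2, fun y N hy W hW hW1 E hE => ?_⟩
  obtain ⟨W', hW'⟩ : ∃ W' : ℕ → Set (HeightOneSpectrum (𝓞 K) → ℝ), W' = fun T => if 2 ≤ T then insert (fun _ => (1 : ℝ)) (W T) else ∅ := ⟨_, rfl⟩
  refine hgen y N (by omega) W' (fun T => ?_) (fun T w hw v => ?_) E fun n hn => hE n fun T hyT hTN w hw R hR θ hθ => ?_
  · rw [hW']
    beta_reduce
    split_ifs with hT
    · refine ⟨(hW T).1.insert _, (Set.ncard_insert_le _ _).trans ?_⟩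
      have h1 := (hW T).2
      have h3 : 1 ≤ T ^ B := Nat.one_le_pow _ _ (by omega)
      rw [pow_succ]
      nlinarith
    · exact ⟨Set.finite_empty, by rw [Set.ncard_empty]; exact Nat.zero_le _⟩
  · rw [hW'] at hw
    beta_reduce at hw
    split_ifs at hw with hT
    · rcases Set.mem_insert_iff.1 hw with h1 | h1
      · rw [h1]
        simp
      · exact hW1 T w h1 v
    · exact absurd hw (Set.notMem_empty _)
  · have hT2 : 2 ≤ T := by omega
    have hw' : w ∈ W' T := by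
      rw [hW']
      beta_reduce
      rw [if_pos hT2]
      exact Set.mem_insert_of_mem _ hw
    have hone : (fun _ => (1 : ℝ)) ∈ W' T := by
      rw [hW']
      beta_reduce
      rw [if_pos hT2]
      exact Set.mem_insert _ _
    have e1 := hn T hyT hTN w hw' (θ, true) (mem_product.2 ⟨hθ, mem_univ _⟩)
    have e2 := hn T hyT hTN (fun _ => 1) hone (θ, false) (mem_product.2 ⟨hθ, mem_univ _⟩)
    simp only [if_true, sub_zero] at e1
    simp only [Bool.false_eq_true, if_false, sub_zero, one_mul] at e2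
    have e3 : ∑ v ∈ (VT K T).filter (fun v => v ∉ R), w v * (Φ θ v (rd ω v n) * Real.log (Ideal.absNorm v.asIdeal)) =
        ∑ v ∈ VT K T, w v * (Φ θ v (rd ω v n) * Real.log (Ideal.absNorm v.asIdeal)) -
        ∑ v ∈ (VT K T).filter (fun v => v ∈ R), w v * (Φ θ v (rd ω v n) * Real.log (Ideal.absNorm v.asIdeal)) := by
      rw [← sum_filter_add_sum_filter_not (VT K T) (fun v => v ∈ R)]
      ring
    have hlog : ∀ v : HeightOneSpectrum (𝓞 K), 0 ≤ Real.log (Ideal.absNorm v.asIdeal) := fun v => Real.log_nonneg (q_one v)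
    have e4 : |∑ v ∈ (VT K T).filter (fun v => v ∈ R), w v * (Φ θ v (rd ω v n) * Real.log (Ideal.absNorm v.asIdeal))| ≤
        ∑ v ∈ VT K T, Ψ θ v (rd ω v n) * Real.log (Ideal.absNorm v.asIdeal) := by
      refine (abs_sum_le_sum_abs _ _).trans ?_
      have hΨ0 : ∀ v u, 0 ≤ Ψ θ v u := by
        intro v u
        rw [hΨ]
        exact mul_nonneg (abs_nonneg _) (by split_ifs <;> norm_num)
      refine le_trans (sum_le_sum fun v hv => ?_) (sum_le_sum_of_subset_of_nonneg (filter_subset (fun v => v ∈ R) (VT K T)) fun v _ _ => mul_nonneg (hΨ0 _ _) (hlog v))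
      rw [mem_filter] at hv
      have h3 : Ψ θ v (rd ω v n) = |Φ θ v (rd ω v n)| := by
        rw [hΨ]
        beta_reduce
        rw [if_pos, mul_one]
        have h4 : MvPolynomial.eval (rd ω v n) (MvPolynomial.map (mkv v) P) = mkv v (MvPolynomial.eval (cf ω n) P) := by
          rw [MvPolynomial.eval_map]
          exact (MvPolynomial.eval₂_comp_left (mkv v) (RingHom.id _) (cf ω n) P).symm.trans rfl |>.symm ▸ rfl
        rw [h4]
        exact Ideal.Quotient.eq_zero_iff_mem.2 (hR v hv.2)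
      rw [h3, abs_mul, abs_mul, abs_of_nonneg (hlog v)]
      have h5 := hW1 T w hw v
      have h6 : 0 ≤ |Φ θ v (rd ω v n)| * Real.log (Ideal.absNorm v.asIdeal) := mul_nonneg (abs_nonneg _) (hlog v)
      nlinarith
    have e5 := (le_abs_self _).trans e2
    have e6 : (2 : ℝ) * (T : ℝ) ^ (1 / 2 + δ / 2) ≤ (T : ℝ) ^ (1 / 2 + δ) := by
      have hT0 : (0 : ℝ) < T := by exact_mod_cast (by omega : 0 < T)
      have h7 := hy₂ T (by omega)
      have h8 : (T : ℝ) ^ (1 / 2 + δ) = (T : ℝ) ^ (δ / 2) * (T : ℝ) ^ (1 / 2 + δ / 2) := by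
        rw [← Real.rpow_add hT0]
        congr 1
        ring
      rw [h8]
      exact mul_le_mul_of_nonneg_right h7 (by positivity)
    rw [e3]
    refine (abs_sub _ _).trans ?_
    linarith

open Classical in
/-- the weights for the sums over `v` with the factor `√q_v` -/
noncomputable def WS (W : Set (HeightOneSpectrum (𝓞 K) → ℝ)) (T : ℕ) : Set (HeightOneSpectrum (𝓞 K) → ℝ) :=
  (fun w => fun v => w v * min 1 (Real.sqrt (Ideal.absNorm v.asIdeal) / Real.sqrt T)) '' W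

lemma WS_fin (W : Set (HeightOneSpectrum (𝓞 K) → ℝ)) (hW : W.Finite) (B y T : ℕ) (hyT : y ≤ T) (hWc : W.ncard ≤ y ^ B) :
    (WS W T).Finite ∧ (WS W T).ncard ≤ T ^ B :=
  ⟨hW.image _, (Set.ncard_image_le hW).trans (hWc.trans (Nat.pow_le_pow_left hyT B))⟩

lemma WS_le (W : Set (HeightOneSpectrum (𝓞 K) → ℝ)) (hW1 : ∀ w ∈ W, ∀ v, |w v| ≤ 1) (T : ℕ) (w : HeightOneSpectrum (𝓞 K) → ℝ)
    (hw : w ∈ WS W T) (v : HeightOneSpectrum (𝓞 K)) : |w v| ≤ 1 := by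
  obtain ⟨w', hw', rfl⟩ := hw
  beta_reduce
  rw [abs_mul]
  have h1 : 0 ≤ min 1 (Real.sqrt (Ideal.absNorm v.asIdeal) / Real.sqrt T) := le_min zero_le_one (by positivity)
  rw [abs_of_nonneg h1]
  exact mul_le_one₀ (hW1 w' hw' v) h1 (min_le_left _ _)

open Classical in
/-- **Sums and Dirichlet polynomials with the factor `√q_v`, for finitely many local functions.** -/
theorem genZ {Θ : Type} (Q : Finset Θ) (Φ : Θ → ∀ v : HeightOneSpectrum (𝓞 K), (Fin D → 𝓞 K ⧸ v.asIdeal) → ℝ)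
    (hbd : ∀ θ ∈ Q, ∃ C : ℝ, 0 ≤ C ∧ ∀ v, Bd C 0 v (Φ θ v))
    (P : MvPolynomial (Fin D) (𝓞 K)) (hP : P ≠ 0)
    {g : ℕ} (ω : Fin g → 𝓞 K) (hω : Submodule.span ℤ (Set.range ω) = ⊤) (hD : 1 ≤ D * g)
    {G : Fin (D * g) → Finset ℝ} {a : Fin (D * g) → ℝ → ℝ} {c : Fin (D * g) → ℝ}
    (ha : ∀ i, Adm (G i) (a i) (c i)) (hc : Function.Injective c) (δ : ℝ) (hδ : 0 < δ) (A B : ℕ) :
    ∃ κ : ℝ, 0 < κ ∧ ∃ y₀ : ℕ, ∀ y N : ℕ, y₀ ≤ y →
    ∀ W : Set (HeightOneSpectrum (𝓞 K) → ℝ), W.Finite → W.ncard ≤ y ^ B → (∀ w ∈ W, ∀ v, |w v| ≤ 1) →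
    ∀ E : (Fin (D * g) → ℕ) → Prop,
    (∀ n, (∀ w ∈ W, ∀ R : Set (HeightOneSpectrum (𝓞 K)), (∀ v ∈ R, MvPolynomial.eval (cf ω n) P ∈ v.asIdeal) →
      (∀ T : ℕ, y ≤ T → (T : ℝ) ≤ (N : ℝ) ^ κ →
        |∑ v ∈ (VT K T).filter (fun v => v ∉ R), w v * ((Real.sqrt (Ideal.absNorm v.asIdeal) * ∑ θ ∈ Q, Φ θ v (rd ω v n)) *
          Real.log (Ideal.absNorm v.asIdeal))| ≤ (T : ℝ) ^ (1 + δ)) ∧
      (∀ T₁ T₂ : ℕ, y ≤ T₁ → T₁ ≤ T₂ → (T₂ : ℝ) ≤ (N : ℝ) ^ κ → ∀ z : ℂ, 1 + δ ≤ z.re → |z.im| ≤ (T₁ : ℝ) ^ B →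
        ‖∑ v ∈ (VT K T₂).filter (fun v => v ∉ R ∧ T₁ < Ideal.absNorm v.asIdeal),
          ((w v * ((Real.sqrt (Ideal.absNorm v.asIdeal) * ∑ θ ∈ Q, Φ θ v (rd ω v n)) * Real.log (Ideal.absNorm v.asIdeal)) : ℝ) : ℂ) *
            (Ideal.absNorm v.asIdeal : ℂ) ^ (-z)‖ ≤ (T₁ : ℝ) ^ (1 + δ - z.re))) → E n) →
    (((Ioc N (2 * N)).filter fun t => ¬ E (pv G a t)).card : ℝ) ≤ 1 / (y : ℝ) ^ A * N ∧
    ((((Ioc N (2 * N)).filter Nat.Prime).filter fun t => ¬ E (pv G a t)).card : ℝ) ≤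
      1 / (y : ℝ) ^ A * ((Ioc N (2 * N)).filter Nat.Prime).card := by
  obtain ⟨Cf, hCf⟩ : ∃ Cf : Θ → ℝ, ∀ θ ∈ Q, 0 ≤ Cf θ ∧ ∀ v, Bd (Cf θ) 0 v (Φ θ v) := by
    have h1 : ∀ θ, ∃ C : ℝ, θ ∈ Q → 0 ≤ C ∧ ∀ v, Bd C 0 v (Φ θ v) := by
      intro θ
      by_cases h : θ ∈ Q
      · obtain ⟨C, hC⟩ := hbd θ h
        exact ⟨C, fun _ => hC⟩
      · exact ⟨0, fun h' => absurd h' h⟩
    choose Cf hCf using h1
    exact ⟨Cf, hCf⟩
  obtain ⟨C, hCdef⟩ : ∃ C : ℝ, C = ∑ θ ∈ Q, Cf θ := ⟨_, rfl⟩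
  have hC0 : 0 ≤ C := by
    rw [hCdef]
    exact sum_nonneg fun θ hθ => (hCf θ hθ).1
  have hCle : ∀ θ ∈ Q, ∀ v u, |Φ θ v u| ≤ C * Real.sqrt (Ideal.absNorm v.asIdeal) := by
    intro θ hθ v u
    refine (((hCf θ hθ).2 v).1 u).trans ?_
    apply mul_le_mul_of_nonneg_right _ (Real.sqrt_nonneg _)
    rw [hCdef]
    exact single_le_sum (f := Cf) (fun i hi => (hCf i hi).1) hθ
  obtain ⟨y₁, hdet⟩ := ana_det (K := K) (δ / 2) (by positivity) C hC0
  obtain ⟨κ, hκ, y₂, hnag⟩ := genB Q Φ hbd P hP ω hω hD ha hc (δ / 8) (by positivity) A (2 * B + 6)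
  have hev : ∀ᶠ T : ℕ in atTop, (Q.card : ℝ) ≤ (T : ℝ) ^ (δ / 2) := by
    have h1 : Tendsto (fun x : ℝ => x ^ (δ / 2)) atTop atTop := tendsto_rpow_atTop (by positivity)
    exact (h1.comp tendsto_natCast_atTop_atTop).eventually (eventually_ge_atTop _)
  obtain ⟨y₃, hy₃⟩ := eventually_atTop.1 hev
  refine ⟨κ, hκ, y₁ + y₂ + y₃ + 2, fun y N hy W hW hWc hW1 E hE => ?_⟩
  refine hnag y N (by omega) (fun T => if y ≤ T then Wt W B T ∪ WS W T else ∅) (fun T => ?_) (fun T w hw v => ?_) E fun n hn => hE n ?_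
  · beta_reduce
    split_ifs with hT
    · obtain ⟨a1, a2⟩ := Wt_fin W hW B y T (by omega) hT hWc
      obtain ⟨a3, a4⟩ := WS_fin W hW B y T hT hWc
      refine ⟨a1.union a3, (Set.ncard_union_le _ _).trans ((add_le_add a2 a4).trans ?_)⟩
      have h1 : T ^ B ≤ T ^ (2 * B + 5) := Nat.pow_le_pow_right (by omega) (by omega)
      have h3 : 2 * T ^ (2 * B + 5) ≤ T * T ^ (2 * B + 5) := Nat.mul_le_mul_right _ (by omega)
      calc T ^ (2 * B + 5) + T ^ B ≤ 2 * T ^ (2 * B + 5) := by omega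
        _ ≤ T * T ^ (2 * B + 5) := h3
        _ = T ^ (2 * B + 6) := by rw [← pow_succ']
    · exact ⟨Set.finite_empty, by rw [Set.ncard_empty]; exact Nat.zero_le _⟩
  · beta_reduce at hw
    split_ifs at hw with hT
    · rcases hw with hw | hw
      · exact Wt_le W hW1 B T w hw v
      · exact WS_le W hW1 T w hw v
    · exact absurd hw (Set.notMem_empty _)
  · intro w hw R hR
    constructor
    · intro T hyT hTN
      have hT0 : (0 : ℝ) < T := by exact_mod_cast (by omega : 0 < T)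
      have hsT : 0 < Real.sqrt T := Real.sqrt_pos.2 hT0
      obtain ⟨w', hw'⟩ : ∃ w' : HeightOneSpectrum (𝓞 K) → ℝ, w' = fun v => w v * min 1 (Real.sqrt (Ideal.absNorm v.asIdeal) / Real.sqrt T) := ⟨_, rfl⟩
      have hmem : w' ∈ (fun T => if y ≤ T then Wt W B T ∪ WS W T else ∅) T := by
        beta_reduce
        rw [if_pos hyT]
        right
        exact ⟨w, hw, hw'.symm⟩
      have h1 : ∀ θ ∈ Q, |∑ v ∈ (VT K T).filter (fun v => v ∉ R), w' v * (Φ θ v (rd ω v n) * Real.log (Ideal.absNorm v.asIdeal))| ≤ (T : ℝ) ^ (1 / 2 + δ / 8) :=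
        fun θ hθ => hn T hyT hTN w' hmem R hR θ hθ
      have h3 : ∑ v ∈ (VT K T).filter (fun v => v ∉ R), w v * ((Real.sqrt (Ideal.absNorm v.asIdeal) * ∑ θ ∈ Q, Φ θ v (rd ω v n)) *
          Real.log (Ideal.absNorm v.asIdeal)) = Real.sqrt T * ∑ θ ∈ Q, ∑ v ∈ (VT K T).filter (fun v => v ∉ R), w' v * (Φ θ v (rd ω v n) * Real.log (Ideal.absNorm v.asIdeal)) := by
        rw [sum_comm, mul_sum]
        refine sum_congr rfl fun v hv => ?_
        rw [mem_filter, mem_VT] at hv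
        have hq : (Ideal.absNorm v.asIdeal : ℝ) ≤ T := by exact_mod_cast hv.1
        have h4 : min 1 (Real.sqrt (Ideal.absNorm v.asIdeal) / Real.sqrt T) = Real.sqrt (Ideal.absNorm v.asIdeal) / Real.sqrt T := by
          apply min_eq_right
          rw [div_le_one hsT]
          exact Real.sqrt_le_sqrt hq
        rw [← mul_sum, ← sum_mul, hw']
        beta_reduce
        rw [h4]
        field_simp
      rw [h3, abs_mul, abs_of_pos hsT]
      have h5 : |∑ θ ∈ Q, ∑ v ∈ (VT K T).filter (fun v => v ∉ R), w' v * (Φ θ v (rd ω v n) * Real.log (Ideal.absNorm v.asIdeal))| ≤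
          Q.card * (T : ℝ) ^ (1 / 2 + δ / 8) := by
        refine (abs_sum_le_sum_abs _ _).trans ((sum_le_sum h1).trans (le_of_eq ?_))
        rw [sum_const, nsmul_eq_mul]
      have h6 := hy₃ T (by omega)
      have hT1 : (1 : ℝ) ≤ T := by exact_mod_cast (by omega : 1 ≤ T)
      calc Real.sqrt T * |∑ θ ∈ Q, ∑ v ∈ (VT K T).filter (fun v => v ∉ R), w' v * (Φ θ v (rd ω v n) * Real.log (Ideal.absNorm v.asIdeal))| ≤
          (T : ℝ) ^ (1 / 2 : ℝ) * ((T : ℝ) ^ (δ / 2) * (T : ℝ) ^ (1 / 2 + δ / 8)) := by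
            rw [← Real.sqrt_eq_rpow]
            apply mul_le_mul_of_nonneg_left _ hsT.le
            refine h5.trans ?_
            exact mul_le_mul_of_nonneg_right h6 (by positivity)
        _ = (T : ℝ) ^ (1 + (δ / 2 + δ / 8)) := by
            rw [← Real.rpow_add hT0, ← Real.rpow_add hT0]
            congr 1
            ring
        _ ≤ (T : ℝ) ^ (1 + δ) := Real.rpow_le_rpow_of_exponent_le hT1 (by linarith)
    · intro T₁ T₂ hyT hT12 hTN z hz1 hz2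
      have hT0 : (0 : ℝ) < T₁ := by exact_mod_cast (by omega : 0 < T₁)
      have h1 : ∀ θ ∈ Q, ‖∑ v ∈ (VT K T₂).filter (fun v => v ∉ R ∧ T₁ < Ideal.absNorm v.asIdeal),
          ((w v * (Φ θ v (rd ω v n) * Real.log (Ideal.absNorm v.asIdeal)) : ℝ) : ℂ) * (Ideal.absNorm v.asIdeal : ℂ) ^ (-(z - 1 / 2))‖ ≤
          (T₁ : ℝ) ^ (1 / 2 + δ / 2 - (z - 1 / 2).re) := by
        intro θ hθ
        refine hdet B y T₂ (by omega) W hW1 (fun v => Φ θ v (rd ω v n)) (fun v => hCle θ hθ v _) R (fun T hyT' hTX w' hw' => ?_)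
          T₁ T₂ hyT hT12 le_rfl w hw (z - 1 / 2) ?_ ?_
        · have e1 : δ / 2 / 4 = δ / 8 := by ring
          rw [e1]
          refine hn T hyT' (le_trans (by exact_mod_cast hTX) hTN) w' ?_ R hR θ hθ
          beta_reduce
          rw [if_pos hyT']
          exact Or.inl hw'
        · have : (z - 1 / 2).re = z.re - 1 / 2 := by
            rw [Complex.sub_re]
            norm_num
          rw [this]
          linarith
        · have : (z - 1 / 2).im = z.im := by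
            rw [Complex.sub_im]
            norm_num
          rw [this]
          exact hz2
      have hre : (z - 1 / 2).re = z.re - 1 / 2 := by
        rw [Complex.sub_re]
        norm_num
      have h3 : ∑ v ∈ (VT K T₂).filter (fun v => v ∉ R ∧ T₁ < Ideal.absNorm v.asIdeal),
          ((w v * ((Real.sqrt (Ideal.absNorm v.asIdeal) * ∑ θ ∈ Q, Φ θ v (rd ω v n)) * Real.log (Ideal.absNorm v.asIdeal)) : ℝ) : ℂ) *
            (Ideal.absNorm v.asIdeal : ℂ) ^ (-z) = ∑ θ ∈ Q, ∑ v ∈ (VT K T₂).filter (fun v => v ∉ R ∧ T₁ < Ideal.absNorm v.asIdeal),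
          ((w v * (Φ θ v (rd ω v n) * Real.log (Ideal.absNorm v.asIdeal)) : ℝ) : ℂ) * (Ideal.absNorm v.asIdeal : ℂ) ^ (-(z - 1 / 2)) := by
        rw [sum_comm]
        refine sum_congr rfl fun v _ => ?_
        have hq : (0 : ℝ) < Ideal.absNorm v.asIdeal := lt_of_lt_of_le one_pos (q_one v)
        have hqc : ((Ideal.absNorm v.asIdeal : ℕ) : ℂ) ≠ 0 := by
          have : (Ideal.absNorm v.asIdeal : ℕ) ≠ 0 := by
            intro h0
            rw [h0] at hq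
            simp at hq
          exact_mod_cast this
        have h4 : (Ideal.absNorm v.asIdeal : ℂ) ^ (-(z - 1 / 2)) = (Real.sqrt (Ideal.absNorm v.asIdeal) : ℂ) * (Ideal.absNorm v.asIdeal : ℂ) ^ (-z) := by
          have h5 : (Real.sqrt (Ideal.absNorm v.asIdeal) : ℂ) = (Ideal.absNorm v.asIdeal : ℂ) ^ ((1 / 2 : ℝ) : ℂ) := by
            rw [Real.sqrt_eq_rpow, Complex.ofReal_cpow hq.le]
            norm_cast
          rw [h5, ← Complex.cpow_add _ _ hqc]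
          congr 1
          push_cast
          ring
        rw [h4, ← sum_mul]
        have h6 : ∑ θ ∈ Q, ((w v * (Φ θ v (rd ω v n) * Real.log (Ideal.absNorm v.asIdeal)) : ℝ) : ℂ) =
            ((w v * ((∑ θ ∈ Q, Φ θ v (rd ω v n)) * Real.log (Ideal.absNorm v.asIdeal)) : ℝ) : ℂ) := by
          rw [← Complex.ofReal_sum]
          congr 1
          rw [sum_mul, mul_sum]
        rw [h6]
        push_cast
        ring
      rw [h3]
      refine (norm_sum_le _ _).trans ((sum_le_sum h1).trans ?_)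
      rw [sum_const, nsmul_eq_mul, hre]
      have h6 := hy₃ T₁ (by omega)
      calc (Q.card : ℝ) * (T₁ : ℝ) ^ (1 / 2 + δ / 2 - (z.re - 1 / 2)) ≤ (T₁ : ℝ) ^ (δ / 2) * (T₁ : ℝ) ^ (1 / 2 + δ / 2 - (z.re - 1 / 2)) :=
            mul_le_mul_of_nonneg_right h6 (by positivity)
        _ = (T₁ : ℝ) ^ (1 + δ - z.re) := by
            rw [← Real.rpow_add hT0]
            congr 1
            ring

end Pool.Agent.T3h87.RP
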