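import Pool.Agent.T3h87.RP.Sp2
import Pool.Agent.N647.NG.Expl

/-!
# Traces of the Frobenius on the exterior square of `H¹`: averages over the polynomials
-/

set_option autoImplicit false

namespace Pool.Agent.T3h87.RP

open Finset Polynomial
open Pool.Agent.N647.NG (ch ch_abs sum_ch sum_ch_affine weil_odd ch_sq)

section
variable {k : Type} [Field k] [Fintype k] [DecidableEq k]

/-- the character sum -/
noncomputable def sc (f : k[X]) : ℝ := ∑ x : k, ch (f.eval x)

lemma ch_mul_self (a : k) : ch a * ch a = if a = 0 then 0 else 1 := by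
  rw [← ch_sq]
  unfold ch
  rw [map_pow]
  push_cast
  ring

lemma sum_ind (k : Type) [Field k] [Fintype k] [DecidableEq k] : ∑ a : k, (if a = 0 then (0 : ℝ) else 1) = (Fintype.card k : ℝ) - 1 := by
  have h1 : ∀ a : k, (if a = 0 then (0 : ℝ) else 1) = 1 - if a = 0 then 1 else 0 := fun a => by split_ifs <;> norm_num
  rw [sum_congr rfl fun a _ => h1 a, sum_sub_distrib, sum_const, card_univ, nsmul_eq_mul, mul_one, sum_ite_eq' univ (0 : k) fun _ => (1 : ℝ)]
  simp

/-- for a function of one variable -/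
lemma sum_line (g : k → ℝ) (A x : k) : ∑ s : k × k, g (A + (s.1 + s.2 * x)) = (Fintype.card k : ℝ) * ∑ a, g a := by
  rw [Fintype.sum_prod_type_right]
  have h1 : ∀ s2 : k, ∑ s1 : k, g (A + (s1 + s2 * x)) = ∑ a, g a := by
    intro s2
    refine Fintype.sum_equiv (Equiv.addRight (A + s2 * x)) _ _ fun s1 => ?_
    simp only [Equiv.coe_addRight]
    congr 1
    ring
  simp only [h1]
  rw [sum_const, card_univ, nsmul_eq_mul]

lemma sum_off (h2 : ringChar k ≠ 2) (A B x x' : k) (hx : x ≠ x') :
    ∑ s : k × k, ch (A + (s.1 + s.2 * x)) * ch (B + (s.1 + s.2 * x')) = 0 := by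
  rw [Fintype.sum_prod_type_right]
  have h1 : ∀ s2 : k, ∑ s1 : k, ch (A + (s1 + s2 * x)) * ch (B + (s1 + s2 * x')) =
      ∑ a : k, ch (A + a) * ch ((B + a) + s2 * (x' - x)) := by
    intro s2
    refine Fintype.sum_equiv (Equiv.addRight (s2 * x)) _ _ fun s1 => ?_
    simp only [Equiv.coe_addRight]
    congr 2
    ring
  simp only [h1]
  rw [sum_comm]
  refine sum_eq_zero fun a _ => ?_
  rw [← mul_sum, sum_ch_affine h2 _ _ (sub_ne_zero.2 hx.symm), mul_zero]

/-- the second moment of the traces on `H¹` -/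
theorem sum_sc_sq (h2 : ringChar k ≠ 2) (f : k[X]) :
    ∑ s : k × k, sc (f + (C s.1 + C s.2 * X)) ^ 2 = (Fintype.card k : ℝ) ^ 2 * ((Fintype.card k : ℝ) - 1) := by
  have h1 : ∀ s : k × k, sc (f + (C s.1 + C s.2 * X)) ^ 2 =
      ∑ x : k, ∑ x' : k, ch (f.eval x + (s.1 + s.2 * x)) * ch (f.eval x' + (s.1 + s.2 * x')) := by
    intro s
    unfold sc
    rw [sq, sum_mul_sum]
    simp only [eval_add, eval_mul, eval_C, eval_X]
  simp only [h1]
  rw [sum_comm]
  have h3 : ∀ x : k, ∑ s : k × k, ∑ x' : k, ch (f.eval x + (s.1 + s.2 * x)) * ch (f.eval x' + (s.1 + s.2 * x')) =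
      (Fintype.card k : ℝ) * ((Fintype.card k : ℝ) - 1) := by
    intro x
    rw [sum_comm, sum_eq_single x]
    · rw [sum_line (fun a => ch a * ch a) (f.eval x) x]
      simp only [ch_mul_self]
      rw [sum_ind]
    · intro x' _ hx
      exact sum_off h2 _ _ _ _ hx.symm
    · intro h
      exact absurd (mem_univ x) h
  rw [sum_congr rfl fun x _ => h3 x, sum_const, card_univ, nsmul_eq_mul]
  ring

variable (K : Type) [Field K] [Fintype K] [DecidableEq K] [Algebra k K]

lemma ringChar_ext (h2 : ringChar k ≠ 2) : ringChar K ≠ 2 := by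
  rwa [← Algebra.ringChar_eq k K]

/-- elements of the small field are squares -/
lemma ch_alg (hK : Fintype.card K = Fintype.card k ^ 2) (h2 : ringChar k ≠ 2) (y : k) :
    ch (algebraMap k K y) = if y = 0 then 0 else 1 := by
  by_cases hy : y = 0
  · rw [if_pos hy, hy, map_zero]
    unfold ch
    simp
  rw [if_neg hy]
  have ha : algebraMap k K y ≠ 0 := (_root_.map_ne_zero _).2 hy
  have hodd : Fintype.card k % 2 = 1 := FiniteField.odd_card_of_char_ne_two h2
  obtain ⟨w, hw⟩ : ∃ w, Fintype.card k = 2 * w + 1 := ⟨(Fintype.card k - 1) / 2, by omega⟩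
  have h3 : Fintype.card K / 2 = (Fintype.card k - 1) * (w + 1) := by
    rw [hK, hw]
    have h4 : (2 * w + 1) ^ 2 = 2 * (2 * w * (w + 1)) + 1 := by ring
    have h5 : 2 * w + 1 - 1 = 2 * w := by omega
    rw [h4, h5]
    omega
  have h4 : IsSquare (algebraMap k K y) := by
    rw [FiniteField.isSquare_iff (ringChar_ext K h2) ha, h3, pow_mul, ← map_pow, FiniteField.pow_card_sub_one_eq_one y hy, map_one, one_pow]
  unfold ch
  rw [(quadraticChar_one_iff_isSquare ha).2 h4]
  simp

lemma sum_in (hK : Fintype.card K = Fintype.card k ^ 2) (h2 : ringChar k ≠ 2) (A x : k) :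
    ∑ s : k × k, ch (algebraMap k K A + (algebraMap k K s.1 + algebraMap k K s.2 * algebraMap k K x)) =
      (Fintype.card k : ℝ) * ((Fintype.card k : ℝ) - 1) := by
  have h1 : ∀ s : k × k, ch (algebraMap k K A + (algebraMap k K s.1 + algebraMap k K s.2 * algebraMap k K x)) =
      (fun a : k => if a = 0 then (0 : ℝ) else 1) (A + (s.1 + s.2 * x)) := by
    intro s
    rw [← map_mul, ← map_add, ← map_add, ch_alg K hK h2]
  rw [sum_congr rfl fun s _ => h1 s, sum_line (fun a : k => if a = 0 then (0 : ℝ) else 1) A x, sum_ind]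

lemma sum_out (hK : Fintype.card K = Fintype.card k ^ 2) (h2 : ringChar k ≠ 2) (A x : K) (hx : x ∉ Set.range (algebraMap k K)) :
    ∑ s : k × k, ch (A + (algebraMap k K s.1 + algebraMap k K s.2 * x)) = 0 := by
  have hinj : Function.Injective fun s : k × k => A + (algebraMap k K s.1 + algebraMap k K s.2 * x) := by
    intro s s' h
    have h1 : algebraMap k K (s.1 - s'.1) = algebraMap k K (s'.2 - s.2) * x := by
      rw [map_sub, map_sub]
      have := add_left_cancel h
      linear_combination this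
    have h3 : s'.2 - s.2 = 0 := by
      by_contra h4
      apply hx
      refine ⟨(s.1 - s'.1) / (s'.2 - s.2), ?_⟩
      rw [map_div₀, h1, mul_div_cancel_left₀]
      exact (_root_.map_ne_zero _).2 h4
    rw [h3, map_zero, zero_mul, map_eq_zero] at h1
    exact Prod.ext (sub_eq_zero.1 h1) (sub_eq_zero.1 h3).symm
  have hbij : Function.Bijective fun s : k × k => A + (algebraMap k K s.1 + algebraMap k K s.2 * x) := by
    rw [Fintype.bijective_iff_injective_and_card]
    refine ⟨hinj, ?_⟩
    rw [Fintype.card_prod, hK, sq]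
  rw [← sum_ch (κ := K) (ringChar_ext K h2)]
  exact Fintype.sum_bijective _ hbij _ _ fun _ => rfl

/-- the mean of the traces over the quadratic extension -/
theorem sum_sc_ext (hK : Fintype.card K = Fintype.card k ^ 2) (h2 : ringChar k ≠ 2) (f : k[X]) :
    ∑ s : k × k, sc ((f + (C s.1 + C s.2 * X)).map (algebraMap k K)) = (Fintype.card k : ℝ) ^ 2 * ((Fintype.card k : ℝ) - 1) := by
  classical
  have h1 : ∀ s : k × k, sc ((f + (C s.1 + C s.2 * X)).map (algebraMap k K)) =
      ∑ x : K, ch ((f.map (algebraMap k K)).eval x + (algebraMap k K s.1 + algebraMap k K s.2 * x)) := by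
    intro s
    unfold sc
    simp only [Polynomial.map_add, Polynomial.map_mul, map_C, map_X, eval_add, eval_mul, eval_C, eval_X]
  simp only [h1]
  rw [sum_comm]
  have h3 : ∀ x : K, ∑ s : k × k, ch ((f.map (algebraMap k K)).eval x + (algebraMap k K s.1 + algebraMap k K s.2 * x)) =
      if x ∈ univ.image (algebraMap k K) then (Fintype.card k : ℝ) * ((Fintype.card k : ℝ) - 1) else 0 := by
    intro x
    by_cases hx : x ∈ univ.image (algebraMap k K)
    · rw [if_pos hx]
      obtain ⟨y, -, rfl⟩ := mem_image.1 hx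
      rw [eval_map, eval₂_at_apply]
      exact sum_in K hK h2 (f.eval y) y
    · rw [if_neg hx]
      refine sum_out K hK h2 _ x fun ⟨y, hy⟩ => hx (mem_image.2 ⟨y, mem_univ y, hy⟩)
  rw [sum_congr rfl fun x _ => h3 x, ← sum_filter, sum_const, nsmul_eq_mul]
  have h4 : (univ.filter fun x : K => x ∈ univ.image (algebraMap k K)).card = Fintype.card k := by
    rw [filter_mem_eq_inter, univ_inter, card_image_of_injective _ (algebraMap k K).injective, card_univ]
  rw [h4]
  ring

/-- the trace on the exterior square, as a character sum -/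
noncomputable def la (f : k[X]) : ℝ := (sc f ^ 2 + sc (f.map (algebraMap k K))) / 2

theorem sum_la (hK : Fintype.card K = Fintype.card k ^ 2) (h2 : ringChar k ≠ 2) (f : k[X]) :
    ∑ s : k × k, la K (f + (C s.1 + C s.2 * X)) = (Fintype.card k : ℝ) ^ 2 * ((Fintype.card k : ℝ) - 1) := by
  unfold la
  rw [← sum_div, sum_add_distrib, sum_sc_sq h2, sum_sc_ext K hK h2]
  ring

theorem la_abs (hK : Fintype.card K = Fintype.card k ^ 2) (h2 : ringChar k ≠ 2) {f : k[X]} (hf : f.Monic) {g : ℕ}
    (hd : f.natDegree = 2 * g + 1) : |la K f| ≤ (2 * (g : ℝ) ^ 2 + g) * Fintype.card k := by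
  have hq : (0 : ℝ) ≤ (Fintype.card k : ℝ) := Nat.cast_nonneg _
  have h3 : |sc f| ≤ 2 * g * √(Fintype.card k : ℝ) := weil_odd h2 hf hd
  have h4 : |sc (f.map (algebraMap k K))| ≤ 2 * g * √(Fintype.card K : ℝ) :=
    weil_odd (ringChar_ext K h2) (hf.map _) (by rw [hf.natDegree_map]; exact hd)
  have h5 : √(Fintype.card K : ℝ) = (Fintype.card k : ℝ) := by
    rw [hK, Nat.cast_pow, Real.sqrt_sq hq]
  rw [h5] at h4
  have h6 : sc f ^ 2 ≤ 4 * (g : ℝ) ^ 2 * Fintype.card k := by
    rw [← sq_abs]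
    calc |sc f| ^ 2 ≤ (2 * g * √(Fintype.card k : ℝ)) ^ 2 := pow_le_pow_left₀ (abs_nonneg _) h3 2
      _ = 4 * (g : ℝ) ^ 2 * (√(Fintype.card k : ℝ)) ^ 2 := by ring
      _ = _ := by rw [Real.sq_sqrt hq]
  unfold la
  rw [abs_le] at h4 ⊢
  have h7 := sq_nonneg (sc f)
  have h8 : 0 ≤ (g : ℝ) ^ 2 * Fintype.card k := by positivity
  constructor <;> nlinarith [h4.1, h4.2]

end

end Pool.Agent.T3h87.RP
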