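import Pool.Agent.T3h87.RP.Jac

/-!
# Traces of the Frobenius on the exterior square of `H¹`: fibrations over the affine space
-/

set_option autoImplicit false

namespace Pool.Agent.T3h87.RP

open Finset Polynomial

section
variable {k : Type} [Field k] [Fintype k] [DecidableEq k] (K : Type) [Field K] [Fintype K] [DecidableEq K] [Algebra k K]
  {T : Type} {D : ℕ} (f0 : T → k[X]) (H : Fin D → T → k[X])

/-- the polynomial of the fibre -/
noncomputable def pf (u : Fin D → k) (t : T) : k[X] := f0 t + ∑ i, C (u i) * H i t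

lemma pf_add (u c0 c1 : Fin D → k) (s0 s1 : k) (t : T) :
    pf f0 H (fun i => u i + (s0 * c0 i + s1 * c1 i)) t =
      pf f0 H u t + (C s0 * (∑ i, C (c0 i) * H i t) + C s1 * (∑ i, C (c1 i) * H i t)) := by
  unfold pf
  rw [mul_sum, mul_sum, ← sum_add_distrib, add_assoc, ← sum_add_distrib]
  congr 1
  refine sum_congr rfl fun i _ => ?_
  simp only [C_add, C_mul]
  ring

/-- combinations which are `1` or `x` on a fibre and `0` on another one -/
def Fr : Prop := ∀ t t' : T, t ≠ t' → ∃ c0 c1 : Fin D → k, ∑ i, C (c0 i) * H i t = 1 ∧ ∑ i, C (c1 i) * H i t = X ∧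
  ∑ i, C (c0 i) * H i t' = 0 ∧ ∑ i, C (c1 i) * H i t' = 0

variable {f0 H}

theorem inv_avg (hK : Fintype.card K = Fintype.card k ^ 2) (h2 : ringChar k ≠ 2) (W : (Fin D → k) → ℝ) (c0 c1 : Fin D → k) (t : T)
    (hW : ∀ (u : Fin D → k) (s0 s1 : k), W (fun i => u i + (s0 * c0 i + s1 * c1 i)) = W u)
    (h0 : ∑ i, C (c0 i) * H i t = 1) (h1 : ∑ i, C (c1 i) * H i t = X) :
    ∑ u, W u * la K (pf f0 H u t) = ((Fintype.card k : ℝ) - 1) * ∑ u, W u := by
  have hq : (0 : ℝ) < Fintype.card k := by exact_mod_cast Fintype.card_pos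
  have e1 : ∀ s : k × k, ∑ u : Fin D → k, W (fun i => u i + (s.1 * c0 i + s.2 * c1 i)) *
      la K (pf f0 H (fun i => u i + (s.1 * c0 i + s.2 * c1 i)) t) = ∑ u, W u * la K (pf f0 H u t) := by
    intro s
    exact Fintype.sum_equiv (Equiv.addRight fun i => s.1 * c0 i + s.2 * c1 i) _ _ fun _ => rfl
  have e2 : ∑ s : k × k, ∑ u : Fin D → k, W (fun i => u i + (s.1 * c0 i + s.2 * c1 i)) *
      la K (pf f0 H (fun i => u i + (s.1 * c0 i + s.2 * c1 i)) t) = (Fintype.card k : ℝ) ^ 2 * ∑ u, W u * la K (pf f0 H u t) := by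
    rw [sum_congr rfl fun s _ => e1 s, sum_const, card_univ, Fintype.card_prod, nsmul_eq_mul]
    push_cast
    ring
  have e3 : ∑ s : k × k, ∑ u : Fin D → k, W (fun i => u i + (s.1 * c0 i + s.2 * c1 i)) *
      la K (pf f0 H (fun i => u i + (s.1 * c0 i + s.2 * c1 i)) t) =
      (Fintype.card k : ℝ) ^ 2 * ((Fintype.card k : ℝ) - 1) * ∑ u, W u := by
    rw [sum_comm, mul_sum]
    refine sum_congr rfl fun u _ => ?_
    have e4 : ∀ s : k × k, W (fun i => u i + (s.1 * c0 i + s.2 * c1 i)) *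
        la K (pf f0 H (fun i => u i + (s.1 * c0 i + s.2 * c1 i)) t) = W u * la K (pf f0 H u t + (C s.1 + C s.2 * X)) := by
      intro s
      rw [hW, pf_add, h0, h1, mul_one]
    rw [sum_congr rfl fun s _ => e4 s, ← mul_sum, sum_la K hK h2]
    ring
  rw [e2] at e3
  have e5 : (Fintype.card k : ℝ) ^ 2 ≠ 0 := by positivity
  rw [mul_assoc] at e3
  exact mul_left_cancel₀ e5 e3

variable (f0 H) in
/-- the difference -/
noncomputable def gg (u : Fin D → k) (t : T) : ℝ := la K (pf f0 H u t) - Fintype.card k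

lemma sum_gg (hK : Fintype.card K = Fintype.card k ^ 2) (h2 : ringChar k ≠ 2) (hfr : Fr H) (t t' : T) (ht : t ≠ t') :
    ∑ u, gg K f0 H u t = -(Fintype.card k : ℝ) ^ D := by
  obtain ⟨c0, c1, h0, h1, -, -⟩ := hfr t t' ht
  have e1 := inv_avg K (f0 := f0) hK h2 (fun _ => 1) c0 c1 t (fun _ _ _ => rfl) h0 h1
  simp only [one_mul] at e1
  unfold gg
  rw [sum_sub_distrib, e1, sum_const, card_univ, Fintype.card_fun, Fintype.card_fin, nsmul_eq_mul, sum_const, card_univ,
    Fintype.card_fun, Fintype.card_fin, nsmul_eq_mul]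
  push_cast
  ring

lemma sum_gg_gg (hK : Fintype.card K = Fintype.card k ^ 2) (h2 : ringChar k ≠ 2) (hfr : Fr H) (t t' : T) (ht : t ≠ t') :
    ∑ u, gg K f0 H u t * gg K f0 H u t' = (Fintype.card k : ℝ) ^ D := by
  obtain ⟨c0, c1, h0, h1, h3, h4⟩ := hfr t t' ht
  have e1 := inv_avg K (f0 := f0) hK h2 (fun u => gg K f0 H u t') c0 c1 t (fun u s0 s1 => by
    unfold gg
    rw [pf_add, h3, h4, mul_zero, mul_zero, add_zero, add_zero]) h0 h1
  have e2 := sum_gg K (f0 := f0) hK h2 hfr t' t ht.symm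
  have e3 : ∑ u, gg K f0 H u t * gg K f0 H u t' =
      ∑ u, gg K f0 H u t' * la K (pf f0 H u t) - (Fintype.card k : ℝ) * ∑ u, gg K f0 H u t' := by
    rw [mul_sum, ← sum_sub_distrib]
    refine sum_congr rfl fun u _ => ?_
    have : gg K f0 H u t = la K (pf f0 H u t) - Fintype.card k := rfl
    rw [this]
    ring
  rw [e3, e1, e2]
  ring

variable [Fintype T] [DecidableEq T]

variable (f0 H) in
/-- the normalised average of the differences -/
noncomputable def LL (u : Fin D → k) : ℝ := (∑ t, gg K f0 H u t) / ((Fintype.card T : ℝ) * √(Fintype.card k : ℝ))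

theorem LL_loc (hK : Fintype.card K = Fintype.card k ^ 2) (h2 : ringChar k ≠ 2) (hfr : Fr H) (hT : Fintype.card k ≤ Fintype.card T)
    (g : ℕ) (hmon : ∀ u t, (pf f0 H u t).Monic) (hdeg : ∀ u t, (pf f0 H u t).natDegree = 2 * g + 1) :
    (∀ u, |LL K f0 H u| ≤ (2 * (g : ℝ) ^ 2 + g + 1) * √(Fintype.card k : ℝ)) ∧
    (∑ u, LL K f0 H u ^ 2) / (Fintype.card k : ℝ) ^ D ≤ (2 * (g : ℝ) ^ 2 + g + 1) ^ 2 + 1 ∧
    |(∑ u, LL K f0 H u) / (Fintype.card k : ℝ) ^ D| ≤ 1 / √(Fintype.card k : ℝ) := by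
  obtain ⟨q, hq⟩ : ∃ q : ℝ, q = Fintype.card k := ⟨_, rfl⟩
  obtain ⟨N, hN⟩ : ∃ N : ℝ, N = Fintype.card T := ⟨_, rfl⟩
  obtain ⟨A, hA⟩ : ∃ A : ℝ, A = 2 * (g : ℝ) ^ 2 + g + 1 := ⟨_, rfl⟩
  have hA1 : 1 ≤ A := by rw [hA]; nlinarith [sq_nonneg (g : ℝ), (Nat.cast_nonneg g : (0 : ℝ) ≤ g)]
  have hcard1 : 1 < Fintype.card k := Fintype.one_lt_card
  have hq1 : 1 < q := by rw [hq]; exact_mod_cast hcard1
  have hq0 : 0 < q := by linarith
  have hNq : q ≤ N := by rw [hq, hN]; exact_mod_cast hT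
  have hN0 : 0 < N := by linarith
  have hs : 0 < √q := Real.sqrt_pos.2 hq0
  have hss : √q * √q = q := Real.mul_self_sqrt hq0.le
  have hgg : ∀ u t, |gg K f0 H u t| ≤ A * q := by
    intro u t
    have h3 := la_abs K hK h2 (hmon u t) (hdeg u t)
    unfold gg
    rw [← hq] at h3 ⊢
    refine (abs_sub _ _).trans ?_
    rw [abs_of_pos hq0, hA]
    linarith
  have hcT : (univ : Finset T).card = Fintype.card T := card_univ
  -- there are two points
  have hex : ∀ t : T, ∃ t' : T, t ≠ t' := by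
    intro t
    have h3 : 1 < Fintype.card T := by omega
    obtain ⟨t', ht'⟩ := Fintype.exists_ne_of_one_lt_card h3 t
    exact ⟨t', ht'.symm⟩
  have hmean : ∀ t, ∑ u, gg K f0 H u t = -q ^ D := by
    intro t
    obtain ⟨t', ht'⟩ := hex t
    rw [hq]
    exact sum_gg K hK h2 hfr t t' ht'
  have hdef : ∀ u, LL K f0 H u = (∑ t, gg K f0 H u t) / (N * √q) := fun u => by rw [hN, hq]; rfl
  rw [← hq, ← hA]
  refine ⟨fun u => ?_, ?_, ?_⟩
  · rw [hdef, abs_div, abs_of_pos (by positivity : 0 < N * √q), div_le_iff₀ (by positivity)]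
    refine (abs_sum_le_sum_abs _ _).trans ?_
    refine (sum_le_sum fun t _ => hgg u t).trans ?_
    rw [sum_const, hcT, nsmul_eq_mul, ← hN]
    calc N * (A * q) = A * (√q * √q) * N := by rw [hss]; ring
      _ ≤ A * √q * (N * √q) := by apply le_of_eq; ring
  · have e1 : ∑ u, LL K f0 H u ^ 2 = (∑ t, ∑ t', ∑ u, gg K f0 H u t * gg K f0 H u t') / (N ^ 2 * q) := by
      have e2 : ∀ u, LL K f0 H u ^ 2 = (∑ t, ∑ t', gg K f0 H u t * gg K f0 H u t') / (N ^ 2 * q) := by
        intro u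
        rw [hdef, div_pow, sq (∑ t, gg K f0 H u t), sum_mul_sum, mul_pow, sq (√q), hss]
      rw [sum_congr rfl fun u _ => e2 u, ← sum_div, sum_comm]
      congr 1
      exact sum_congr rfl fun t _ => sum_comm
    have e3 : ∀ t t', ∑ u, gg K f0 H u t * gg K f0 H u t' ≤ q ^ D + if t = t' then q ^ D * (A * q) ^ 2 else 0 := by
      intro t t'
      by_cases htt : t = t'
      · rw [if_pos htt, ← htt]
        have h3 : ∀ u ∈ (univ : Finset (Fin D → k)), gg K f0 H u t * gg K f0 H u t ≤ (A * q) ^ 2 := by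
          intro u _
          rw [← sq, ← sq_abs]
          exact pow_le_pow_left₀ (abs_nonneg _) (hgg u t) 2
        refine (sum_le_sum h3).trans ?_
        rw [sum_const, card_univ, Fintype.card_fun, Fintype.card_fin, nsmul_eq_mul, Nat.cast_pow, ← hq]
        have : 0 ≤ q ^ D := by positivity
        linarith
      · rw [if_neg htt, add_zero, hq]
        exact (sum_gg_gg K hK h2 hfr t t' htt).le
    have e4 : ∑ t, ∑ t', ∑ u, gg K f0 H u t * gg K f0 H u t' ≤ q ^ D * (N ^ 2 + N * (A * q) ^ 2) := by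
      refine (sum_le_sum fun t _ => sum_le_sum fun t' _ => e3 t t').trans ?_
      have e5 : ∀ t : T, ∑ t' : T, (q ^ D + if t = t' then q ^ D * (A * q) ^ 2 else 0) = N * q ^ D + q ^ D * (A * q) ^ 2 := by
        intro t
        rw [sum_add_distrib, sum_const, hcT, nsmul_eq_mul, ← hN, sum_ite_eq univ t, if_pos (mem_univ t)]
      rw [sum_congr rfl fun t _ => e5 t, sum_const, hcT, nsmul_eq_mul, ← hN]
      apply le_of_eq
      ring
    have hqD : 0 < q ^ D := by positivity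
    rw [e1, div_div, div_le_iff₀ (by positivity)]
    refine e4.trans ?_
    have e6 : N ^ 2 ≤ N ^ 2 * q := by nlinarith [sq_nonneg N]
    have e7 : N * (A * q) ^ 2 ≤ A ^ 2 * (N ^ 2 * q) := by
      have : N * q * q ≤ N * q * N := mul_le_mul_of_nonneg_left hNq (by positivity)
      have h9 : 0 ≤ A ^ 2 := sq_nonneg A
      calc N * (A * q) ^ 2 = A ^ 2 * (N * q * q) := by ring
        _ ≤ A ^ 2 * (N * q * N) := mul_le_mul_of_nonneg_left this h9
        _ = _ := by ring
    calc q ^ D * (N ^ 2 + N * (A * q) ^ 2) ≤ q ^ D * (N ^ 2 * q + A ^ 2 * (N ^ 2 * q)) :=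
          mul_le_mul_of_nonneg_left (by linarith) hqD.le
      _ = _ := by ring
  · have e1 : ∑ u, LL K f0 H u = -(q ^ D) / √q := by
      rw [sum_congr rfl fun u _ => hdef u, ← sum_div, sum_comm, sum_congr rfl fun t _ => hmean t, sum_const, hcT, nsmul_eq_mul, ← hN]
      field_simp
    have hqD : (q ^ D) ≠ 0 := by positivity
    have e2 : -(q ^ D) / √q / q ^ D = -(1 / √q) := by field_simp
    rw [e1, e2, abs_neg, abs_of_pos (by positivity)]

end

end Pool.Agent.T3h87.RP
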