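import Pool.Agent.T3h87.RP.Sp2
import Pool.Agent.N647.NG.SurfA
import Pool.Agent.N647.NG.Expl2

/-!
# Fibrations in surfaces over the rational numbers with sparse parameters: the local bounds
-/

set_option autoImplicit false

namespace Pool.Agent.T3h87.RP

open Finset Polynomial Filter
open Pool.Agent.N647.NG
open Pool.Agent.N794.CG (meanD meanD_eq)
open Pool.Agent.R459.Eq (pri mem_pri)
open Pool.Agent.T3h87.LT (Fam Kind meanD_zmod sparse_main meanD_mono meanD_one)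

section
variable {m D : ℕ}

/-- separation of two points -/
def SepQ (p : ℕ) (h : Fin D → (MvPolynomial (Fin m) ℤ)[X]) : Prop :=
  ∀ P Q : (Fin m → ZMod p) × ZMod p, P ≠ Q → (∃ i, vf (rh p) (h i) P ≠ 0) →
    ¬ ∃ l : ZMod p, ∀ i, vf (rh p) (h i) P = l * vf (rh p) (h i) Q

/-- the points of the base locus -/
noncomputable def cbQ (p : ℕ) (h : Fin D → (MvPolynomial (Fin m) ℤ)[X]) : ℕ :=
  Nat.card {P : (Fin m → ZMod p) × ZMod p // ∀ i, vf (rh p) (h i) P = 0}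

/-- the points of the covering of the base locus -/
noncomputable def ccQ (p : ℕ) (F₀ : (MvPolynomial (Fin m) ℤ)[X]) (h : Fin D → (MvPolynomial (Fin m) ℤ)[X]) : ℕ :=
  Nat.card {P : ((Fin m → ZMod p) × ZMod p) × ZMod p // (∀ i, vf (rh p) (h i) P.1 = 0) ∧ P.2 ^ 2 = vf (rh p) F₀ P.1}

/-- the average with the contribution of the sections -/
noncomputable def psu (F₀ : (MvPolynomial (Fin m) ℤ)[X]) (h : Fin D → (MvPolynomial (Fin m) ℤ)[X]) (r : ℝ) (p : ℕ) (c : Fin D → ℤ) : ℝ :=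
  AA (rh p) (mem F₀ h c) + r

lemma psu_per (F₀ : (MvPolynomial (Fin m) ℤ)[X]) (h : Fin D → (MvPolynomial (Fin m) ℤ)[X]) (r : ℝ) (p : ℕ) (c c' : Fin D → ℤ)
    (hc : ∀ l, (p : ℤ) ∣ c l - c' l) : psu F₀ h r p c = psu F₀ h r p c' := by
  have h2 : (fun l => rh p (c l)) = fun l => rh p (c' l) := by
    funext l
    have h3 := (ZMod.intCast_zmod_eq_zero_iff_dvd (c l - c' l) p).2 (hc l)
    push_cast at h3
    exact sub_eq_zero.1 h3
  unfold psu
  rw [AA_mem, AA_mem, h2]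

lemma psu_triv (F₀ : (MvPolynomial (Fin m) ℤ)[X]) (h : Fin D → (MvPolynomial (Fin m) ℤ)[X]) (r : ℝ) (N : ℕ) (p : ℕ) (hp : p.Prime)
    (hpN : p ≤ N) (c : Fin D → ℤ) : |psu F₀ h r p c| ≤ 2 * (N : ℝ) ^ 2 + |r| := by
  have hF : Fact p.Prime := ⟨hp⟩
  have hp1 : (1 : ℝ) ≤ p := by exact_mod_cast hp.one_lt.le
  have hp0 : (0 : ℝ) < p := by linarith
  have hpNr : (p : ℝ) ≤ N := by exact_mod_cast hpN
  have h1 : (pts (rh p) (mem F₀ h c) : ℝ) ≤ (p : ℝ) ^ m * (p : ℝ) ^ 2 := by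
    have h3 : pts (rh p) (mem F₀ h c) ≤ Nat.card ((Fin m → ZMod p) × ZMod p × ZMod p) :=
      Nat.card_le_card_of_injective _ Subtype.val_injective
    rw [Nat.card_prod, Nat.card_prod, Nat.card_fun, Nat.card_zmod, Nat.card_fin, ← sq] at h3
    exact_mod_cast h3
  have h2 : (0 : ℝ) ≤ pts (rh p) (mem F₀ h c) := Nat.cast_nonneg _
  have h3 : (pts (rh p) (mem F₀ h c) : ℝ) / (p : ℝ) ^ m ≤ (p : ℝ) ^ 2 := by
    rw [div_le_iff₀ (by positivity)]
    linarith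
  have h4 : 0 ≤ (pts (rh p) (mem F₀ h c) : ℝ) / (p : ℝ) ^ m := by positivity
  have h5 : (p : ℝ) ^ 2 ≤ (N : ℝ) ^ 2 := pow_le_pow_left₀ hp0.le hpNr 2
  have h6 : (p : ℝ) ≤ (p : ℝ) ^ 2 := by nlinarith
  unfold psu AA
  rw [Nat.card_zmod]
  refine (abs_add_le _ _).trans (add_le_add_left ?_ _ |>.trans (le_of_eq rfl))
  rw [abs_le]
  constructor <;> nlinarith [sq_nonneg (p : ℝ)]

theorem psu_bounds (hm : 1 ≤ m) (F₀ : (MvPolynomial (Fin m) ℤ)[X]) (h : Fin D → (MvPolynomial (Fin m) ℤ)[X]) {g : ℕ} (hF : F₀.Monic)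
    (hd : F₀.natDegree = 2 * g + 1) (hh : ∀ i, (h i).natDegree < 2 * g + 1) (r C₀ : ℝ) (S : Set ℕ) (hS : S.Finite)
    (hs : ∀ p : ℕ, p.Prime → p ∉ S → SepQ p h)
    (hb : ∀ p : ℕ, p.Prime → p ∉ S → |(ccQ p F₀ h : ℝ) - cbQ p h - r * (p : ℝ) ^ m| ≤ C₀ * ((p : ℝ) ^ m / √p)) :
    ∃ C : ℝ, 1 ≤ C ∧ (∀ p : ℕ, p.Prime → ∀ c, |psu F₀ h r p c| ≤ C * √p) ∧
      (∀ p : ℕ, p.Prime → meanD p D (fun c => psu F₀ h r p c ^ 2) ≤ C) ∧
      (∀ p : ℕ, p.Prime → |meanD p D (psu F₀ h r p)| ≤ C / √p) := by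
  classical
  obtain ⟨C₁, hC₁⟩ : ∃ C₁ : ℝ, C₁ = 2 * g + |r| + (2 + 2 * C₀ ^ 2) + |C₀| := ⟨_, rfl⟩
  obtain ⟨N₀, hN₀⟩ := hS.bddAbove
  obtain ⟨N, hN⟩ : ∃ N, N = N₀ + 2 := ⟨_, rfl⟩
  obtain ⟨b, hb'⟩ : ∃ b : ℝ, b = 2 * (N : ℝ) ^ 2 + |r| := ⟨_, rfl⟩
  have hN1 : (1 : ℝ) ≤ N := by exact_mod_cast (by omega : 1 ≤ N)
  have hr := abs_nonneg r
  have hC0 := abs_nonneg C₀
  have hg0 : (0 : ℝ) ≤ g := Nat.cast_nonneg _
  have hb1 : 1 ≤ b := by
    rw [hb']
    nlinarith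
  obtain ⟨C, hC⟩ : ∃ C : ℝ, C = C₁ + b ^ 2 * N := ⟨_, rfl⟩
  have hC₁0 : 0 ≤ C₁ := by rw [hC₁]; positivity
  have hbb : b ≤ b ^ 2 := by nlinarith
  have hb2 : b ^ 2 ≤ b ^ 2 * N := by nlinarith [sq_nonneg b]
  have hbN : b * N ≤ b ^ 2 * N := mul_le_mul_of_nonneg_right hbb (by linarith)
  have hC1 : C₁ ≤ C := by rw [hC]; nlinarith [sq_nonneg b]
  have hCb : b ^ 2 * N ≤ C := by rw [hC]; linarith
  have hgood : ∀ p : ℕ, p.Prime → N < p → (∀ c, |psu F₀ h r p c| ≤ C₁ * √p) ∧ meanD p D (fun c => psu F₀ h r p c ^ 2) ≤ C₁ ∧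
      |meanD p D (psu F₀ h r p)| ≤ C₁ / √p := by
    intro p hp hNp
    have hFp : Fact p.Prime := ⟨hp⟩
    have hpS : p ∉ S := fun h0 => by have := hN₀ h0; omega
    have hp2 : p ≠ 2 := by omega
    have hch : ringChar (ZMod p) ≠ 2 := by rwa [ZMod.ringChar_zmod_n]
    have hp0 : (0 : ℝ) < p := by exact_mod_cast hp.pos
    have hsp : 0 < √(p : ℝ) := Real.sqrt_pos.2 hp0
    have hcard : (Fintype.card (ZMod p) : ℝ) = p := by rw [ZMod.card]
    have hbs := bs_card hch (vf (rh p) F₀) (fun i => vf (rh p) (h i))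
    have hq : 0 < (p : ℝ) ^ m / √p := by positivity
    obtain ⟨h3, h4, h5⟩ := loc_all hm hch (rh p) F₀ h hF hd hh r |C₀| hC0 (hs p hp hpS) (by
      rw [hbs, hcard]
      refine (hb p hp hpS).trans ?_
      exact mul_le_mul_of_nonneg_right (le_abs_self _) hq.le)
    rw [hcard] at h3 h4 h5
    have hpsu : ∀ c, psu F₀ h r p c = Ag (rh p) F₀ h (fun l => (c l : ZMod p)) + r := fun c => by
      unfold psu
      rw [AA_mem]
      rfl
    refine ⟨fun c => ?_, ?_, ?_⟩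
    · rw [hpsu]
      refine (h3 _).trans ?_
      apply mul_le_mul_of_nonneg_right _ hsp.le
      rw [hC₁]
      nlinarith [sq_nonneg C₀]
    · have e1 : meanD p D (fun c => psu F₀ h r p c ^ 2) = (∑ u : Fin D → ZMod p, (Ag (rh p) F₀ h u + r) ^ 2) / (Fintype.card (ZMod p) : ℝ) ^ D := by
        rw [← meanD_zmod p hp D (fun u : Fin D → ZMod p => (Ag (rh p) F₀ h u + r) ^ 2)]
        congr 1
        funext c
        rw [hpsu]
      rw [e1, hcard]
      refine h4.trans ?_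
      rw [sq_abs, hC₁]
      linarith
    · have e1 : meanD p D (psu F₀ h r p) = (∑ u : Fin D → ZMod p, (Ag (rh p) F₀ h u + r)) / (Fintype.card (ZMod p) : ℝ) ^ D := by
        rw [← meanD_zmod p hp D (fun u : Fin D → ZMod p => (Ag (rh p) F₀ h u + r))]
        congr 1
        funext c
        rw [hpsu]
      rw [e1, hcard]
      refine h5.trans (div_le_div_of_nonneg_right ?_ hsp.le)
      rw [hC₁]
      nlinarith [sq_nonneg C₀]
  refine ⟨C, ?_, fun p hp c => ?_, fun p hp => ?_, fun p hp => ?_⟩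
  · nlinarith
  · have hs1 : 1 ≤ √(p : ℝ) := Real.one_le_sqrt.2 (by exact_mod_cast hp.one_lt.le)
    rcases le_or_gt p N with hpN | hpN
    · have h1 := psu_triv F₀ h r N p hp hpN c
      rw [← hb'] at h1
      nlinarith
    · exact ((hgood p hp hpN).1 c).trans (mul_le_mul_of_nonneg_right hC1 (Real.sqrt_nonneg _))
  · rcases le_or_gt p N with hpN | hpN
    · have h1 : ∀ c, psu F₀ h r p c ^ 2 ≤ b ^ 2 * 1 := by
        intro c
        have h2 := psu_triv F₀ h r N p hp hpN c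
        rw [← hb'] at h2
        rw [mul_one, ← sq_abs]
        exact pow_le_pow_left₀ (abs_nonneg _) h2 2
      have h2 := meanD_mono p D _ _ h1
      rw [Pool.Agent.T3h87.LT.meanD_mul, meanD_one p D hp.pos, mul_one] at h2
      linarith
    · exact (hgood p hp hpN).2.1.trans hC1
  · have hp0 : (0 : ℝ) < p := by exact_mod_cast hp.pos
    have hsp : 0 < √(p : ℝ) := Real.sqrt_pos.2 hp0
    rcases le_or_gt p N with hpN | hpN
    · have h1 := meanD_abs_le p D hp.pos (psu F₀ h r p) b (fun c => by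
        have h2 := psu_triv F₀ h r N p hp hpN c
        rwa [← hb'] at h2)
      rw [le_div_iff₀ hsp]
      have h2 : √(p : ℝ) ≤ N := by
        rw [Real.sqrt_le_left (by linarith)]
        have h3 : (p : ℝ) ≤ N := by exact_mod_cast hpN
        nlinarith
      calc |meanD p D (psu F₀ h r p)| * √(p : ℝ) ≤ b * N := mul_le_mul h1 h2 hsp.le (by linarith)
        _ ≤ C := hbN.trans hCb
    · exact ((hgood p hp hpN).2.2).trans (div_le_div_of_nonneg_right hC1 hsp.le)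

lemma mem_mon (F₀ : (MvPolynomial (Fin m) ℤ)[X]) (h : Fin D → (MvPolynomial (Fin m) ℤ)[X])
    {g' : ℕ} (hF : F₀.Monic) (hd : F₀.natDegree = 2 * g' + 1) (hh : ∀ i, (h i).natDegree < 2 * g' + 1) (c : Fin D → ℤ) :
    (mem F₀ h c).Monic ∧ (mem F₀ h c).natDegree = 2 * g' + 1 := by
  have h6 : (∑ i, C (MvPolynomial.C (c i)) * h i).natDegree ≤ 2 * g' := by
    refine natDegree_sum_le_of_forall_le _ _ fun i _ => ?_
    refine (natDegree_C_mul_le _ _).trans ?_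
    have := hh i
    omega
  have h7 : (∑ i, C (MvPolynomial.C (c i)) * h i).degree < F₀.degree := by
    rw [degree_eq_natDegree hF.ne_zero, hd]
    exact lt_of_le_of_lt degree_le_natDegree (by exact_mod_cast (by omega : (∑ i, C (MvPolynomial.C (c i)) * h i).natDegree < 2 * g' + 1))
  unfold mem
  exact ⟨hF.add_of_left h7, by rw [natDegree_add_eq_left_of_degree_lt h7, hd]⟩

end

end Pool.Agent.T3h87.RP
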