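import Pool.Agent.T3h87.RP.Jac2
import Pool.Agent.T3h87.RP.Su
import Mathlib.FieldTheory.Finite.GaloisField

/-!
# Fibrations in Jacobians: the local functions over the rational numbers
-/

set_option autoImplicit false

namespace Pool.Agent.T3h87.RP

open Finset Polynomial Filter
open Pool.Agent.N647.NG
open Pool.Agent.N794.CG (meanD meanD_eq)
open Pool.Agent.R459.Eq (pri mem_pri)
open Pool.Agent.T3h87.LT (Fam Kind meanD_zmod sparse_main meanD_mono meanD_one)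

section
variable {m D : ℕ}

/-- the trace on the exterior square of `H¹` -/
noncomputable def lam (p : ℕ) [Fact p.Prime] (F : (MvPolynomial (Fin m) ℤ)[X]) (t : Fin m → ZMod p) : ℝ :=
  (t1 (rh p) F t ^ 2 - t1 (Int.castRingHom (GaloisField p 2)) F (fun l => algebraMap (ZMod p) (GaloisField p 2) (t l))) / 2

/-- combinations of the system which are `1` or `x` on a fibre and `0` on another one -/
def FrP (p : ℕ) (h : Fin D → (MvPolynomial (Fin m) ℤ)[X]) : Prop :=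
  ∀ t t' : Fin m → ZMod p, t ≠ t' → ∃ c0 c1 : Fin D → ZMod p, ∑ i, C (c0 i) * ev (rh p) t (h i) = 1 ∧
    ∑ i, C (c1 i) * ev (rh p) t (h i) = X ∧ ∑ i, C (c0 i) * ev (rh p) t' (h i) = 0 ∧ ∑ i, C (c1 i) * ev (rh p) t' (h i) = 0

lemma ev_mem (p : ℕ) [Fact p.Prime] (F₀ : (MvPolynomial (Fin m) ℤ)[X]) (h : Fin D → (MvPolynomial (Fin m) ℤ)[X]) (c : Fin D → ℤ) (t : Fin m → ZMod p) :
    ev (rh p) t (mem F₀ h c) = pf (fun t => ev (rh p) t F₀) (fun i t => ev (rh p) t (h i)) (fun l => (c l : ZMod p)) t := by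
  unfold ev mem pf
  rw [Polynomial.map_add, Polynomial.map_sum]
  congr 1
  refine sum_congr rfl fun i _ => ?_
  rw [Polynomial.map_mul, map_C, MvPolynomial.coe_eval₂Hom, MvPolynomial.eval₂_C]
  rfl

lemma ev_ext (p : ℕ) [Fact p.Prime] (K : Type) [Field K] [Algebra (ZMod p) K] (F : (MvPolynomial (Fin m) ℤ)[X]) (t : Fin m → ZMod p) :
    ev (Int.castRingHom K) (fun l => algebraMap (ZMod p) K (t l)) F = (ev (rh p) t F).map (algebraMap (ZMod p) K) := by
  unfold ev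
  rw [Polynomial.map_map]
  congr 1
  refine MvPolynomial.ringHom_ext (fun a => ?_) fun l => ?_
  · simp
  · simp

lemma t1_sc {κ : Type} [Field κ] [Fintype κ] [DecidableEq κ] (h2 : ringChar κ ≠ 2) (φ : ℤ →+* κ) (F : (MvPolynomial (Fin m) ℤ)[X])
    (t : Fin m → κ) : t1 φ F t = -sc (ev φ t F) := by
  unfold t1 sc
  rw [card_two h2 (fun x => (ev φ t F).eval x), Nat.card_eq_fintype_card]
  ring

lemma lam_eq (p : ℕ) [Fact p.Prime] (h2 : p ≠ 2) [Fintype (GaloisField p 2)] [DecidableEq (GaloisField p 2)]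
    (F : (MvPolynomial (Fin m) ℤ)[X]) (t : Fin m → ZMod p) : lam p F t = la (GaloisField p 2) (ev (rh p) t F) := by
  have hch : ringChar (ZMod p) ≠ 2 := by rwa [ZMod.ringChar_zmod_n]
  unfold lam la
  rw [t1_sc hch, t1_sc (ringChar_ext (GaloisField p 2) hch), ev_ext]
  ring

/-- the normalised difference for one curve -/
noncomputable def Lm (F : (MvPolynomial (Fin m) ℤ)[X]) (p : ℕ) : ℝ :=
  open Classical in
  if hp : p.Prime then
    haveI : Fact p.Prime := ⟨hp⟩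
    ((∑ᶠ t : Fin m → ZMod p, (lam p F t - p)) / (p : ℝ) ^ m) / √p
  else 0

lemma Lm_eq (p : ℕ) [hF : Fact p.Prime] (h2 : p ≠ 2) [Fintype (GaloisField p 2)] [DecidableEq (GaloisField p 2)]
    (F₀ : (MvPolynomial (Fin m) ℤ)[X]) (h : Fin D → (MvPolynomial (Fin m) ℤ)[X]) (c : Fin D → ℤ) :
    Lm (mem F₀ h c) p = LL (GaloisField p 2) (fun t : Fin m → ZMod p => ev (rh p) t F₀) (fun i t => ev (rh p) t (h i))
      (fun l => (c l : ZMod p)) := by
  unfold Lm LL gg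
  rw [dif_pos hF.out, finsum_eq_sum_of_fintype, div_div, ZMod.card]
  have hcT : (Fintype.card (Fin m → ZMod p) : ℝ) = (p : ℝ) ^ m := by
    rw [Fintype.card_fun, Fintype.card_fin, ZMod.card]
    push_cast
    rfl
  rw [hcT]
  congr 1
  refine sum_congr rfl fun t _ => ?_
  rw [lam_eq p h2, ev_mem]

lemma Lm_per (F₀ : (MvPolynomial (Fin m) ℤ)[X]) (h : Fin D → (MvPolynomial (Fin m) ℤ)[X]) (p : ℕ) (c c' : Fin D → ℤ)
    (hc : ∀ l, (p : ℤ) ∣ c l - c' l) : Lm (mem F₀ h c) p = Lm (mem F₀ h c') p := by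
  have h2 : (fun l => (c l : ZMod p)) = fun l => (c' l : ZMod p) := by
    funext l
    have h3 := (ZMod.intCast_zmod_eq_zero_iff_dvd (c l - c' l) p).2 (hc l)
    push_cast at h3
    exact sub_eq_zero.1 h3
  unfold Lm
  by_cases hp : p.Prime
  · have hF : Fact p.Prime := ⟨hp⟩
    rw [dif_pos hp, dif_pos hp]
    have h3 : ∀ t : Fin m → ZMod p, lam p (mem F₀ h c) t = lam p (mem F₀ h c') t := by
      intro t
      unfold lam t1
      rw [ev_ext, ev_ext, ev_mem, ev_mem, h2]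
    simp only [h3]
  · rw [dif_neg hp, dif_neg hp]

lemma card_gf (p : ℕ) [Fact p.Prime] : Nat.card (GaloisField p 2) = p ^ 2 := GaloisField.card p 2 two_ne_zero

/-- the trivial bound -/
lemma Lm_triv (F : (MvPolynomial (Fin m) ℤ)[X]) (N : ℕ) (p : ℕ) (hp : p.Prime) (hpN : p ≤ N) : |Lm F p| ≤ 2 * (N : ℝ) ^ 4 := by
  have hF : Fact p.Prime := ⟨hp⟩
  have hp1 : (1 : ℝ) ≤ p := by exact_mod_cast hp.one_lt.le
  have hp0 : (0 : ℝ) < p := by linarith
  have hpNr : (p : ℝ) ≤ N := by exact_mod_cast hpN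
  have hs1 : 1 ≤ √(p : ℝ) := Real.one_le_sqrt.2 hp1
  have hcT : (Fintype.card (Fin m → ZMod p) : ℝ) = (p : ℝ) ^ m := by
    rw [Fintype.card_fun, Fintype.card_fin, ZMod.card]
    push_cast
    rfl
  have hp4 : (p : ℝ) ≤ (p : ℝ) ^ 4 := by
    calc (p : ℝ) = (p : ℝ) ^ 1 := (pow_one _).symm
      _ ≤ (p : ℝ) ^ 4 := pow_le_pow_right₀ hp1 (by norm_num)
  have hfin : Finite (GaloisField p 2) := Nat.finite_of_card_ne_zero (by rw [card_gf]; exact pow_ne_zero 2 hp.ne_zero)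
  have h3 : ∀ t : Fin m → ZMod p, |lam p F t - p| ≤ 2 * (p : ℝ) ^ 4 := by
    intro t
    have h4 := t1_abs (rh p) F t (by rw [Nat.card_zmod]; exact hp.one_lt.le)
    have h5 := t1_abs (Int.castRingHom (GaloisField p 2)) F (fun l => algebraMap (ZMod p) (GaloisField p 2) (t l))
      (by rw [card_gf]; exact Nat.one_le_pow _ _ hp.pos)
    rw [Nat.card_zmod] at h4
    rw [card_gf] at h5
    have h6 : t1 (rh p) F t ^ 2 ≤ (p : ℝ) ^ 4 := by
      rw [← sq_abs]
      calc |t1 (rh p) F t| ^ 2 ≤ ((p : ℝ) ^ 2) ^ 2 := pow_le_pow_left₀ (abs_nonneg _) h4 2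
        _ = _ := by ring
    have h7 : (((p ^ 2 : ℕ) : ℝ)) ^ 2 = (p : ℝ) ^ 4 := by push_cast; ring
    rw [h7] at h5
    have h8 := sq_nonneg (t1 (rh p) F t)
    unfold lam
    rw [abs_le] at h5 ⊢
    constructor <;> linarith [h5.1, h5.2]
  unfold Lm
  rw [dif_pos hp, abs_div, abs_of_pos (by linarith : 0 < √(p : ℝ))]
  refine (div_le_self (abs_nonneg _) hs1).trans ?_
  rw [finsum_eq_sum_of_fintype, abs_div, abs_of_pos (by positivity : (0 : ℝ) < (p : ℝ) ^ m), div_le_iff₀ (by positivity)]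
  refine (abs_sum_le_sum_abs _ _).trans ((sum_le_sum fun t _ => h3 t).trans ?_)
  rw [sum_const, card_univ, nsmul_eq_mul, hcT]
  have h4 : (p : ℝ) ^ 4 ≤ (N : ℝ) ^ 4 := pow_le_pow_left₀ hp0.le hpNr 4
  have h5 : (0 : ℝ) < (p : ℝ) ^ m := by positivity
  nlinarith

theorem Lm_bounds (hm : 1 ≤ m) (F₀ : (MvPolynomial (Fin m) ℤ)[X]) (h : Fin D → (MvPolynomial (Fin m) ℤ)[X]) (hF : F₀.Monic)
    (hd : Odd F₀.natDegree) (hh : ∀ i, (h i).natDegree < F₀.natDegree) (S : Set ℕ) (hS : S.Finite)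
    (hs : ∀ p : ℕ, p.Prime → p ∉ S → FrP p h) :
    ∃ C : ℝ, 1 ≤ C ∧ (∀ p : ℕ, p.Prime → ∀ c, |Lm (mem F₀ h c) p| ≤ C * √p) ∧
      (∀ p : ℕ, p.Prime → meanD p D (fun c => Lm (mem F₀ h c) p ^ 2) ≤ C) ∧
      (∀ p : ℕ, p.Prime → |meanD p D (fun c => Lm (mem F₀ h c) p)| ≤ C / √p) := by
  classical
  obtain ⟨g, hg⟩ := hd
  obtain ⟨N₀, hN₀⟩ := hS.bddAbove
  obtain ⟨N, hN⟩ : ∃ N, N = N₀ + 2 := ⟨_, rfl⟩
  obtain ⟨b, hb⟩ : ∃ b : ℝ, b = 2 * (N : ℝ) ^ 4 := ⟨_, rfl⟩
  have hN1 : (1 : ℝ) ≤ N := by exact_mod_cast (by omega : 1 ≤ N)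
  have hN4 : (1 : ℝ) ≤ (N : ℝ) ^ 4 := one_le_pow₀ hN1
  have hb1 : 1 ≤ b := by rw [hb]; linarith
  obtain ⟨A, hA⟩ : ∃ A : ℝ, A = 2 * (g : ℝ) ^ 2 + g + 1 := ⟨_, rfl⟩
  have hA1 : 1 ≤ A := by rw [hA]; nlinarith [sq_nonneg (g : ℝ), (Nat.cast_nonneg g : (0 : ℝ) ≤ g)]
  obtain ⟨C, hC⟩ : ∃ C : ℝ, C = (A ^ 2 + 1) + b ^ 2 * N := ⟨_, rfl⟩
  have hbb : b ≤ b ^ 2 := by nlinarith
  have hb2 : b ^ 2 ≤ b ^ 2 * N := by nlinarith [sq_nonneg b]
  have hbN : b * N ≤ b ^ 2 * N := mul_le_mul_of_nonneg_right hbb (by linarith)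
  have hC1 : A ^ 2 + 1 ≤ C := by rw [hC]; nlinarith [sq_nonneg b]
  have hCA : A ≤ C := by nlinarith
  have hC11 : 1 ≤ C := hA1.trans hCA
  have hCb : b ^ 2 * N ≤ C := by rw [hC]; nlinarith [sq_nonneg A]
  have hgood : ∀ p : ℕ, p.Prime → N < p → (∀ c, |Lm (mem F₀ h c) p| ≤ A * √p) ∧
      meanD p D (fun c => Lm (mem F₀ h c) p ^ 2) ≤ A ^ 2 + 1 ∧ |meanD p D (fun c => Lm (mem F₀ h c) p)| ≤ 1 / √p := by
    intro p hp hNp
    have hFp : Fact p.Prime := ⟨hp⟩
    have hpS : p ∉ S := fun h0 => by have := hN₀ h0; omega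
    have hp2 : p ≠ 2 := by omega
    have hch : ringChar (ZMod p) ≠ 2 := by rwa [ZMod.ringChar_zmod_n]
    have hfin : Finite (GaloisField p 2) := Nat.finite_of_card_ne_zero (by rw [card_gf]; exact pow_ne_zero 2 hp.ne_zero)
    let ft : Fintype (GaloisField p 2) := Fintype.ofFinite _
    have hcardK : Fintype.card (GaloisField p 2) = Fintype.card (ZMod p) ^ 2 := by
      rw [← Nat.card_eq_fintype_card, card_gf, ZMod.card]
    have hcard : (Fintype.card (ZMod p) : ℝ) = p := by rw [ZMod.card]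
    have hT : Fintype.card (ZMod p) ≤ Fintype.card (Fin m → ZMod p) := by
      rw [Fintype.card_fun, Fintype.card_fin]
      exact Nat.le_self_pow (by omega) _
    have hmm : ∀ (u : Fin D → ZMod p) (t : Fin m → ZMod p),
        (pf (fun t => ev (rh p) t F₀) (fun i t => ev (rh p) t (h i)) u t).Monic ∧
        (pf (fun t => ev (rh p) t F₀) (fun i t => ev (rh p) t (h i)) u t).natDegree = 2 * g + 1 := by
      intro u t
      have e1 : u = fun l => (((u l).val : ℤ) : ZMod p) := by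
        funext l
        rw [Int.cast_natCast, ZMod.natCast_val, ZMod.cast_id', id]
      have e2 := mem_mon F₀ h hF hg (fun i => by rw [← hg]; exact hh i) (fun l => ((u l).val : ℤ))
      rw [e1, ← ev_mem]
      unfold ev
      exact ⟨e2.1.map _, by rw [e2.1.natDegree_map]; exact e2.2⟩
    obtain ⟨h3, h4, h5⟩ := LL_loc (GaloisField p 2) (f0 := fun t : Fin m → ZMod p => ev (rh p) t F₀)
      (H := fun i t => ev (rh p) t (h i)) hcardK hch (hs p hp hpS) hT g (fun u t => (hmm u t).1) (fun u t => (hmm u t).2)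
    rw [hcard, ← hA] at h3 h4
    rw [hcard] at h5
    have hL : ∀ c, Lm (mem F₀ h c) p = LL (GaloisField p 2) (fun t : Fin m → ZMod p => ev (rh p) t F₀) (fun i t => ev (rh p) t (h i))
      (fun l => (c l : ZMod p)) := fun c => Lm_eq p hp2 F₀ h c
    refine ⟨fun c => ?_, ?_, ?_⟩
    · rw [hL]
      exact h3 _
    · have e1 := meanD_zmod p hp D (fun u : Fin D → ZMod p => LL (GaloisField p 2) (fun t : Fin m → ZMod p => ev (rh p) t F₀)
        (fun i t => ev (rh p) t (h i)) u ^ 2)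
      rw [hcard] at e1
      simp only [hL]
      rw [e1]
      exact h4
    · have e1 := meanD_zmod p hp D (fun u : Fin D → ZMod p => LL (GaloisField p 2) (fun t : Fin m → ZMod p => ev (rh p) t F₀)
        (fun i t => ev (rh p) t (h i)) u)
      rw [hcard] at e1
      simp only [hL]
      rw [e1]
      exact h5
  refine ⟨C, hC11, fun p hp c => ?_, fun p hp => ?_, fun p hp => ?_⟩
  · have hs1 : 1 ≤ √(p : ℝ) := Real.one_le_sqrt.2 (by exact_mod_cast hp.one_lt.le)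
    rcases le_or_gt p N with hpN | hpN
    · have h1 := Lm_triv (mem F₀ h c) N p hp hpN
      rw [← hb] at h1
      nlinarith
    · exact ((hgood p hp hpN).1 c).trans (mul_le_mul_of_nonneg_right hCA (Real.sqrt_nonneg _))
  · rcases le_or_gt p N with hpN | hpN
    · have h1 : ∀ c, Lm (mem F₀ h c) p ^ 2 ≤ b ^ 2 * 1 := by
        intro c
        have h2 := Lm_triv (mem F₀ h c) N p hp hpN
        rw [← hb] at h2
        rw [mul_one, ← sq_abs]
        exact pow_le_pow_left₀ (abs_nonneg _) h2 2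
      have h2 := meanD_mono p D _ _ h1
      rw [Pool.Agent.T3h87.LT.meanD_mul, meanD_one p D hp.pos, mul_one] at h2
      linarith
    · exact (hgood p hp hpN).2.1.trans hC1
  · have hp0 : (0 : ℝ) < p := by exact_mod_cast hp.pos
    have hsp : 0 < √(p : ℝ) := Real.sqrt_pos.2 hp0
    rcases le_or_gt p N with hpN | hpN
    · have h1 := meanD_abs_le p D hp.pos (fun c => Lm (mem F₀ h c) p) b (fun c => by
        have h2 := Lm_triv (mem F₀ h c) N p hp hpN
        rwa [← hb] at h2)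
      rw [le_div_iff₀ hsp]
      have h2 : √(p : ℝ) ≤ N := by
        rw [Real.sqrt_le_left (by linarith)]
        have h3 : (p : ℝ) ≤ N := by exact_mod_cast hpN
        nlinarith
      calc |meanD p D (fun c => Lm (mem F₀ h c) p)| * √(p : ℝ) ≤ b * N := mul_le_mul h1 h2 hsp.le (by linarith)
        _ ≤ C := hbN.trans hCb
    · exact ((hgood p hp hpN).2.2).trans (div_le_div_of_nonneg_right hC11 hsp.le)

end

end Pool.Agent.T3h87.RP
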