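import Pool.Agent.T3h87.RP.Jac3

/-!
# Fibrations in products of Jacobians: the theorem
-/

set_option autoImplicit false

namespace Pool.Agent.T3h87.RP

open Finset Polynomial Filter
open Pool.Agent.N647.NG
open Pool.Agent.N794.CG (meanD meanD_eq)
open Pool.Agent.R459.Eq (pri mem_pri)
open Pool.Agent.T3h87.LT (Fam Kind meanD_zmod sparse_main meanD_mono meanD_one)

section
variable {m D : ℕ}

/-- the average of the traces on `H²` of the product of the Jacobians -/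
noncomputable def BJ {n : ℕ} (p : ℕ) (F : Fin n → (MvPolynomial (Fin m) ℤ)[X]) : ℝ :=
  open Classical in
  if hp : p.Prime then
    haveI : Fact p.Prime := ⟨hp⟩
    (∑ᶠ t : Fin m → ZMod p, (∑ i, lam p (F i) t + ∑ q ∈ pairs n, t1 (rh p) (F q.1) t * t1 (rh p) (F q.2) t)) / (p : ℝ) ^ m
  else 0

lemma BJ_eq {n : ℕ} (p : ℕ) [hF : Fact p.Prime] (F : Fin n → (MvPolynomial (Fin m) ℤ)[X]) :
    BJ p F = (∑ t : Fin m → ZMod p, (∑ i, lam p (F i) t + ∑ q ∈ pairs n, t1 (rh p) (F q.1) t * t1 (rh p) (F q.2) t)) / (p : ℝ) ^ m := by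
  unfold BJ
  rw [dif_pos hF.out, finsum_eq_sum_of_fintype]

lemma Lm_eq2 (p : ℕ) [hF : Fact p.Prime] (F : (MvPolynomial (Fin m) ℤ)[X]) :
    Lm F p = ((∑ t : Fin m → ZMod p, (lam p F t - p)) / (p : ℝ) ^ m) / √p := by
  unfold Lm
  rw [dif_pos hF.out, finsum_eq_sum_of_fintype]

lemma BBn_eq2 {n : ℕ} (p : ℕ) [hF : Fact p.Prime] (F : Fin n → (MvPolynomial (Fin m) ℤ)[X]) :
    BBn (rh p) F = (∑ t : Fin m → ZMod p, ((n : ℝ) * p + ∑ q ∈ pairs n, t1 (rh p) (F q.1) t * t1 (rh p) (F q.2) t)) / (p : ℝ) ^ m := by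
  unfold BBn
  rw [finsum_eq_sum_of_fintype, Nat.card_zmod]

/-- the algebra -/
lemma alg_id {T : Type} [Fintype T] (n : ℕ) (Q : Fin n → T → ℝ) (P : T → ℝ) (p ρ M s : ℝ) :
    ((∑ t, (∑ i, Q i t + P t)) / M - ρ * p) / s = ((∑ t, ((n : ℝ) * p + P t)) / M - ρ * p) / s +
      ∑ i, ((∑ t, (Q i t - p)) / M) / s := by
  have e4 : ∑ i, ∑ t, (Q i t - p) = ∑ t, (∑ i, Q i t + P t) - ∑ t, ((n : ℝ) * p + P t) := by
    rw [sum_comm, ← sum_sub_distrib]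
    refine sum_congr rfl fun t _ => ?_
    rw [sum_sub_distrib, sum_const, card_univ, Fintype.card_fin, nsmul_eq_mul]
    ring
  rw [← sum_div, ← sum_div, e4]
  ring

/-- the normalised difference -/
noncomputable def psj {n r : ℕ} (F₀ : Fin r → (MvPolynomial (Fin m) ℤ)[X]) (h : Fin r → Fin D → (MvPolynomial (Fin m) ℤ)[X])
    (e : Fin n → Fin r) (p : ℕ) (c : Fin D → ℤ) : ℝ :=
  (BJ p (fun i => mem (F₀ (e i)) (h (e i)) c) - ((n : ℝ) + ((pairs n).filter fun q => e q.1 = e q.2).card) * p) / √p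

lemma psj_eq {n r : ℕ} (F₀ : Fin r → (MvPolynomial (Fin m) ℤ)[X]) (h : Fin r → Fin D → (MvPolynomial (Fin m) ℤ)[X])
    (e : Fin n → Fin r) (p : ℕ) (hp : p.Prime) (c : Fin D → ℤ) :
    psj F₀ h e p c = psi F₀ h e p c + ∑ i, Lm (mem (F₀ (e i)) (h (e i)) c) p := by
  have hF : Fact p.Prime := ⟨hp⟩
  have e3 : ∀ i : Fin n, Lm (mem (F₀ (e i)) (h (e i)) c) p =
      ((∑ t : Fin m → ZMod p, (lam p (mem (F₀ (e i)) (h (e i)) c) t - p)) / (p : ℝ) ^ m) / √p := fun i => Lm_eq2 p _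
  unfold psj psi
  rw [BJ_eq, BBn_eq2, sum_congr rfl fun i _ => e3 i]
  exact alg_id n (fun i t => lam p (mem (F₀ (e i)) (h (e i)) c) t) _ (p : ℝ) _ ((p : ℝ) ^ m) (√p)

lemma psj_per {n r : ℕ} (F₀ : Fin r → (MvPolynomial (Fin m) ℤ)[X]) (h : Fin r → Fin D → (MvPolynomial (Fin m) ℤ)[X])
    (e : Fin n → Fin r) (p : ℕ) (hp : p.Prime) (c c' : Fin D → ℤ) (hc : ∀ l, (p : ℤ) ∣ c l - c' l) :
    psj F₀ h e p c = psj F₀ h e p c' := by
  have h1 : ∑ i : Fin n, Lm (mem (F₀ (e i)) (h (e i)) c) p = ∑ i : Fin n, Lm (mem (F₀ (e i)) (h (e i)) c') p :=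
    sum_congr rfl fun i _ => Lm_per (F₀ (e i)) (h (e i)) p c c' hc
  rw [psj_eq F₀ h e p hp, psj_eq F₀ h e p hp, psi_per F₀ h e p c c' hc, h1]

theorem psj_bounds (hm : 1 ≤ m) {n r : ℕ} (F₀ : Fin r → (MvPolynomial (Fin m) ℤ)[X]) (h : Fin r → Fin D → (MvPolynomial (Fin m) ℤ)[X])
    (e : Fin n → Fin r) (hF : ∀ j, (F₀ j).Monic) (hd : ∀ j, Odd (F₀ j).natDegree) (hh : ∀ j i, (h j i).natDegree < (F₀ j).natDegree)
    (B₀ : ℕ) (S : Set ℕ) (hS : S.Finite) (hs : ∀ p : ℕ, p.Prime → p ∉ S → ∀ i j, SepP p (i = j) (h i) (h j))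
    (hb : ∀ p : ℕ, p.Prime → p ∉ S → ∀ j, FewP p B₀ (h j)) (hfr : ∀ p : ℕ, p.Prime → p ∉ S → ∀ j, FrP p (h j)) :
    ∃ C : ℝ, 1 ≤ C ∧ (∀ p : ℕ, p.Prime → ∀ c, |psj F₀ h e p c| ≤ C * √p) ∧
      (∀ p : ℕ, p.Prime → meanD p D (fun c => psj F₀ h e p c ^ 2) ≤ C) ∧
      (∀ p : ℕ, p.Prime → |meanD p D (psj F₀ h e p)| ≤ C / √p) := by
  obtain ⟨C₁, hC₁, a1, a2, a3⟩ := psi_bounds hm F₀ h e hF hd hh B₀ S hS hs hb
  choose C₂ hC₂ b1 b2 b3 using fun j => Lm_bounds hm (F₀ j) (h j) (hF j) (hd j) (hh j) S hS fun p hp hpS => hfr p hp hpS j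
  obtain ⟨s, hs'⟩ : ∃ s : ℝ, s = ∑ i : Fin n, C₂ (e i) := ⟨_, rfl⟩
  have hs0 : 0 ≤ s := by rw [hs']; exact sum_nonneg fun i _ => by linarith [hC₂ (e i)]
  have hn0 : (0 : ℝ) ≤ n := Nat.cast_nonneg _
  have hns : 0 ≤ (n : ℝ) * s := mul_nonneg hn0 hs0
  obtain ⟨C, hC⟩ : ∃ C : ℝ, C = 2 * C₁ + 2 * n * s + s := ⟨_, rfl⟩
  refine ⟨C, by rw [hC]; nlinarith, fun p hp c => ?_, fun p hp => ?_, fun p hp => ?_⟩
  · rw [psj_eq F₀ h e p hp]
    have h1 : |∑ i, Lm (mem (F₀ (e i)) (h (e i)) c) p| ≤ s * √p := by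
      rw [hs', sum_mul]
      exact (abs_sum_le_sum_abs _ _).trans (sum_le_sum fun i _ => b1 (e i) p hp c)
    have h2 := abs_add_le (psi F₀ h e p c) (∑ i, Lm (mem (F₀ (e i)) (h (e i)) c) p)
    have h3 := a1 p hp c
    have h4 : (C₁ + s) * √(p : ℝ) ≤ C * √p := mul_le_mul_of_nonneg_right (by rw [hC]; nlinarith) (Real.sqrt_nonneg _)
    linarith
  · have h1 : ∀ c, psj F₀ h e p c ^ 2 ≤ 2 * psi F₀ h e p c ^ 2 + ∑ i : Fin n, (2 * (n : ℝ)) * Lm (mem (F₀ (e i)) (h (e i)) c) p ^ 2 := by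
      intro c
      rw [psj_eq F₀ h e p hp, ← mul_sum]
      have h2 := sq_sum_le_card_mul_sum_sq (s := (univ : Finset (Fin n))) (f := fun i => Lm (mem (F₀ (e i)) (h (e i)) c) p)
      rw [card_univ, Fintype.card_fin] at h2
      have h3 := sq_nonneg (psi F₀ h e p c - ∑ i, Lm (mem (F₀ (e i)) (h (e i)) c) p)
      nlinarith
    refine (meanD_mono p D _ _ h1).trans ?_
    have h4 : meanD p D (fun c => 2 * psi F₀ h e p c ^ 2 + ∑ i : Fin n, (2 * (n : ℝ)) * Lm (mem (F₀ (e i)) (h (e i)) c) p ^ 2) =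
        2 * meanD p D (fun c => psi F₀ h e p c ^ 2) + ∑ i : Fin n, (2 * (n : ℝ)) * meanD p D (fun c => Lm (mem (F₀ (e i)) (h (e i)) c) p ^ 2) := by
      have h5 := Pool.Agent.T3h87.LT.meanD_lin p D (univ : Finset (Option (Fin n))) (fun o => o.elim 2 fun _ => 2 * (n : ℝ))
        (fun o c => o.elim (psi F₀ h e p c ^ 2) fun i => Lm (mem (F₀ (e i)) (h (e i)) c) p ^ 2)
      simp only [Fintype.sum_option, Option.elim] at h5
      exact h5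
    rw [h4]
    have h6 : ∑ i : Fin n, (2 * (n : ℝ)) * meanD p D (fun c => Lm (mem (F₀ (e i)) (h (e i)) c) p ^ 2) ≤ ∑ i : Fin n, (2 * (n : ℝ)) * C₂ (e i) :=
      sum_le_sum fun i _ => mul_le_mul_of_nonneg_left (b2 (e i) p hp) (by positivity)
    have h6' : ∑ i : Fin n, (2 * (n : ℝ)) * C₂ (e i) = 2 * n * s := by rw [← mul_sum, ← hs']
    rw [h6'] at h6
    have h7 := a2 p hp
    rw [hC]
    linarith
  · have h4 : meanD p D (psj F₀ h e p) = meanD p D (psi F₀ h e p) + ∑ i : Fin n, meanD p D (fun c => Lm (mem (F₀ (e i)) (h (e i)) c) p) := by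
      have h5 := Pool.Agent.T3h87.LT.meanD_lin p D (univ : Finset (Option (Fin n))) (fun _ => 1)
        (fun o c => o.elim (psi F₀ h e p c) fun i => Lm (mem (F₀ (e i)) (h (e i)) c) p)
      simp only [Fintype.sum_option, Option.elim, one_mul] at h5
      rw [show psj F₀ h e p = fun c => psi F₀ h e p c + ∑ i : Fin n, Lm (mem (F₀ (e i)) (h (e i)) c) p from
        funext fun c => psj_eq F₀ h e p hp c]
      exact h5
    have hp0 : (0 : ℝ) < p := by exact_mod_cast hp.pos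
    have hsp : 0 < √(p : ℝ) := Real.sqrt_pos.2 hp0
    rw [h4]
    refine (abs_add_le _ _).trans ?_
    have h6 : |∑ i : Fin n, meanD p D (fun c => Lm (mem (F₀ (e i)) (h (e i)) c) p)| ≤ s / √p := by
      rw [hs', sum_div]
      exact (abs_sum_le_sum_abs _ _).trans (sum_le_sum fun i _ => b3 (e i) p hp)
    have h7 := a3 p hp
    have h8 : (C₁ + s) / √(p : ℝ) ≤ C / √p := div_le_div_of_nonneg_right (by rw [hC]; nlinarith) hsp.le
    rw [add_div] at h8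
    linarith

open Classical in
/-- **Products of Jacobians of members of linear systems of fibrations with sparse coefficients.** -/
theorem jacS (hm : 1 ≤ m) {n r : ℕ} (F₀ : Fin r → (MvPolynomial (Fin m) ℤ)[X]) (h : Fin r → Fin D → (MvPolynomial (Fin m) ℤ)[X])
    (e : Fin n → Fin r) (hF : ∀ j, (F₀ j).Monic) (hd : ∀ j, Odd (F₀ j).natDegree) (hh : ∀ j i, (h j i).natDegree < (F₀ j).natDegree)
    (B₀ : ℕ) (S : Set ℕ) (hS : S.Finite) (hs : ∀ p : ℕ, p.Prime → p ∉ S → ∀ i j, SepP p (i = j) (h i) (h j))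
    (hb : ∀ p : ℕ, p.Prime → p ∉ S → ∀ j, FewP p B₀ (h j)) (hfr : ∀ p : ℕ, p.Prime → p ∉ S → ∀ j, FrP p (h j))
    (F : Fin D → ℤ → Set Fam) (hK : ∀ l, Kind (F l)) (Z : MvPolynomial (Fin D) ℤ) (hZ : Z ≠ 0) (δ : ℝ) (hδ : 0 < δ) (hδ1 : δ ≤ 1) :
    ∃ (W e' K : ℕ) (ρ : ℝ), 1 ≤ W ∧ 1 ≤ K ∧ 0 < ρ ∧ ∀ κ : Fin D → ℤ, (∀ l, κ l ≠ 0) → ∃ X₀ : ℕ, 1 ≤ X₀ ∧ ∀ X : ℕ, X₀ ≤ X →
    ∀ f : Fin D → Fam, (∀ l, f l ∈ F l (κ l)) →
    ∀ w : ℕ → ℕ → ℝ, (∀ j p, |w j p| ≤ 1) → ∀ E : Finset (∀ l, (f l).ι), E ⊆ Fintype.piFinset (fun l => (f l).set) →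
    (∀ i ∈ E, ∃ x : ℕ, X ≤ x ∧ (∀ l, (x : ℝ) ^ W ≤ (f l).size) ∧ ∃ j : ℕ, (j + 1) ^ K ≤ x ∧
      ∃ R : Set ℕ, (∀ p ∈ R, (p : ℤ) ∣ MvPolynomial.eval (fun l => (f l).val (i l)) Z) ∧
      (x : ℝ) ^ (1 + δ) < |∑ p ∈ (pri x).filter (fun p => p ∉ R), w j p *
        ((BJ p (fun i' => mem (F₀ (e i')) (h (e i')) (fun l => (f l).val (i l))) -
          ((n : ℝ) + ((pairs n).filter fun q => e q.1 = e q.2).card) * p) * Real.log p)|) →
    ∑ i ∈ E, ∏ l, (f l).wt (i l) ≤ (∑ l, (1 + |Real.log (f l).size|) ^ e') * (X : ℝ) ^ (-ρ) := by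
  obtain ⟨C, hC, h1, h2, h3⟩ := psj_bounds hm F₀ h e hF hd hh B₀ S hS hs hb hfr
  obtain ⟨W, e', K, ρ, hW, hK1, hρ, H⟩ := sparse_main D F hK Z hZ (psj F₀ h e) (fun p hp c c' hc => psj_per F₀ h e p hp c c' hc) C hC
    h1 h2 h3 δ hδ hδ1
  refine ⟨W, e', K, ρ, hW, hK1, hρ, fun κ hκ => ?_⟩
  obtain ⟨X₀, hX₀, J⟩ := H κ hκ
  refine ⟨X₀, hX₀, fun X hX f hf w hw E hE hbad => J X hX f hf w hw E hE fun i hi => ?_⟩
  obtain ⟨x, q1, q2, j, q3, R, q4, q5⟩ := hbad i hi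
  refine ⟨x, q1, q2, j, q3, R, q4, lt_of_lt_of_eq q5 ?_⟩
  congr 1
  refine sum_congr rfl fun p hp => ?_
  have hpp := (mem_pri.1 (mem_filter.1 hp).1).2
  have hsp : √(p : ℝ) ≠ 0 := (Real.sqrt_pos.2 (by exact_mod_cast hpp.pos)).ne'
  unfold psj
  rw [← mul_assoc (_ / √(p : ℝ)), div_mul_cancel₀ _ hsp]

end

section
variable {m D r : ℕ}

/-- for the curve number `i`: combinations which are `1` or `x` on a fibre and `0` on another one and for the other curves -/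
def FrO (p : ℕ) (h : Fin r → Fin D → (MvPolynomial (Fin m) ℤ)[X]) : Prop :=
  ∀ (i : Fin r) (t t' : Fin m → ZMod p), t ≠ t' → ∀ a : ℕ, a ≤ 1 → ∃ c : Fin D → ZMod p,
    ∑ k, C (c k) * ev (rh p) t (h i k) = X ^ a ∧ (∀ j, j ≠ i → ∑ k, C (c k) * ev (rh p) t (h j k) = 0) ∧
    ∀ j, ∑ k, C (c k) * ev (rh p) t' (h j k) = 0

lemma frP_of {p : ℕ} {h : Fin r → Fin D → (MvPolynomial (Fin m) ℤ)[X]} (hO : FrO p h) (i : Fin r) : FrP p (h i) := by
  intro t t' ht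
  obtain ⟨c0, a1, -, a3⟩ := hO i t t' ht 0 (by norm_num)
  obtain ⟨c1, b1, -, b3⟩ := hO i t t' ht 1 le_rfl
  exact ⟨c0, c1, by rw [a1, pow_zero], by rw [b1, pow_one], a3 i, b3 i⟩

lemma vf_comb (p : ℕ) (h : Fin D → (MvPolynomial (Fin m) ℤ)[X]) (c : Fin D → ZMod p) (t : Fin m → ZMod p) (x : ZMod p) :
    ∑ k, c k * vf (rh p) (h k) (t, x) = (∑ k, C (c k) * ev (rh p) t (h k)).eval x := by
  rw [eval_finsetSum]
  refine sum_congr rfl fun k _ => ?_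
  rw [eval_mul, eval_C]
  rfl

lemma sepP_of {p : ℕ} {h : Fin r → Fin D → (MvPolynomial (Fin m) ℤ)[X]} (hp : p.Prime) (hO : FrO p h) (i j : Fin r) :
    SepP p (i = j) (h i) (h j) := by
  have hF : Fact p.Prime := ⟨hp⟩
  intro t t' ht x y x' y' hI _
  obtain ⟨c0, a1, a2, a3⟩ := hO i t t' ht 0 (by norm_num)
  obtain ⟨c1, b1, b2, b3⟩ := hO i t t' ht 1 le_rfl
  rw [pow_zero] at a1
  rw [pow_one] at b1
  by_cases hij : i = j
  · subst hij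
    obtain ⟨h1, -⟩ := hI rfl
    have key : ∀ (s : Fin m → ZMod p) (z : ZMod p), ∑ k, (c1 k - y * c0 k) * vf (rh p) (h i k) (s, z) =
        (∑ k, C (c1 k) * ev (rh p) s (h i k)).eval z - y * (∑ k, C (c0 k) * ev (rh p) s (h i k)).eval z := by
      intro s z
      rw [← vf_comb, ← vf_comb, mul_sum, ← sum_sub_distrib]
      exact sum_congr rfl fun k _ => by ring
    refine ⟨fun k => c1 k - y * c0 k, ?_, ?_, ?_, ?_⟩
    · rw [key, a1, b1, eval_X, eval_one, mul_one]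
      exact sub_ne_zero.2 h1
    · rw [key, a1, b1, eval_X, eval_one, mul_one, sub_self]
    · rw [key, a3, b3, eval_zero, mul_zero, sub_zero]
    · rw [key, a3, b3, eval_zero, mul_zero, sub_zero]
  · refine ⟨c0, ?_, ?_, ?_, ?_⟩
    · rw [vf_comb, a1, eval_one]
      exact one_ne_zero
    · rw [vf_comb, a2 j (Ne.symm hij), eval_zero]
    · rw [vf_comb, a3, eval_zero]
    · rw [vf_comb, a3, eval_zero]

lemma fewP_of (hm : 1 ≤ m) {p : ℕ} {h : Fin r → Fin D → (MvPolynomial (Fin m) ℤ)[X]} (hp : p.Prime) (hO : FrO p h) (i : Fin r) :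
    FewP p 0 (h i) := by
  have hF : Fact p.Prime := ⟨hp⟩
  intro t
  refine le_of_eq (Nat.card_eq_zero.2 (Or.inl ⟨fun x => ?_⟩))
  have hne : t ≠ fun l => t l + 1 := by
    intro h1
    have h2 := congrFun h1 ⟨0, by omega⟩
    simp at h2
  obtain ⟨c0, a1, -, -⟩ := hO i t _ hne 0 (by norm_num)
  have h3 := vf_comb p (h i) c0 t x.1
  rw [a1, pow_zero, eval_one, sum_eq_zero fun k _ => by rw [x.2 k, mul_zero]] at h3
  exact zero_ne_one h3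

end

section
variable {r : ℕ} {d : Fin r → ℕ} {e m D : ℕ} (E : Fin D ≃ Ep d e m)

lemma ev_hp (p : ℕ) (j : Fin r) (k : Ep d e m) (t : Fin m → ZMod p) :
    ev (rh p) t (hp ℤ j k) = if k.1 = j then X ^ (k.2.1 : ℕ) * C (∏ l, t l ^ (k.2.2 l : ℕ)) else 0 := by
  unfold hp ev
  by_cases h : k.1 = j
  · rw [if_pos h, if_pos h, Polynomial.map_mul, Polynomial.map_pow, map_X, map_C, map_prod]
    simp
  · rw [if_neg h, if_neg h, Polynomial.map_zero]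

lemma frO_p (hd : ∀ j, 2 ≤ d j) (he : 1 ≤ e) (p : ℕ) (hp1 : p.Prime) : FrO p (fun i k => hp ℤ i (E k)) := by
  have hF : Fact p.Prime := ⟨hp1⟩
  intro i t t' ht a ha
  obtain ⟨l, hl⟩ := Function.ne_iff.1 ht
  have hdi := hd i
  obtain ⟨a', ha'⟩ : ∃ a' : Fin (d i), (a' : ℕ) = a := ⟨⟨a, by omega⟩, rfl⟩
  obtain ⟨k1, hk1⟩ : ∃ k1, E k1 = ⟨i, a', fun l' => if l' = l then ⟨1, by omega⟩ else 0⟩ := ⟨E.symm _, E.apply_symm_apply _⟩
  obtain ⟨k2, hk2⟩ : ∃ k2, E k2 = ⟨i, a', fun _ => 0⟩ := ⟨E.symm _, E.apply_symm_apply _⟩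
  obtain ⟨s, hs⟩ : ∃ s : ZMod p, s = (t l - t' l)⁻¹ := ⟨_, rfl⟩
  have key : ∀ (j : Fin r) (u : Fin m → ZMod p), ∑ k, C (s * ((if k = k1 then 1 else 0) - t' l * (if k = k2 then 1 else 0))) *
      ev (rh p) u (hp ℤ j (E k)) = C s * (ev (rh p) u (hp ℤ j (E k1)) - C (t' l) * ev (rh p) u (hp ℤ j (E k2))) := by
    intro j u
    have h1 : ∀ k, C (s * ((if k = k1 then 1 else 0) - t' l * (if k = k2 then 1 else 0))) * ev (rh p) u (hp ℤ j (E k)) =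
        C s * ((if k = k1 then ev (rh p) u (hp ℤ j (E k)) else 0) - C (t' l) * (if k = k2 then ev (rh p) u (hp ℤ j (E k)) else 0)) := by
      intro k
      have h2 : ∀ (b : Prop) [Decidable b] (Q : (ZMod p)[X]), C (if b then (1 : ZMod p) else 0) * Q = if b then Q else 0 := by
        intro b _ Q
        split_ifs <;> simp
      rw [C_mul, C_sub, C_mul, ← h2 (k = k1), ← h2 (k = k2)]
      ring
    rw [sum_congr rfl fun k _ => h1 k, ← mul_sum, sum_sub_distrib, ← mul_sum, sum_ite_eq' univ k1, sum_ite_eq' univ k2,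
      if_pos (mem_univ _), if_pos (mem_univ _)]
  have v1 : ∀ u : Fin m → ZMod p, ev (rh p) u (hp ℤ i (E k1)) = X ^ a * C (u l) := by
    intro u
    rw [ev_hp, hk1, if_pos rfl]
    rw [ha']
    congr 2
    rw [prod_eq_single l]
    · simp
    · intro l' _ hl'
      simp [hl']
    · intro h
      exact absurd (mem_univ l) h
  have v2 : ∀ u : Fin m → ZMod p, ev (rh p) u (hp ℤ i (E k2)) = X ^ a := by
    intro u
    rw [ev_hp, hk2, if_pos rfl]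
    rw [ha']
    simp
  have v3 : ∀ (j : Fin r) (u : Fin m → ZMod p), j ≠ i → ev (rh p) u (hp ℤ j (E k1)) = 0 ∧ ev (rh p) u (hp ℤ j (E k2)) = 0 := by
    intro j u hj
    constructor
    · rw [ev_hp, hk1, if_neg (Ne.symm hj)]
    · rw [ev_hp, hk2, if_neg (Ne.symm hj)]
  refine ⟨fun k => s * ((if k = k1 then 1 else 0) - t' l * (if k = k2 then 1 else 0)), ?_, ?_, ?_⟩
  · rw [key, v1, v2]
    have h1 : C s * (X ^ a * C (t l) - C (t' l) * X ^ a) = X ^ a * C (s * (t l - t' l)) := by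
      rw [C_mul, C_sub]
      ring
    rw [h1, hs, inv_mul_cancel₀ (sub_ne_zero.2 hl), C_1, mul_one]
  · intro j hj
    rw [key, (v3 j t hj).1, (v3 j t hj).2, mul_zero, sub_zero, mul_zero]
  · intro j
    rw [key]
    by_cases hj : j = i
    · subst hj
      rw [v1, v2, mul_comm (X ^ a), sub_self, mul_zero]
    · rw [(v3 j t' hj).1, (v3 j t' hj).2, mul_zero, sub_zero, mul_zero]

end

end Pool.Agent.T3h87.RP
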