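import Pool.Agent.N647.NG.Fib

/-!
# Products of two traces in linear systems of hyperelliptic curves over finite fields: the first two moments
-/

set_option autoImplicit false

namespace Pool.Agent.T3h87.RP

open Finset Polynomial
open Pool.Agent.N647.NG (ch vl ch_abs sum_shift vl_add sum_ch_affine weil_odd)

section
variable {κ : Type} [Field κ] [Fintype κ] [DecidableEq κ] {T : Type} [Fintype T] [DecidableEq T] {D : ℕ}

/-- the translation argument -/
lemma shift_mul (h2 : ringChar κ ≠ 2) (f : T × κ → κ) (h : Fin D → T × κ → κ) (P : T × κ) (c : Fin D → κ)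
    (hc : ∑ i, c i * h i P ≠ 0) (G : (Fin D → κ) → ℝ) (hG : ∀ (u : Fin D → κ) (s : κ), G (fun i => u i + s * c i) = G u) :
    ∑ u, ch (vl f h u P) * G u = 0 := by
  refine sum_shift _ c fun u => ?_
  simp only [vl_add, hG]
  rw [← sum_mul, sum_ch_affine h2 _ _ hc, zero_mul]

lemma vl_inv (f : T × κ → κ) (h : Fin D → T × κ → κ) (P : T × κ) (c : Fin D → κ) (hc : ∑ i, c i * h i P = 0) (u : Fin D → κ) (s : κ) :
    vl f h (fun i => u i + s * c i) P = vl f h u P := by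
  rw [vl_add, hc, mul_zero, add_zero]

/-- the products of the characters over a set of pairs -/
noncomputable def Y (I : Finset (κ × κ)) (f f' : T × κ → κ) (h h' : Fin D → T × κ → κ) (u : Fin D → κ) (t : T) : ℝ :=
  ∑ x ∈ I, ch (vl f h u (t, x.1)) * ch (vl f' h' u (t, x.2))

/-- separation of four points, two over each of two points of the base -/
structure Sep4 (I : Finset (κ × κ)) (h h' : Fin D → T × κ → κ) : Prop where
  left : ∀ t t' : T, t ≠ t' → ∀ x ∈ I, ∀ y ∈ I, (∃ i, h i (t, x.1) ≠ 0) →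
    ∃ c : Fin D → κ, ∑ i, c i * h i (t, x.1) ≠ 0 ∧ ∑ i, c i * h' i (t, x.2) = 0 ∧ ∑ i, c i * h i (t', y.1) = 0 ∧
      ∑ i, c i * h' i (t', y.2) = 0
  right : ∀ t t' : T, t ≠ t' → ∀ x ∈ I, ∀ y ∈ I, (∃ i, h' i (t, x.2) ≠ 0) →
    ∃ c : Fin D → κ, ∑ i, c i * h' i (t, x.2) ≠ 0 ∧ ∑ i, c i * h i (t, x.1) = 0 ∧ ∑ i, c i * h i (t', y.1) = 0 ∧
      ∑ i, c i * h' i (t', y.2) = 0

variable {I : Finset (κ × κ)} {f f' : T × κ → κ} {h h' : Fin D → T × κ → κ}

lemma four (h2 : ringChar κ ≠ 2) (hs : Sep4 I h h') (t t' : T) (htt : t ≠ t') (x : κ × κ) (hx : x ∈ I) (y : κ × κ) (hy : y ∈ I)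
    (hne : (∃ i, h i (t, x.1) ≠ 0) ∨ (∃ i, h' i (t, x.2) ≠ 0) ∨ (∃ i, h i (t', y.1) ≠ 0) ∨ (∃ i, h' i (t', y.2) ≠ 0)) :
    ∑ u, (ch (vl f h u (t, x.1)) * ch (vl f' h' u (t, x.2))) * (ch (vl f h u (t', y.1)) * ch (vl f' h' u (t', y.2))) = 0 := by
  rcases hne with h1 | h1 | h1 | h1
  · obtain ⟨c, c1, c2, c3, c4⟩ := hs.left t t' htt x hx y hy h1
    rw [← shift_mul h2 f h (t, x.1) c c1 (fun u => ch (vl f' h' u (t, x.2)) * (ch (vl f h u (t', y.1)) * ch (vl f' h' u (t', y.2))))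
      (fun u s => by simp only [vl_inv f' h' (t, x.2) c c2, vl_inv f h (t', y.1) c c3, vl_inv f' h' (t', y.2) c c4])]
    exact sum_congr rfl fun u _ => by ring
  · obtain ⟨c, c1, c2, c3, c4⟩ := hs.right t t' htt x hx y hy h1
    rw [← shift_mul h2 f' h' (t, x.2) c c1 (fun u => ch (vl f h u (t, x.1)) * (ch (vl f h u (t', y.1)) * ch (vl f' h' u (t', y.2))))
      (fun u s => by simp only [vl_inv f h (t, x.1) c c2, vl_inv f h (t', y.1) c c3, vl_inv f' h' (t', y.2) c c4])]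
    exact sum_congr rfl fun u _ => by ring
  · obtain ⟨c, c1, c2, c3, c4⟩ := hs.left t' t htt.symm y hy x hx h1
    rw [← shift_mul h2 f h (t', y.1) c c1 (fun u => ch (vl f' h' u (t', y.2)) * (ch (vl f h u (t, x.1)) * ch (vl f' h' u (t, x.2))))
      (fun u s => by simp only [vl_inv f' h' (t', y.2) c c2, vl_inv f h (t, x.1) c c3, vl_inv f' h' (t, x.2) c c4])]
    exact sum_congr rfl fun u _ => by ring
  · obtain ⟨c, c1, c2, c3, c4⟩ := hs.right t' t htt.symm y hy x hx h1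
    rw [← shift_mul h2 f' h' (t', y.2) c c1 (fun u => ch (vl f h u (t', y.1)) * (ch (vl f h u (t, x.1)) * ch (vl f' h' u (t, x.2))))
      (fun u s => by simp only [vl_inv f h (t', y.1) c c2, vl_inv f h (t, x.1) c c3, vl_inv f' h' (t, x.2) c c4])]
    exact sum_congr rfl fun u _ => by ring

lemma two (h2 : ringChar κ ≠ 2) (hs : Sep4 I h h') (t t' : T) (htt : t ≠ t') (x : κ × κ) (hx : x ∈ I)
    (hne : (∃ i, h i (t, x.1) ≠ 0) ∨ (∃ i, h' i (t, x.2) ≠ 0)) :
    ∑ u, ch (vl f h u (t, x.1)) * ch (vl f' h' u (t, x.2)) = 0 := by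
  rcases hne with h1 | h1
  · obtain ⟨c, c1, c2, -, -⟩ := hs.left t t' htt x hx x hx h1
    exact shift_mul h2 f h (t, x.1) c c1 (fun u => ch (vl f' h' u (t, x.2))) (fun u s => by simp only [vl_inv f' h' (t, x.2) c c2])
  · obtain ⟨c, c1, c2, -, -⟩ := hs.right t t' htt x hx x hx h1
    rw [← shift_mul h2 f' h' (t, x.2) c c1 (fun u => ch (vl f h u (t, x.1))) (fun u s => by simp only [vl_inv f h (t, x.1) c c2])]
    exact sum_congr rfl fun u _ => by ring

/-- one if the point is in the base locus -/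
noncomputable def bb (h : Fin D → T × κ → κ) (P : T × κ) : ℝ := if ∀ i, h i P = 0 then 1 else 0

lemma bb_nonneg (h : Fin D → T × κ → κ) (P : T × κ) : 0 ≤ bb h P := by
  unfold bb
  split_ifs <;> norm_num

lemma bb_sum (h : Fin D → T × κ → κ) (t : T) (B : ℕ) (hB : (univ.filter fun x : κ => ∀ i, h i (t, x) = 0).card ≤ B) :
    ∑ x : κ, bb h (t, x) ≤ B := by
  unfold bb
  rw [sum_boole]
  exact_mod_cast hB

lemma sum_u_le (G : (Fin D → κ) → ℝ) (hG : ∀ u, |G u| ≤ 1) : |∑ u, G u| ≤ (Fintype.card κ : ℝ) ^ D := by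
  refine (abs_sum_le_sum_abs _ _).trans ((sum_le_sum fun u _ => hG u).trans ?_)
  rw [sum_const, card_univ, Fintype.card_fun, Fintype.card_fin, nsmul_eq_mul, mul_one]
  push_cast
  exact le_rfl

/-- the correlation over two different points of the base -/
lemma Y_pair (h2 : ringChar κ ≠ 2) (hs : Sep4 I h h') (B : ℕ)
    (hB : ∀ t, (univ.filter fun x : κ => ∀ i, h i (t, x) = 0).card ≤ B)
    (hB' : ∀ t, (univ.filter fun x : κ => ∀ i, h' i (t, x) = 0).card ≤ B) (t t' : T) (htt : t ≠ t') :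
    |∑ u, Y I f f' h h' u t * Y I f f' h h' u t'| ≤ (Fintype.card κ : ℝ) ^ D * B ^ 4 := by
  obtain ⟨q, hq⟩ : ∃ q : ℝ, q = (Fintype.card κ : ℝ) ^ D := ⟨_, rfl⟩
  have hq0 : 0 ≤ q := by rw [hq]; positivity
  have h1 : ∑ u, Y I f f' h h' u t * Y I f f' h h' u t' = ∑ x ∈ I, ∑ y ∈ I,
      ∑ u, (ch (vl f h u (t, x.1)) * ch (vl f' h' u (t, x.2))) * (ch (vl f h u (t', y.1)) * ch (vl f' h' u (t', y.2))) := by
    unfold Y
    simp only [sum_mul_sum]
    rw [sum_comm]
    refine sum_congr rfl fun x _ => ?_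
    rw [sum_comm]
  have h3 : ∀ x ∈ I, ∀ y ∈ I, |∑ u, (ch (vl f h u (t, x.1)) * ch (vl f' h' u (t, x.2))) * (ch (vl f h u (t', y.1)) * ch (vl f' h' u (t', y.2)))| ≤
      q * ((bb h (t, x.1) * bb h' (t, x.2)) * (bb h (t', y.1) * bb h' (t', y.2))) := by
    intro x hx y hy
    by_cases hall : (∀ i, h i (t, x.1) = 0) ∧ (∀ i, h' i (t, x.2) = 0) ∧ (∀ i, h i (t', y.1) = 0) ∧ (∀ i, h' i (t', y.2) = 0)
    · obtain ⟨a1, a2, a3, a4⟩ := hall
      unfold bb
      rw [if_pos a1, if_pos a2, if_pos a3, if_pos a4, mul_one, mul_one, mul_one, hq]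
      refine sum_u_le _ fun u => ?_
      rw [abs_mul, abs_mul, abs_mul]
      exact mul_le_one₀ (mul_le_one₀ (ch_abs _) (abs_nonneg _) (ch_abs _)) (by positivity) (mul_le_one₀ (ch_abs _) (abs_nonneg _) (ch_abs _))
    · rw [four h2 hs t t' htt x hx y hy (by
        by_contra hcon
        push Not at hcon
        exact hall hcon), abs_zero]
      have := bb_nonneg h (t, x.1)
      have := bb_nonneg h' (t, x.2)
      have := bb_nonneg h (t', y.1)
      have := bb_nonneg h' (t', y.2)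
      positivity
  rw [h1, ← hq]
  have hnn : ∀ (a b : T) (x : κ × κ), 0 ≤ bb h (a, x.1) * bb h' (b, x.2) := fun a b x => mul_nonneg (bb_nonneg _ _) (bb_nonneg _ _)
  have hsum : ∀ s : T, ∑ x ∈ I, bb h (s, x.1) * bb h' (s, x.2) ≤ (B : ℝ) * B := by
    intro s
    refine (sum_le_sum_of_subset_of_nonneg (subset_univ I) fun x _ _ => hnn s s x).trans ?_
    rw [Fintype.sum_prod_type]
    dsimp only
    rw [← sum_mul_sum]
    have e1 := bb_sum h s B (hB s)
    have e2 := bb_sum h' s B (hB' s)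
    exact mul_le_mul e1 e2 (sum_nonneg fun x _ => bb_nonneg _ _) (Nat.cast_nonneg _)
  have hs0 : ∀ s : T, 0 ≤ ∑ x ∈ I, bb h (s, x.1) * bb h' (s, x.2) := fun s => sum_nonneg fun x _ => hnn s s x
  calc |∑ x ∈ I, ∑ y ∈ I, ∑ u, (ch (vl f h u (t, x.1)) * ch (vl f' h' u (t, x.2))) * (ch (vl f h u (t', y.1)) * ch (vl f' h' u (t', y.2)))| ≤
      ∑ x ∈ I, ∑ y ∈ I, q * ((bb h (t, x.1) * bb h' (t, x.2)) * (bb h (t', y.1) * bb h' (t', y.2))) := by
        refine (abs_sum_le_sum_abs _ _).trans (sum_le_sum fun x hx => ?_)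
        exact (abs_sum_le_sum_abs _ _).trans (sum_le_sum fun y hy => h3 x hx y hy)
    _ = q * ((∑ x ∈ I, bb h (t, x.1) * bb h' (t, x.2)) * (∑ y ∈ I, bb h (t', y.1) * bb h' (t', y.2))) := by
        rw [sum_mul_sum, mul_sum]
        refine sum_congr rfl fun x _ => ?_
        rw [mul_sum]
    _ ≤ q * (((B : ℝ) * B) * ((B : ℝ) * B)) := by
        apply mul_le_mul_of_nonneg_left _ hq0
        exact mul_le_mul (hsum t) (hsum t') (hs0 t') (by positivity)
    _ = q * B ^ 4 := by ring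

/-- the second moment -/
lemma Y_second (h2 : ringChar κ ≠ 2) (hs : Sep4 I h h') (B : ℕ)
    (hB : ∀ t, (univ.filter fun x : κ => ∀ i, h i (t, x) = 0).card ≤ B)
    (hB' : ∀ t, (univ.filter fun x : κ => ∀ i, h' i (t, x) = 0).card ≤ B) (G : ℝ) (hG : ∀ u t, |Y I f f' h h' u t| ≤ G * Fintype.card κ) :
    ∑ u : Fin D → κ, (∑ t, Y I f f' h h' u t) ^ 2 ≤ (Fintype.card κ : ℝ) ^ D *
      (Fintype.card T * (G * Fintype.card κ) ^ 2 + (Fintype.card T : ℝ) ^ 2 * B ^ 4) := by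
  obtain ⟨q, hq⟩ : ∃ q : ℝ, q = (Fintype.card κ : ℝ) ^ D := ⟨_, rfl⟩
  have hq0 : 0 ≤ q := by rw [hq]; positivity
  have h1 : ∑ u : Fin D → κ, (∑ t, Y I f f' h h' u t) ^ 2 = ∑ t, ∑ t', ∑ u, Y I f f' h h' u t * Y I f f' h h' u t' := by
    simp only [sq, sum_mul_sum]
    rw [sum_comm]
    refine sum_congr rfl fun t _ => ?_
    rw [sum_comm]
  have h3 : ∀ t t' : T, ∑ u, Y I f f' h h' u t * Y I f f' h h' u t' ≤ q * B ^ 4 + (if t = t' then q * (G * Fintype.card κ) ^ 2 else 0) := by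
    intro t t'
    by_cases htt : t = t'
    · rw [if_pos htt, ← htt]
      have h4 : ∀ u : Fin D → κ, Y I f f' h h' u t * Y I f f' h h' u t ≤ (G * Fintype.card κ) ^ 2 := by
        intro u
        have h5 := hG u t
        rw [← sq, ← sq_abs]
        exact pow_le_pow_left₀ (abs_nonneg _) h5 2
      refine (sum_le_sum fun u _ => h4 u).trans ?_
      rw [sum_const, card_univ, Fintype.card_fun, Fintype.card_fin, nsmul_eq_mul]
      push_cast
      rw [← hq]
      have : 0 ≤ q * (B : ℝ) ^ 4 := by positivity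
      linarith
    · rw [if_neg htt, add_zero, hq]
      exact (le_abs_self _).trans (Y_pair h2 hs B hB hB' t t' htt)
  rw [h1]
  refine (sum_le_sum fun t _ => sum_le_sum fun t' _ => h3 t t').trans (le_of_eq ?_)
  simp only [sum_add_distrib, sum_const, card_univ, nsmul_eq_mul, sum_ite_eq, mem_univ, if_true]
  rw [← hq]
  ring

/-- the mean -/
lemma Y_first (h2 : ringChar κ ≠ 2) (hs : Sep4 I h h') (B : ℕ)
    (hB : ∀ t, (univ.filter fun x : κ => ∀ i, h i (t, x) = 0).card ≤ B)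
    (hB' : ∀ t, (univ.filter fun x : κ => ∀ i, h' i (t, x) = 0).card ≤ B) (hT : ∀ t : T, ∃ t', t ≠ t') :
    |∑ u : Fin D → κ, ∑ t, Y I f f' h h' u t| ≤ (Fintype.card κ : ℝ) ^ D * (Fintype.card T * B ^ 2) := by
  obtain ⟨q, hq⟩ : ∃ q : ℝ, q = (Fintype.card κ : ℝ) ^ D := ⟨_, rfl⟩
  have hq0 : 0 ≤ q := by rw [hq]; positivity
  have h3 : ∀ t : T, |∑ u : Fin D → κ, Y I f f' h h' u t| ≤ q * B ^ 2 := by
    intro t
    obtain ⟨t', htt⟩ := hT t
    have h4 : ∀ x ∈ I, |∑ u, ch (vl f h u (t, x.1)) * ch (vl f' h' u (t, x.2))| ≤ q * (bb h (t, x.1) * bb h' (t, x.2)) := by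
      intro x hx
      by_cases hall : (∀ i, h i (t, x.1) = 0) ∧ (∀ i, h' i (t, x.2) = 0)
      · unfold bb
        rw [if_pos hall.1, if_pos hall.2, mul_one, mul_one, hq]
        refine sum_u_le _ fun u => ?_
        rw [abs_mul]
        exact mul_le_one₀ (ch_abs _) (abs_nonneg _) (ch_abs _)
      · rw [two h2 hs t t' htt x hx (by
          by_contra hcon
          push Not at hcon
          exact hall hcon), abs_zero]
        have := bb_nonneg h (t, x.1)
        have := bb_nonneg h' (t, x.2)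
        positivity
    unfold Y
    rw [sum_comm]
    refine (abs_sum_le_sum_abs _ _).trans ((sum_le_sum fun x hx => h4 x hx).trans ?_)
    rw [← mul_sum]
    apply mul_le_mul_of_nonneg_left _ hq0
    refine (sum_le_sum_of_subset_of_nonneg (subset_univ I) fun x _ _ => mul_nonneg (bb_nonneg _ _) (bb_nonneg _ _)).trans ?_
    rw [Fintype.sum_prod_type]
    dsimp only
    rw [← sum_mul_sum, sq]
    exact mul_le_mul (bb_sum h t B (hB t)) (bb_sum h' t B (hB' t)) (sum_nonneg fun x _ => bb_nonneg _ _) (Nat.cast_nonneg _)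
  rw [sum_comm, ← hq]
  refine (abs_sum_le_sum_abs _ _).trans ((sum_le_sum fun t _ => h3 t).trans (le_of_eq ?_))
  rw [sum_const, card_univ, nsmul_eq_mul]
  ring

end

section
variable {R κ : Type} [CommRing R] [Field κ] [Fintype κ] [DecidableEq κ] {m D : ℕ}

open Pool.Agent.N647.NG (ev vf)

/-- the polynomial of a fibre -/
lemma fib_poly (φ : R →+* κ) (F₀ : (MvPolynomial (Fin m) R)[X]) (h : Fin D → (MvPolynomial (Fin m) R)[X])
    {g : ℕ} (hF : F₀.Monic) (hd : F₀.natDegree = 2 * g + 1) (hh : ∀ i, (h i).natDegree < 2 * g + 1) (u : Fin D → κ) (t : Fin m → κ) :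
    ∃ p : κ[X], p.Monic ∧ p.natDegree = 2 * g + 1 ∧ ∀ x, vl (vf φ F₀) (fun i => vf φ (h i)) u (t, x) = p.eval x := by
  have h4 : (ev φ t F₀).Monic := hF.map _
  have h5 : (ev φ t F₀).natDegree = 2 * g + 1 := by
    unfold ev
    rw [hF.natDegree_map, hd]
  have h6 : (∑ i, C (u i) * ev φ t (h i)).natDegree ≤ 2 * g := by
    refine natDegree_sum_le_of_forall_le _ _ fun i _ => ?_
    refine (natDegree_C_mul_le _ _).trans ?_
    unfold ev
    have := hh i
    exact natDegree_map_le.trans (by omega)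
  have h7 : (∑ i, C (u i) * ev φ t (h i)).degree < (ev φ t F₀).degree := by
    rw [degree_eq_natDegree h4.ne_zero, h5]
    exact lt_of_le_of_lt degree_le_natDegree (by exact_mod_cast (by omega : (∑ i, C (u i) * ev φ t (h i)).natDegree < 2 * g + 1))
  refine ⟨ev φ t F₀ + ∑ i, C (u i) * ev φ t (h i), h4.add_of_left h7, ?_, fun x => ?_⟩
  · rw [natDegree_add_eq_left_of_degree_lt h7, h5]
  · rw [eval_add, eval_finsetSum]
    unfold vl vf
    congr 1
    exact sum_congr rfl fun i _ => by rw [eval_mul, eval_C]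

/-- the sum of the characters over a fibre -/
noncomputable def aa (φ : R →+* κ) (F₀ : (MvPolynomial (Fin m) R)[X]) (h : Fin D → (MvPolynomial (Fin m) R)[X]) (u : Fin D → κ)
    (t : Fin m → κ) : ℝ := ∑ x : κ, ch (vl (vf φ F₀) (fun i => vf φ (h i)) u (t, x))

lemma aa_weil (h2 : ringChar κ ≠ 2) (φ : R →+* κ) (F₀ : (MvPolynomial (Fin m) R)[X]) (h : Fin D → (MvPolynomial (Fin m) R)[X])
    {g : ℕ} (hF : F₀.Monic) (hd : F₀.natDegree = 2 * g + 1) (hh : ∀ i, (h i).natDegree < 2 * g + 1) (u : Fin D → κ) (t : Fin m → κ) :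
    |aa φ F₀ h u t| ≤ 2 * g * Real.sqrt (Fintype.card κ) := by
  obtain ⟨p, hp, hpd, hpe⟩ := fib_poly φ F₀ h hF hd hh u t
  unfold aa
  simp only [hpe]
  exact weil_odd h2 hp hpd

/-- the number of the zeros on a fibre -/
noncomputable def zz (φ : R →+* κ) (F₀ : (MvPolynomial (Fin m) R)[X]) (h : Fin D → (MvPolynomial (Fin m) R)[X]) (u : Fin D → κ)
    (t : Fin m → κ) : ℝ := ((univ.filter fun x : κ => vl (vf φ F₀) (fun i => vf φ (h i)) u (t, x) = 0).card : ℝ)

lemma zz_le (φ : R →+* κ) (F₀ : (MvPolynomial (Fin m) R)[X]) (h : Fin D → (MvPolynomial (Fin m) R)[X])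
    {g : ℕ} (hF : F₀.Monic) (hd : F₀.natDegree = 2 * g + 1) (hh : ∀ i, (h i).natDegree < 2 * g + 1) (u : Fin D → κ) (t : Fin m → κ) :
    zz φ F₀ h u t ≤ 2 * g + 1 := by
  obtain ⟨p, hp, hpd, hpe⟩ := fib_poly φ F₀ h hF hd hh u t
  unfold zz
  simp only [hpe]
  have h1 : (univ.filter fun x : κ => p.eval x = 0) ⊆ p.roots.toFinset := by
    intro x hx
    rw [mem_filter] at hx
    rw [Multiset.mem_toFinset, mem_roots hp.ne_zero]
    exact hx.2
  have h3 : (univ.filter fun x : κ => p.eval x = 0).card ≤ 2 * g + 1 := by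
    rw [← hpd]
    exact (card_le_card h1).trans ((Multiset.toFinset_card_le _).trans (card_roots' p))
  exact_mod_cast h3

/-- the set of the pairs with different entries -/
noncomputable def Idiff (κ : Type) [Fintype κ] [DecidableEq κ] : Finset (κ × κ) := univ.filter fun x => x.1 ≠ x.2

lemma aa_sq (h2 : ringChar κ ≠ 2) (φ : R →+* κ) (F₀ : (MvPolynomial (Fin m) R)[X]) (h : Fin D → (MvPolynomial (Fin m) R)[X]) (u : Fin D → κ)
    (t : Fin m → κ) : aa φ F₀ h u t * aa φ F₀ h u t - Fintype.card κ =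
      Y (Idiff κ) (vf φ F₀) (vf φ F₀) (fun i => vf φ (h i)) (fun i => vf φ (h i)) u t - zz φ F₀ h u t := by
  obtain ⟨F, hF⟩ : ∃ F : κ → ℝ, F = fun x => ch (vl (vf φ F₀) (fun i => vf φ (h i)) u (t, x)) := ⟨_, rfl⟩
  have h1 : aa φ F₀ h u t * aa φ F₀ h u t = ∑ x : κ × κ, F x.1 * F x.2 := by
    rw [Fintype.sum_prod_type, ← sum_mul_sum, hF]
    rfl
  have h3 : ∑ x : κ × κ, F x.1 * F x.2 = Y (Idiff κ) (vf φ F₀) (vf φ F₀) (fun i => vf φ (h i)) (fun i => vf φ (h i)) u t +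
      ∑ x ∈ univ.filter (fun x : κ × κ => ¬ x.1 ≠ x.2), F x.1 * F x.2 := by
    rw [← sum_filter_add_sum_filter_not univ (fun x : κ × κ => x.1 ≠ x.2)]
    congr 1
    rw [hF]
    rfl
  have h4 : ∑ x ∈ univ.filter (fun x : κ × κ => ¬ x.1 ≠ x.2), F x.1 * F x.2 = ∑ x : κ, F x * F x := by
    refine sum_bij' (fun x _ => x.1) (fun x _ => (x, x)) (fun x _ => mem_univ _) (fun x _ => ?_) (fun x hx => ?_) (fun x _ => rfl) (fun x hx => ?_)
    · rw [mem_filter]
      exact ⟨mem_univ _, by simp⟩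
    · rw [mem_filter, not_not] at hx
      exact Prod.ext rfl hx.2
    · rw [mem_filter, not_not] at hx
      rw [hx.2]
  have h5 : ∑ x : κ, F x * F x = Fintype.card κ - zz φ F₀ h u t := by
    have h6 : ∀ x : κ, F x * F x = 1 - (if vl (vf φ F₀) (fun i => vf φ (h i)) u (t, x) = 0 then (1 : ℝ) else 0) := by
      intro x
      rw [hF]
      beta_reduce
      unfold ch
      split_ifs with h7
      · rw [h7]
        simp
      · rcases quadraticChar_dichotomy h7 with h8 | h8 <;> rw [h8] <;> simp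
    simp only [h6]
    rw [sum_sub_distrib, sum_const, card_univ, nsmul_eq_mul, mul_one, sum_boole]
    rfl
  rw [h1, h3, h4, h5]
  ring

lemma aa_mul (φ : R →+* κ) (F₀ F₁ : (MvPolynomial (Fin m) R)[X]) (h h' : Fin D → (MvPolynomial (Fin m) R)[X]) (u : Fin D → κ)
    (t : Fin m → κ) : aa φ F₀ h u t * aa φ F₁ h' u t =
      Y univ (vf φ F₀) (vf φ F₁) (fun i => vf φ (h i)) (fun i => vf φ (h' i)) u t := by
  unfold aa Y
  rw [Fintype.sum_prod_type, sum_mul_sum]

/-- the local function of a pair of curves, `e` if they are the same curve -/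
noncomputable def PP (e : Prop) [Decidable e] (φ : R →+* κ) (F₀ F₁ : (MvPolynomial (Fin m) R)[X]) (h h' : Fin D → (MvPolynomial (Fin m) R)[X])
    (u : Fin D → κ) : ℝ :=
  ((∑ t : Fin m → κ, aa φ F₀ h u t * aa φ F₁ h' u t) / (Fintype.card κ : ℝ) ^ m - (if e then (Fintype.card κ : ℝ) else 0)) /
    Real.sqrt (Fintype.card κ)

end

end Pool.Agent.T3h87.RP
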