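import Pool.Agent.T3h87.RP.Loc

/-!
# The bounds for the local functions of pairs of curves
-/

set_option autoImplicit false

namespace Pool.Agent.T3h87.RP

open Finset Polynomial
open Pool.Agent.N647.NG (ch vl ch_abs ev vf)

variable {R κ : Type} [CommRing R] [Field κ] [Fintype κ] [DecidableEq κ] {m D : ℕ}

/-- the correction -/
noncomputable def ZZ (e : Prop) [Decidable e] (φ : R →+* κ) (F₀ : (MvPolynomial (Fin m) R)[X]) (h : Fin D → (MvPolynomial (Fin m) R)[X])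
    (u : Fin D → κ) : ℝ := if e then ∑ t : Fin m → κ, zz φ F₀ h u t else 0

lemma PP_eq (h2 : ringChar κ ≠ 2) (e : Prop) [Decidable e] (φ : R →+* κ) (F₀ F₁ : (MvPolynomial (Fin m) R)[X])
    (h h' : Fin D → (MvPolynomial (Fin m) R)[X]) (he : e → F₀ = F₁ ∧ h = h') (u : Fin D → κ) :
    PP e φ F₀ F₁ h h' u = (∑ t : Fin m → κ, Y (if e then Idiff κ else univ) (vf φ F₀) (vf φ F₁) (fun i => vf φ (h i)) (fun i => vf φ (h' i)) u t -
      ZZ e φ F₀ h u) / ((Fintype.card κ : ℝ) ^ m * Real.sqrt (Fintype.card κ)) := by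
  have hq : (0 : ℝ) < Fintype.card κ := by exact_mod_cast Fintype.card_pos
  have hs : 0 < Real.sqrt (Fintype.card κ) := Real.sqrt_pos.2 hq
  unfold PP ZZ
  by_cases h1 : e
  · simp only [if_pos h1]
    obtain ⟨rfl, rfl⟩ := he h1
    have h3 : ∑ t : Fin m → κ, aa φ F₀ h u t * aa φ F₀ h u t = ∑ t : Fin m → κ, ((Fintype.card κ : ℝ) +
        (Y (Idiff κ) (vf φ F₀) (vf φ F₀) (fun i => vf φ (h i)) (fun i => vf φ (h i)) u t - zz φ F₀ h u t)) := by
      refine sum_congr rfl fun t _ => ?_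
      rw [← aa_sq h2]
      ring
    rw [h3, sum_add_distrib, sum_sub_distrib, sum_const, card_univ, Fintype.card_fun, Fintype.card_fin, nsmul_eq_mul]
    push_cast
    field_simp
    ring
  · simp only [if_neg h1, sub_zero, aa_mul]
    rw [div_div]

lemma card_T : (Fintype.card (Fin m → κ) : ℝ) = (Fintype.card κ : ℝ) ^ m := by
  rw [Fintype.card_fun, Fintype.card_fin]
  push_cast
  rfl

theorem PP_loc (hm : 1 ≤ m) (h2 : ringChar κ ≠ 2) (e : Prop) [Decidable e] (φ : R →+* κ) (F₀ F₁ : (MvPolynomial (Fin m) R)[X])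
    (h h' : Fin D → (MvPolynomial (Fin m) R)[X]) (he : e → F₀ = F₁ ∧ h = h')
    {g g' : ℕ} (hF : F₀.Monic) (hd : F₀.natDegree = 2 * g + 1) (hh : ∀ i, (h i).natDegree < 2 * g + 1)
    (hF' : F₁.Monic) (hd' : F₁.natDegree = 2 * g' + 1) (hh' : ∀ i, (h' i).natDegree < 2 * g' + 1) (B : ℕ)
    (hB : ∀ t : Fin m → κ, (univ.filter fun x : κ => ∀ i, vf φ (h i) (t, x) = 0).card ≤ B)
    (hB' : ∀ t : Fin m → κ, (univ.filter fun x : κ => ∀ i, vf φ (h' i) (t, x) = 0).card ≤ B)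
    (hs : Sep4 (T := Fin m → κ) (if e then Idiff κ else univ) (fun i => vf φ (h i)) (fun i => vf φ (h' i))) (C : ℝ)
    (hC : C = 2 * (4 * g * g' + 2 * g + 2) ^ 2 + 2 * B ^ 4 + 2 * (2 * g + 1) ^ 2 + B ^ 2 + (2 * g + 1) + (4 * g * g' + 1)) :
    (∀ u, |PP e φ F₀ F₁ h h' u| ≤ C * Real.sqrt (Fintype.card κ)) ∧
    (∑ u : Fin D → κ, PP e φ F₀ F₁ h h' u ^ 2) / (Fintype.card κ : ℝ) ^ D ≤ C ∧
    |(∑ u : Fin D → κ, PP e φ F₀ F₁ h h' u) / (Fintype.card κ : ℝ) ^ D| ≤ C / Real.sqrt (Fintype.card κ) := by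
  classical
  obtain ⟨q, hq⟩ : ∃ q : ℝ, q = Fintype.card κ := ⟨_, rfl⟩
  have hq1 : 1 ≤ q := by
    rw [hq]
    exact_mod_cast Fintype.card_pos
  have hq0 : 0 < q := by linarith
  obtain ⟨s, hsq⟩ : ∃ s : ℝ, s = Real.sqrt q := ⟨_, rfl⟩
  have hs1 : 1 ≤ s := by rw [hsq, Real.one_le_sqrt]; exact hq1
  have hs0 : 0 < s := by linarith
  have hss : s * s = q := by rw [hsq]; exact Real.mul_self_sqrt hq0.le
  obtain ⟨Q, hQ⟩ : ∃ Q : ℝ, Q = q ^ m := ⟨_, rfl⟩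
  have hQq : q ≤ Q := by rw [hQ]; exact le_self_pow₀ hq1 (by omega)
  have hQ0 : 0 < Q := by linarith
  obtain ⟨U, hU⟩ : ∃ U : ℝ, U = q ^ D := ⟨_, rfl⟩
  have hU0 : 0 < U := by rw [hU]; positivity
  have hg0 : (0 : ℝ) ≤ g := Nat.cast_nonneg _
  have hg0' : (0 : ℝ) ≤ g' := Nat.cast_nonneg _
  have hB0 : (0 : ℝ) ≤ B := Nat.cast_nonneg _
  have hcT : (Fintype.card (Fin m → κ) : ℝ) = Q := by rw [card_T, hQ, hq]
  obtain ⟨I, hI⟩ : ∃ I : Finset (κ × κ), I = if e then Idiff κ else univ := ⟨_, rfl⟩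
  obtain ⟨YY, hYY⟩ : ∃ YY : (Fin D → κ) → (Fin m → κ) → ℝ, YY = Y I (vf φ F₀) (vf φ F₁) (fun i => vf φ (h i)) (fun i => vf φ (h' i)) := ⟨_, rfl⟩
  obtain ⟨Z, hZ⟩ : ∃ Z : (Fin D → κ) → ℝ, Z = ZZ e φ F₀ h := ⟨_, rfl⟩
  have hPP : ∀ u, PP e φ F₀ F₁ h h' u = (∑ t, YY u t - Z u) / (Q * s) := by
    intro u
    rw [PP_eq h2 e φ F₀ F₁ h h' he u, hYY, hZ, hI, hQ, hsq, hq]
  -- the products
  have hpr : ∀ u t, |aa φ F₀ h u t * aa φ F₁ h' u t| ≤ 4 * g * g' * q := by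
    intro u t
    have e1 := aa_weil h2 φ F₀ h hF hd hh u t
    have e2 := aa_weil h2 φ F₁ h' hF' hd' hh' u t
    rw [← hq, ← hsq] at e1 e2
    rw [abs_mul]
    calc _ ≤ (2 * g * s) * (2 * g' * s) := mul_le_mul e1 e2 (abs_nonneg _) (by positivity)
      _ = 4 * g * g' * (s * s) := by ring
      _ = _ := by rw [hss]
  have hz0 : ∀ u t, 0 ≤ zz φ F₀ h u t := fun u t => Nat.cast_nonneg _
  have hz1 : ∀ u t, zz φ F₀ h u t ≤ 2 * g + 1 := fun u t => zz_le φ F₀ h hF hd hh u t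
  have hG : ∀ u t, |YY u t| ≤ (4 * g * g' + 2 * g + 2) * Fintype.card κ := by
    intro u t
    rw [← hq, hYY, hI]
    by_cases h1 : e
    · rw [if_pos h1]
      obtain ⟨rfl, rfl⟩ := he h1
      have h3 := aa_sq h2 φ F₀ h u t
      have h4 : Y (Idiff κ) (vf φ F₀) (vf φ F₀) (fun i => vf φ (h i)) (fun i => vf φ (h i)) u t = aa φ F₀ h u t * aa φ F₀ h u t - q + zz φ F₀ h u t := by
        rw [hq]
        linarith
      rw [h4]
      have h5 := hpr u t
      have h6 := hz0 u t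
      have h7 := hz1 u t
      rw [abs_le] at h5 ⊢
      constructor <;> nlinarith
    · rw [if_neg h1, ← aa_mul]
      refine (hpr u t).trans ?_
      apply mul_le_mul_of_nonneg_right _ hq0.le
      linarith
  have hZ0 : ∀ u, 0 ≤ Z u ∧ Z u ≤ Q * (2 * g + 1) := by
    intro u
    rw [hZ]
    unfold ZZ
    split_ifs with h1
    · refine ⟨sum_nonneg fun t _ => hz0 u t, (sum_le_sum fun t _ => hz1 u t).trans (le_of_eq ?_)⟩
      rw [sum_const, card_univ, nsmul_eq_mul, hcT]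
    · exact ⟨le_rfl, by positivity⟩
  have hsec := Y_second h2 hs B hB hB' (4 * g * g' + 2 * g + 2) (f := vf φ F₀) (f' := vf φ F₁) (fun u t => by
    have := hG u t
    rw [hYY, hI] at this
    exact this)
  have hfst := Y_first h2 hs B hB hB' (f := vf φ F₀) (f' := vf φ F₁) (fun t => by
    obtain ⟨i⟩ : Nonempty (Fin m) := ⟨⟨0, by omega⟩⟩
    refine ⟨Function.update t i (t i + 1), fun h3 => ?_⟩
    have h4 := congrFun h3 i
    rw [Function.update_self] at h4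
    exact one_ne_zero (left_eq_add.1 h4))
  rw [← hI] at hsec hfst
  rw [← hYY, ← hq, hcT, ← hU] at hsec hfst
  rw [← hq]
  obtain ⟨G, hGd⟩ : ∃ G : ℝ, G = 4 * g * g' + 2 * g + 2 := ⟨_, rfl⟩
  rw [← hGd] at hsec hC
  have hG0 : 0 ≤ G := by rw [hGd]; positivity
  have hgg : 0 ≤ (g : ℝ) * g' := mul_nonneg hg0 hg0'
  have hb4 : 0 ≤ (B : ℝ) ^ 4 := by positivity
  have hb2 : 0 ≤ (B : ℝ) ^ 2 := by positivity
  have hgsq : 0 ≤ (2 * (g : ℝ) + 1) ^ 2 := sq_nonneg _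
  have hGsq : 0 ≤ G ^ 2 := sq_nonneg _
  refine ⟨fun u => ?_, ?_, ?_⟩
  · unfold PP
    rw [← hq, ← hsq, abs_div, abs_of_pos hs0, div_le_iff₀ hs0, ← hQ]
    have h3 : |(∑ t : Fin m → κ, aa φ F₀ h u t * aa φ F₁ h' u t) / Q| ≤ 4 * g * g' * q := by
      rw [abs_div, abs_of_pos hQ0, div_le_iff₀ hQ0]
      refine (abs_sum_le_sum_abs _ _).trans ((sum_le_sum fun t _ => hpr u t).trans (le_of_eq ?_))
      rw [sum_const, card_univ, nsmul_eq_mul, hcT]
      ring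
    have h4 : |(if e then q else 0)| ≤ q := by
      split_ifs
      · rw [abs_of_pos hq0]
      · rw [abs_zero]
        exact hq0.le
    have h5 : C * s * s = C * q := by rw [mul_assoc, hss]
    rw [h5]
    refine (abs_sub _ _).trans ((add_le_add h3 h4).trans ?_)
    have h6 : 4 * g * g' * q + q = (4 * g * g' + 1) * q := by ring
    rw [h6]
    apply mul_le_mul_of_nonneg_right _ hq0.le
    rw [hC]
    nlinarith
  · rw [← hU, div_le_iff₀ hU0]
    have h3 : ∀ u, PP e φ F₀ F₁ h h' u ^ 2 ≤ 2 / (Q * Q * q) * (∑ t, YY u t) ^ 2 + 2 * (2 * g + 1) ^ 2 := by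
      intro u
      rw [hPP u]
      obtain ⟨A, hA⟩ : ∃ A, A = ∑ t, YY u t := ⟨_, rfl⟩
      rw [← hA]
      obtain ⟨z0, z1⟩ := hZ0 u
      have e1 : ((A - Z u) / (Q * s)) ^ 2 = (A - Z u) ^ 2 / (Q * Q * q) := by
        rw [div_pow, mul_pow, ← hss]
        ring
      rw [e1]
      have e2 : (A - Z u) ^ 2 ≤ 2 * A ^ 2 + 2 * (Z u) ^ 2 := by nlinarith [sq_nonneg (A + Z u)]
      have e3 : (Z u) ^ 2 ≤ (Q * (2 * g + 1)) ^ 2 := pow_le_pow_left₀ z0 z1 2
      have hden : 0 < Q * Q * q := by positivity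
      rw [div_le_iff₀ hden]
      have e4 : (2 / (Q * Q * q) * A ^ 2 + 2 * (2 * g + 1) ^ 2) * (Q * Q * q) = 2 * A ^ 2 + 2 * ((2 * g + 1) ^ 2 * (Q * Q) * q) := by
        field_simp
      rw [e4]
      have e5 : (Q * (2 * g + 1)) ^ 2 ≤ (2 * g + 1) ^ 2 * (Q * Q) * q := by
        have e6 : (Q * (2 * (g : ℝ) + 1)) ^ 2 = (2 * g + 1) ^ 2 * (Q * Q) := by ring
        rw [e6]
        exact le_mul_of_one_le_right (by positivity) hq1
      linarith
    refine (sum_le_sum fun u _ => h3 u).trans ?_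
    rw [sum_add_distrib, ← mul_sum, sum_const, card_univ, Fintype.card_fun, Fintype.card_fin, nsmul_eq_mul]
    push_cast
    rw [← hq, ← hU]
    have h4 : 2 / (Q * Q * q) * ∑ u : Fin D → κ, (∑ t, YY u t) ^ 2 ≤ U * (2 * G ^ 2 + 2 * B ^ 4) := by
      have hden : 0 < Q * Q * q := by positivity
      rw [div_mul_eq_mul_div, div_le_iff₀ hden]
      have e1 : Q * (G * q) ^ 2 ≤ G ^ 2 * (Q * Q * q) := by
        have : Q * (G * q) ^ 2 = G ^ 2 * (Q * q * q) := by ring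
        rw [this]
        apply mul_le_mul_of_nonneg_left _ hGsq
        apply mul_le_mul_of_nonneg_right _ hq0.le
        exact mul_le_mul_of_nonneg_left hQq hQ0.le
      have e2 : Q ^ 2 * (B : ℝ) ^ 4 ≤ B ^ 4 * (Q * Q * q) := by
        have : Q ^ 2 * (B : ℝ) ^ 4 = B ^ 4 * (Q * Q) := by ring
        rw [this]
        apply mul_le_mul_of_nonneg_left _ hb4
        exact le_mul_of_one_le_right (by positivity) hq1
      calc 2 * ∑ u : Fin D → κ, (∑ t, YY u t) ^ 2 ≤ 2 * (U * (Q * (G * q) ^ 2 + Q ^ 2 * B ^ 4)) := by linarith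
        _ ≤ 2 * (U * (G ^ 2 * (Q * Q * q) + B ^ 4 * (Q * Q * q))) := by
            apply mul_le_mul_of_nonneg_left _ (by norm_num)
            apply mul_le_mul_of_nonneg_left _ hU0.le
            linarith
        _ = U * (2 * G ^ 2 + 2 * B ^ 4) * (Q * Q * q) := by ring
    have h5 : (2 * G ^ 2 + 2 * B ^ 4) + 2 * (2 * g + 1) ^ 2 ≤ C := by
      rw [hC]
      nlinarith
    calc 2 / (Q * Q * q) * ∑ u : Fin D → κ, (∑ t, YY u t) ^ 2 + U * (2 * (2 * g + 1) ^ 2) ≤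
        U * (2 * G ^ 2 + 2 * B ^ 4) + U * (2 * (2 * g + 1) ^ 2) := by linarith
      _ = U * ((2 * G ^ 2 + 2 * B ^ 4) + 2 * (2 * g + 1) ^ 2) := by ring
      _ ≤ U * C := mul_le_mul_of_nonneg_left h5 hU0.le
      _ = C * U := mul_comm _ _
  · rw [← hU, ← hsq, abs_div, abs_of_pos hU0, div_le_div_iff₀ hU0 hs0]
    have h3 : ∑ u : Fin D → κ, PP e φ F₀ F₁ h h' u = (∑ u, ∑ t, YY u t - ∑ u, Z u) / (Q * s) := by
      rw [← sum_sub_distrib, sum_div]
      exact sum_congr rfl fun u _ => hPP u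
    have h4 : |∑ u, Z u| ≤ U * (Q * (2 * g + 1)) := by
      rw [abs_of_nonneg (sum_nonneg fun u _ => (hZ0 u).1)]
      refine (sum_le_sum fun u _ => (hZ0 u).2).trans (le_of_eq ?_)
      rw [sum_const, card_univ, Fintype.card_fun, Fintype.card_fin, nsmul_eq_mul]
      push_cast
      rw [← hq, ← hU]
    have h5 : |∑ u, ∑ t, YY u t - ∑ u, Z u| ≤ U * Q * (B ^ 2 + (2 * g + 1)) := by
      refine (abs_sub _ _).trans ((add_le_add hfst h4).trans (le_of_eq (by ring)))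
    rw [h3, abs_div, abs_of_pos (by positivity : 0 < Q * s), div_mul_eq_mul_div, div_le_iff₀ (by positivity)]
    calc |∑ u, ∑ t, YY u t - ∑ u, Z u| * s ≤ U * Q * (B ^ 2 + (2 * g + 1)) * s := mul_le_mul_of_nonneg_right h5 hs0.le
      _ ≤ U * Q * C * s := by
          apply mul_le_mul_of_nonneg_right _ hs0.le
          apply mul_le_mul_of_nonneg_left _ (by positivity)
          rw [hC]
          nlinarith
      _ = C * U * (Q * s) := by ring

end Pool.Agent.T3h87.RP
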