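import Pool.Agent.T3h87.RP.GenB
import Pool.Agent.T3h87.RP.Loc2

/-!
# Products of members of linear systems of fibrations in hyperelliptic curves, over number fields
-/

set_option autoImplicit false

namespace Pool.Agent.T3h87.RP

open Finset Polynomial NumberField IsDedekindDomain Filter
open Pool.Agent.N842.HS (VT mem_VT cf norm_card)
open Pool.Agent.N647.TS
open Pool.Agent.N647.NG

section defs
variable {R κ : Type} [CommRing R] [CommRing κ] {m D : ℕ}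

/-- the trace on `H¹` of the fibre over `t` -/
noncomputable def t1 (φ : R →+* κ) (F : (MvPolynomial (Fin m) R)[X]) (t : Fin m → κ) : ℝ :=
  (Nat.card κ : ℝ) - Nat.card {P : κ × κ // P.2 ^ 2 = (ev φ t F).eval P.1}

/-- the same, as a function of the coefficients -/
noncomputable def t1u (φ : R →+* κ) (F₀ : (MvPolynomial (Fin m) R)[X]) (h : Fin D → (MvPolynomial (Fin m) R)[X]) (u : Fin D → κ)
    (t : Fin m → κ) : ℝ :=
  (Nat.card κ : ℝ) - Nat.card {P : κ × κ // P.2 ^ 2 = vf φ F₀ (t, P.1) + ∑ i, u i * vf φ (h i) (t, P.1)}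

lemma t1_mem (φ : R →+* κ) (F₀ : (MvPolynomial (Fin m) R)[X]) (h : Fin D → (MvPolynomial (Fin m) R)[X]) (c : Fin D → R) (t : Fin m → κ) :
    t1 φ (mem F₀ h c) t = t1u φ F₀ h (fun i => φ (c i)) t := by
  unfold t1 t1u
  have h1 : ∀ P : κ × κ, (ev φ t (mem F₀ h c)).eval P.1 = vf φ F₀ (t, P.1) + ∑ i, φ (c i) * vf φ (h i) (t, P.1) :=
    fun P => vf_mem φ F₀ h c (t, P.1)
  simp only [h1]

/-- the pairs `i < j` -/
def pairs (n : ℕ) : Finset (Fin n × Fin n) := univ.filter fun p => p.1 < p.2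

/-- the average of the traces on `H²` of the product of the curves -/
noncomputable def BBn {n : ℕ} (φ : R →+* κ) (F : Fin n → (MvPolynomial (Fin m) R)[X]) : ℝ :=
  (∑ᶠ t : Fin m → κ, ((n : ℝ) * Nat.card κ + ∑ p ∈ pairs n, t1 φ (F p.1) t * t1 φ (F p.2) t)) / (Nat.card κ : ℝ) ^ m

end defs

section
variable {R κ : Type} [CommRing R] [Field κ] [Fintype κ] [DecidableEq κ] {m D : ℕ}

lemma card_two (h2 : ringChar κ ≠ 2) (G : κ → κ) : (Nat.card {P : κ × κ // P.2 ^ 2 = G P.1} : ℝ) = (Fintype.card κ : ℝ) + ∑ x, ch (G x) := by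
  have e : {P : κ × κ // P.2 ^ 2 = G P.1} ≃ (Σ x : κ, {y : κ // y ^ 2 = G x}) :=
    { toFun := fun P => ⟨P.1.1, ⟨P.1.2, P.2⟩⟩
      invFun := fun Q => ⟨(Q.1, Q.2.1), Q.2.2⟩
      left_inv := fun _ => rfl
      right_inv := fun _ => rfl }
  rw [Nat.card_congr e, Nat.card_sigma]
  push_cast
  simp only [card_sqrt h2]
  rw [sum_add_distrib, sum_const, card_univ, nsmul_eq_mul, mul_one]

lemma t1u_eq (h2 : ringChar κ ≠ 2) (φ : R →+* κ) (F₀ : (MvPolynomial (Fin m) R)[X]) (h : Fin D → (MvPolynomial (Fin m) R)[X]) (u : Fin D → κ)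
    (t : Fin m → κ) : t1u φ F₀ h u t = -aa φ F₀ h u t := by
  unfold t1u aa
  have h1 := card_two h2 (fun x => vl (vf φ F₀) (fun i => vf φ (h i)) u (t, x))
  have h3 : (Nat.card {P : κ × κ // P.2 ^ 2 = vf φ F₀ (t, P.1) + ∑ i, u i * vf φ (h i) (t, P.1)} : ℝ) =
      (Fintype.card κ : ℝ) + ∑ x, ch (vl (vf φ F₀) (fun i => vf φ (h i)) u (t, x)) := h1
  rw [h3, Nat.card_eq_fintype_card]
  ring

end

section
variable {K : Type} [Field K] [NumberField K] {m D : ℕ}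

/-- separation of four points -/
def SepV4 (v : HeightOneSpectrum (𝓞 K)) (e : Prop) (h h' : Fin D → (MvPolynomial (Fin m) (𝓞 K))[X]) : Prop :=
  ∀ t t' : Fin m → 𝓞 K ⧸ v.asIdeal, t ≠ t' → ∀ x y x' y' : 𝓞 K ⧸ v.asIdeal, (e → x ≠ y ∧ x' ≠ y') →
    (∃ i, vf (mkv v) (h i) (t, x) ≠ 0) → ∃ c : Fin D → 𝓞 K ⧸ v.asIdeal,
      ∑ i, c i * vf (mkv v) (h i) (t, x) ≠ 0 ∧ ∑ i, c i * vf (mkv v) (h' i) (t, y) = 0 ∧
      ∑ i, c i * vf (mkv v) (h i) (t', x') = 0 ∧ ∑ i, c i * vf (mkv v) (h' i) (t', y') = 0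

/-- few base points on every fibre -/
def FewV (v : HeightOneSpectrum (𝓞 K)) (B : ℕ) (h : Fin D → (MvPolynomial (Fin m) (𝓞 K))[X]) : Prop :=
  ∀ t : Fin m → 𝓞 K ⧸ v.asIdeal, Nat.card {x : 𝓞 K ⧸ v.asIdeal // ∀ i, vf (mkv v) (h i) (t, x) = 0} ≤ B

/-- the local function of a pair of curves -/
noncomputable def PF (v : HeightOneSpectrum (𝓞 K)) (e : Prop) [Decidable e] (F₀ F₁ : (MvPolynomial (Fin m) (𝓞 K))[X])
    (h h' : Fin D → (MvPolynomial (Fin m) (𝓞 K))[X]) (u : Fin D → 𝓞 K ⧸ v.asIdeal) : ℝ :=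
  ((∑ᶠ t : Fin m → 𝓞 K ⧸ v.asIdeal, t1u (mkv v) F₀ h u t * t1u (mkv v) F₁ h' u t) / (Ideal.absNorm v.asIdeal : ℝ) ^ m -
    (if e then (Ideal.absNorm v.asIdeal : ℝ) else 0)) / Real.sqrt (Ideal.absNorm v.asIdeal)

theorem Bd_PF (hm : 1 ≤ m) (e : Prop) [Decidable e] (F₀ F₁ : (MvPolynomial (Fin m) (𝓞 K))[X])
    (h h' : Fin D → (MvPolynomial (Fin m) (𝓞 K))[X]) (he : e → F₀ = F₁ ∧ h = h')
    {g g' : ℕ} (hF : F₀.Monic) (hd : F₀.natDegree = 2 * g + 1) (hh : ∀ i, (h i).natDegree < 2 * g + 1)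
    (hF' : F₁.Monic) (hd' : F₁.natDegree = 2 * g' + 1) (hh' : ∀ i, (h' i).natDegree < 2 * g' + 1) (B : ℕ)
    (v : HeightOneSpectrum (𝓞 K)) (hv2 : (2 : 𝓞 K) ∉ v.asIdeal) (hB : FewV v B h) (hB' : FewV v B h')
    (hs : SepV4 v e h h') (hs' : SepV4 v e h' h) (C : ℝ)
    (hC : C = 2 * (4 * g * g' + 2 * g + 2) ^ 2 + 2 * B ^ 4 + 2 * (2 * g + 1) ^ 2 + B ^ 2 + (2 * g + 1) + (4 * g * g' + 1)) :
    Bd C 0 v (PF v e F₀ F₁ h h') := by
  classical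
  have hmax : v.asIdeal.IsMaximal := v.isMaximal
  let fld : Field (𝓞 K ⧸ v.asIdeal) := Ideal.Quotient.field v.asIdeal
  have hfin := quot_finite v
  let ft : Fintype (𝓞 K ⧸ v.asIdeal) := Fintype.ofFinite _
  have h2 : ringChar (𝓞 K ⧸ v.asIdeal) ≠ 2 := by
    intro h3
    have h4 : ((ringChar (𝓞 K ⧸ v.asIdeal) : ℕ) : 𝓞 K ⧸ v.asIdeal) = 0 := CharP.cast_eq_zero _ _
    rw [h3] at h4
    apply hv2
    rw [← Ideal.Quotient.eq_zero_iff_mem, map_ofNat]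
    exact_mod_cast h4
  have hq : (Ideal.absNorm v.asIdeal : ℝ) = Fintype.card (𝓞 K ⧸ v.asIdeal) := by
    rw [norm_card, Nat.card_eq_fintype_card]
  have hfew : ∀ h : Fin D → (MvPolynomial (Fin m) (𝓞 K))[X], FewV v B h → ∀ t : Fin m → 𝓞 K ⧸ v.asIdeal,
      (univ.filter fun x : 𝓞 K ⧸ v.asIdeal => ∀ i, vf (mkv v) (h i) (t, x) = 0).card ≤ B := by
    intro h hB t
    have h3 := hB t
    rwa [Nat.card_eq_fintype_card, Fintype.card_subtype] at h3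
  have hI : ∀ x : (𝓞 K ⧸ v.asIdeal) × (𝓞 K ⧸ v.asIdeal), x ∈ (if e then Idiff (𝓞 K ⧸ v.asIdeal) else univ) → (e → x.1 ≠ x.2) := by
    intro x hx he1
    rw [if_pos he1] at hx
    unfold Idiff at hx
    rw [mem_filter] at hx
    exact hx.2
  have hsep : Sep4 (T := Fin m → 𝓞 K ⧸ v.asIdeal) (if e then Idiff (𝓞 K ⧸ v.asIdeal) else univ) (fun i => vf (mkv v) (h i)) (fun i => vf (mkv v) (h' i)) := by
    constructor
    · intro t t' htt x hx y hy hne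
      exact hs t t' htt x.1 x.2 y.1 y.2 (fun he1 => ⟨hI x hx he1, hI y hy he1⟩) hne
    · intro t t' htt x hx y hy hne
      obtain ⟨c, c1, c2, c3, c4⟩ := hs' t t' htt x.2 x.1 y.2 y.1 (fun he1 => ⟨(hI x hx he1).symm, (hI y hy he1).symm⟩) hne
      exact ⟨c, c1, c2, c4, c3⟩
  obtain ⟨h3, h4, h5⟩ := PP_loc hm h2 e (mkv v) F₀ F₁ h h' he hF hd hh hF' hd' hh' B (hfew h hB) (hfew h' hB') hsep C hC
  have hPP : ∀ u, PF v e F₀ F₁ h h' u = PP e (mkv v) F₀ F₁ h h' u := by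
    intro u
    unfold PF PP
    rw [finsum_eq_sum_of_fintype, hq]
    congr 3
    refine sum_congr rfl fun t _ => ?_
    rw [t1u_eq h2, t1u_eq h2]
    ring
  refine ⟨fun u => ?_, ?_, ?_⟩
  · rw [hPP u, hq]
    exact h3 u
  · unfold av
    rw [finsum_eq_sum_of_fintype]
    simp only [hPP]
    rw [hq]
    exact h4
  · unfold av
    rw [finsum_eq_sum_of_fintype, sub_zero]
    simp only [hPP]
    rw [hq]
    exact h5

/-- the average minus the expected main term -/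
theorem BBn_eq {n r : ℕ} (v : HeightOneSpectrum (𝓞 K)) (F₀ : Fin r → (MvPolynomial (Fin m) (𝓞 K))[X])
    (h : Fin r → Fin D → (MvPolynomial (Fin m) (𝓞 K))[X]) (e : Fin n → Fin r) {g : ℕ} (ω : Fin g → 𝓞 K) (k : Fin (D * g) → ℕ) :
    BBn (mkv v) (fun i => mem (F₀ (e i)) (h (e i)) (cf ω k)) -
      ((n : ℝ) + ((pairs n).filter fun p => e p.1 = e p.2).card) * Ideal.absNorm v.asIdeal =
    Real.sqrt (Ideal.absNorm v.asIdeal) * ∑ p ∈ pairs n, PF v (e p.1 = e p.2) (F₀ (e p.1)) (F₀ (e p.2)) (h (e p.1)) (h (e p.2)) (rd ω v k) := by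
  classical
  have hfin := quot_finite v
  let ft : Fintype (𝓞 K ⧸ v.asIdeal) := Fintype.ofFinite _
  have hq : (Nat.card (𝓞 K ⧸ v.asIdeal) : ℝ) = Ideal.absNorm v.asIdeal := by
    rw [norm_card]
  have hq1 := q_one v
  have hs1 := sq_one v
  obtain ⟨q, hqd⟩ : ∃ q : ℝ, q = Ideal.absNorm v.asIdeal := ⟨_, rfl⟩
  have hcT : (Fintype.card (Fin m → 𝓞 K ⧸ v.asIdeal) : ℝ) = q ^ m := by
    rw [Fintype.card_fun, Fintype.card_fin, hqd, ← hq, Nat.card_eq_fintype_card]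
    push_cast
    rfl
  have h1 : ∀ p : Fin n × Fin n, Real.sqrt q * PF v (e p.1 = e p.2) (F₀ (e p.1)) (F₀ (e p.2)) (h (e p.1)) (h (e p.2)) (rd ω v k) =
      (∑ t : Fin m → 𝓞 K ⧸ v.asIdeal, t1 (mkv v) (mem (F₀ (e p.1)) (h (e p.1)) (cf ω k)) t * t1 (mkv v) (mem (F₀ (e p.2)) (h (e p.2)) (cf ω k)) t) / q ^ m -
        (if e p.1 = e p.2 then q else 0) := by
    intro p
    unfold PF
    rw [← hqd, mul_div_cancel₀ _ (by rw [hqd]; linarith), finsum_eq_sum_of_fintype]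
    congr 2
    refine sum_congr rfl fun t _ => ?_
    rw [t1_mem, t1_mem]
    rfl
  unfold BBn
  rw [finsum_eq_sum_of_fintype, hq, ← hqd, mul_sum]
  simp only [h1]
  rw [sum_sub_distrib, sum_add_distrib, sum_const, card_univ, nsmul_eq_mul, hcT, sum_comm, add_div, ← sum_div, ← sum_filter, sum_const, nsmul_eq_mul]
  have hqm : q ^ m ≠ 0 := by
    have : 0 < q := by rw [hqd]; linarith
    positivity
  rw [mul_div_cancel_left₀ _ hqm]
  ring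

open Classical in
/-- **Products of members of linear systems of fibrations at the integer parts of generalised polynomials.** -/
theorem prodT (hm : 1 ≤ m) {n r : ℕ} (F₀ : Fin r → (MvPolynomial (Fin m) (𝓞 K))[X])
    (h : Fin r → Fin D → (MvPolynomial (Fin m) (𝓞 K))[X]) (e : Fin n → Fin r)
    (hF : ∀ j, (F₀ j).Monic) (hd : ∀ j, Odd (F₀ j).natDegree) (hh : ∀ j i, (h j i).natDegree < (F₀ j).natDegree) (B₀ : ℕ)
    (S : Set (HeightOneSpectrum (𝓞 K))) (hS : S.Finite) (hs : ∀ v ∉ S, ∀ i j, SepV4 v (i = j) (h i) (h j)) (hb : ∀ v ∉ S, ∀ j, FewV v B₀ (h j))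
    (P : MvPolynomial (Fin D) (𝓞 K)) (hP : P ≠ 0)
    {g : ℕ} (ω : Fin g → 𝓞 K) (hω : Submodule.span ℤ (Set.range ω) = ⊤) (hD : 1 ≤ D * g)
    {G : Fin (D * g) → Finset ℝ} {a : Fin (D * g) → ℝ → ℝ} {c : Fin (D * g) → ℝ}
    (ha : ∀ i, Adm (G i) (a i) (c i)) (hc : Function.Injective c) (δ : ℝ) (hδ : 0 < δ) (A B : ℕ) :
    ∃ κ : ℝ, 0 < κ ∧ ∃ y₀ : ℕ, ∀ y N : ℕ, y₀ ≤ y →
    ∀ W : Set (HeightOneSpectrum (𝓞 K) → ℝ), W.Finite → W.ncard ≤ y ^ B → (∀ w ∈ W, ∀ v, |w v| ≤ 1) →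
    ∀ E : (Fin (D * g) → ℕ) → Prop,
    (∀ k, (∀ w ∈ W, ∀ R : Set (HeightOneSpectrum (𝓞 K)), (∀ v ∈ R, MvPolynomial.eval (cf ω k) P ∈ v.asIdeal) →
      (∀ T : ℕ, y ≤ T → (T : ℝ) ≤ (N : ℝ) ^ κ →
        |∑ v ∈ (VT K T).filter (fun v => v ∉ R), w v * ((BBn (mkv v) (fun i => mem (F₀ (e i)) (h (e i)) (cf ω k)) -
          ((n : ℝ) + ((pairs n).filter fun p => e p.1 = e p.2).card) * Ideal.absNorm v.asIdeal) *
          Real.log (Ideal.absNorm v.asIdeal))| ≤ (T : ℝ) ^ (1 + δ)) ∧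
      (∀ T₁ T₂ : ℕ, y ≤ T₁ → T₁ ≤ T₂ → (T₂ : ℝ) ≤ (N : ℝ) ^ κ → ∀ z : ℂ, 1 + δ ≤ z.re → |z.im| ≤ (T₁ : ℝ) ^ B →
        ‖∑ v ∈ (VT K T₂).filter (fun v => v ∉ R ∧ T₁ < Ideal.absNorm v.asIdeal),
          ((w v * ((BBn (mkv v) (fun i => mem (F₀ (e i)) (h (e i)) (cf ω k)) -
            ((n : ℝ) + ((pairs n).filter fun p => e p.1 = e p.2).card) * Ideal.absNorm v.asIdeal) *
              Real.log (Ideal.absNorm v.asIdeal)) : ℝ) : ℂ) *
            (Ideal.absNorm v.asIdeal : ℂ) ^ (-z)‖ ≤ (T₁ : ℝ) ^ (1 + δ - z.re))) → E k) →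
    (((Ioc N (2 * N)).filter fun t => ¬ E (pv G a t)).card : ℝ) ≤ 1 / (y : ℝ) ^ A * N ∧
    ((((Ioc N (2 * N)).filter Nat.Prime).filter fun t => ¬ E (pv G a t)).card : ℝ) ≤
      1 / (y : ℝ) ^ A * ((Ioc N (2 * N)).filter Nat.Prime).card := by
  have h2 : {v : HeightOneSpectrum (𝓞 K) | (2 : 𝓞 K) ∈ v.asIdeal}.Finite := finite_dvd 2 two_ne_zero
  choose gg hgg using hd
  obtain ⟨κ, hκ, y₀, H⟩ := genZ (pairs n) (fun p v u => PF v (e p.1 = e p.2) (F₀ (e p.1)) (F₀ (e p.2)) (h (e p.1)) (h (e p.2)) u)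
    (fun p _ => by
      refine upgrade _ 0 _ (hS.union h2) (2 * (4 * gg (e p.1) * gg (e p.2) + 2 * gg (e p.1) + 2) ^ 2 + 2 * B₀ ^ 4 + 2 * (2 * gg (e p.1) + 1) ^ 2 +
        B₀ ^ 2 + (2 * gg (e p.1) + 1) + (4 * gg (e p.1) * gg (e p.2) + 1)) (by positivity) fun v hv => ?_
      rw [Set.mem_union, not_or] at hv
      refine Bd_PF hm (e p.1 = e p.2) _ _ _ _ (fun h1 => by rw [h1]; exact ⟨rfl, rfl⟩) (hF _) (hgg _) (fun i => by rw [← hgg]; exact hh _ i)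
        (hF _) (hgg _) (fun i => by rw [← hgg]; exact hh _ i) B₀ v hv.2 (hb v hv.1 _) (hb v hv.1 _) (hs v hv.1 _ _) ?_ _ rfl
      have h3 := hs v hv.1 (e p.2) (e p.1)
      rwa [show (e p.2 = e p.1) = (e p.1 = e p.2) from propext eq_comm] at h3)
    P hP ω hω hD ha hc δ hδ A B
  refine ⟨κ, hκ, y₀, fun y N hy W hW hWc hW1 E hE => ?_⟩
  refine H y N hy W hW hWc hW1 E fun k hk => hE k fun w hw R hR => ?_
  simp only [BBn_eq]
  exact hk w hw R hR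

end

end Pool.Agent.T3h87.RP
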