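import Pool.Agent.T3h87.RP.Expl
import Pool.Agent.T3h87.LT.Sps2

/-!
# Products of members of linear systems over the rational numbers with sparse parameters
-/

set_option autoImplicit false

namespace Pool.Agent.T3h87.RP

open Finset Polynomial Filter
open Pool.Agent.N647.NG
open Pool.Agent.N794.CG (meanD meanD_eq)
open Pool.Agent.R459.Eq (pri mem_pri)
open Pool.Agent.T3h87.LT (Fam Kind meanD_zmod sparse_main meanD_mono meanD_one)

section
variable {m D : ℕ}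

/-- the reduction -/
abbrev rh (p : ℕ) : ℤ →+* ZMod p := Int.castRingHom (ZMod p)

/-- separation of four points -/
def SepP (p : ℕ) (e : Prop) (h h' : Fin D → (MvPolynomial (Fin m) ℤ)[X]) : Prop :=
  ∀ t t' : Fin m → ZMod p, t ≠ t' → ∀ x y x' y' : ZMod p, (e → x ≠ y ∧ x' ≠ y') →
    (∃ i, vf (rh p) (h i) (t, x) ≠ 0) → ∃ c : Fin D → ZMod p,
      ∑ i, c i * vf (rh p) (h i) (t, x) ≠ 0 ∧ ∑ i, c i * vf (rh p) (h' i) (t, y) = 0 ∧
      ∑ i, c i * vf (rh p) (h i) (t', x') = 0 ∧ ∑ i, c i * vf (rh p) (h' i) (t', y') = 0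

/-- few base points on every fibre -/
def FewP (p : ℕ) (B : ℕ) (h : Fin D → (MvPolynomial (Fin m) ℤ)[X]) : Prop :=
  ∀ t : Fin m → ZMod p, Nat.card {x : ZMod p // ∀ i, vf (rh p) (h i) (t, x) = 0} ≤ B

/-- the normalised difference -/
noncomputable def psi {n r : ℕ} (F₀ : Fin r → (MvPolynomial (Fin m) ℤ)[X]) (h : Fin r → Fin D → (MvPolynomial (Fin m) ℤ)[X])
    (e : Fin n → Fin r) (p : ℕ) (c : Fin D → ℤ) : ℝ :=
  (BBn (rh p) (fun i => mem (F₀ (e i)) (h (e i)) c) - ((n : ℝ) + ((pairs n).filter fun q => e q.1 = e q.2).card) * p) / √p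

open Classical in
lemma psi_eq {n r : ℕ} (F₀ : Fin r → (MvPolynomial (Fin m) ℤ)[X]) (h : Fin r → Fin D → (MvPolynomial (Fin m) ℤ)[X])
    (e : Fin n → Fin r) (p : ℕ) [Fact p.Prime] (h2 : p ≠ 2) (c : Fin D → ℤ) :
    psi F₀ h e p c = ∑ q ∈ pairs n, PP (e q.1 = e q.2) (rh p) (F₀ (e q.1)) (F₀ (e q.2)) (h (e q.1)) (h (e q.2)) (fun l => (c l : ZMod p)) := by
  have hp : p.Prime := Fact.out
  have hp0 : (0 : ℝ) < p := by exact_mod_cast hp.pos
  have hs0 : 0 < √(p : ℝ) := Real.sqrt_pos.2 hp0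
  have hch : ringChar (ZMod p) ≠ 2 := by rwa [ZMod.ringChar_zmod_n]
  have hcard : (Fintype.card (ZMod p) : ℝ) = p := by rw [ZMod.card]
  have hcT : (Fintype.card (Fin m → ZMod p) : ℝ) = (p : ℝ) ^ m := by
    rw [Fintype.card_fun, Fintype.card_fin, ZMod.card]
    push_cast
    rfl
  have h1 : ∀ (i : Fin n) (t : Fin m → ZMod p), t1 (rh p) (mem (F₀ (e i)) (h (e i)) c) t =
      -aa (rh p) (F₀ (e i)) (h (e i)) (fun l => (c l : ZMod p)) t := by
    intro i t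
    rw [t1_mem, t1u_eq hch]
    rfl
  unfold psi BBn
  rw [finsum_eq_sum_of_fintype, Nat.card_zmod]
  simp only [h1, neg_mul_neg]
  have h3 : ∀ q : Fin n × Fin n, PP (e q.1 = e q.2) (rh p) (F₀ (e q.1)) (F₀ (e q.2)) (h (e q.1)) (h (e q.2)) (fun l => (c l : ZMod p)) =
      ((∑ t : Fin m → ZMod p, aa (rh p) (F₀ (e q.1)) (h (e q.1)) (fun l => (c l : ZMod p)) t *
        aa (rh p) (F₀ (e q.2)) (h (e q.2)) (fun l => (c l : ZMod p)) t) / (p : ℝ) ^ m - (if e q.1 = e q.2 then (p : ℝ) else 0)) / √p := by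
    intro q
    unfold PP
    rw [hcard]
  simp only [h3]
  rw [← sum_div, sum_sub_distrib, ← sum_div]
  congr 1
  rw [sum_add_distrib, sum_const, card_univ, nsmul_eq_mul, hcT, sum_comm, add_div, mul_div_cancel_left₀ _ (by positivity : (p : ℝ) ^ m ≠ 0)]
  rw [← sum_filter, sum_const, nsmul_eq_mul]
  ring

lemma psi_per {n r : ℕ} (F₀ : Fin r → (MvPolynomial (Fin m) ℤ)[X]) (h : Fin r → Fin D → (MvPolynomial (Fin m) ℤ)[X])
    (e : Fin n → Fin r) (p : ℕ) (c c' : Fin D → ℤ) (hc : ∀ l, (p : ℤ) ∣ c l - c' l) : psi F₀ h e p c = psi F₀ h e p c' := by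
  have h2 : (fun l => rh p (c l)) = fun l => rh p (c' l) := by
    funext l
    have h3 := (ZMod.intCast_zmod_eq_zero_iff_dvd (c l - c' l) p).2 (hc l)
    push_cast at h3
    exact sub_eq_zero.1 h3
  unfold psi BBn
  simp only [t1_mem, h2]

/-- the trivial bound -/
lemma t1_abs {R κ : Type} [CommRing R] [CommRing κ] [Finite κ] (φ : R →+* κ) (F : (MvPolynomial (Fin m) R)[X]) (t : Fin m → κ)
    (h1 : 1 ≤ Nat.card κ) : |t1 φ F t| ≤ (Nat.card κ : ℝ) ^ 2 := by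
  have h2 : (Nat.card {P : κ × κ // P.2 ^ 2 = (ev φ t F).eval P.1} : ℝ) ≤ (Nat.card κ : ℝ) ^ 2 := by
    have h3 : Nat.card {P : κ × κ // P.2 ^ 2 = (ev φ t F).eval P.1} ≤ Nat.card (κ × κ) :=
      Nat.card_le_card_of_injective _ Subtype.val_injective
    rw [Nat.card_prod, ← sq] at h3
    exact_mod_cast h3
  have h3 : (1 : ℝ) ≤ Nat.card κ := by exact_mod_cast h1
  have h4 : (0 : ℝ) ≤ (Nat.card {P : κ × κ // P.2 ^ 2 = (ev φ t F).eval P.1} : ℝ) := Nat.cast_nonneg _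
  unfold t1
  rw [abs_le]
  constructor <;> nlinarith

lemma psi_triv {n r : ℕ} (F₀ : Fin r → (MvPolynomial (Fin m) ℤ)[X]) (h : Fin r → Fin D → (MvPolynomial (Fin m) ℤ)[X])
    (e : Fin n → Fin r) (N : ℕ) (p : ℕ) (hp : p.Prime) (hpN : p ≤ N) (c : Fin D → ℤ) :
    |psi F₀ h e p c| ≤ (2 * n + 2 * n ^ 2 + 1) * (N : ℝ) ^ 4 := by
  classical
  have hF : Fact p.Prime := ⟨hp⟩
  have hp1 : (1 : ℝ) ≤ p := by exact_mod_cast hp.one_lt.le
  have hp0 : (0 : ℝ) < p := by linarith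
  have hpNr : (p : ℝ) ≤ N := by exact_mod_cast hpN
  have hs1 : 1 ≤ √(p : ℝ) := Real.one_le_sqrt.2 hp1
  have hcT : (Fintype.card (Fin m → ZMod p) : ℝ) = (p : ℝ) ^ m := by
    rw [Fintype.card_fun, Fintype.card_fin, ZMod.card]
    push_cast
    rfl
  have hpc : ((pairs n).card : ℝ) ≤ (n : ℝ) ^ 2 := by
    have h1 : (pairs n).card ≤ (univ : Finset (Fin n × Fin n)).card := card_le_card (filter_subset _ _)
    rw [card_univ, Fintype.card_prod, Fintype.card_fin, ← sq] at h1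
    exact_mod_cast h1
  have hpc2 : (((pairs n).filter fun q => e q.1 = e q.2).card : ℝ) ≤ (n : ℝ) ^ 2 := by
    have h1 : (((pairs n).filter fun q => e q.1 = e q.2).card : ℝ) ≤ (pairs n).card := by exact_mod_cast card_le_card (filter_subset _ _)
    linarith
  have hn0 : (0 : ℝ) ≤ n := Nat.cast_nonneg _
  have hp4 : (p : ℝ) ≤ (p : ℝ) ^ 4 := by
    calc (p : ℝ) = (p : ℝ) ^ 1 := (pow_one _).symm
      _ ≤ (p : ℝ) ^ 4 := pow_le_pow_right₀ hp1 (by norm_num)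
  have h1 : |BBn (rh p) (fun i => mem (F₀ (e i)) (h (e i)) c)| ≤ (n + n ^ 2) * (p : ℝ) ^ 4 := by
    unfold BBn
    rw [finsum_eq_sum_of_fintype, Nat.card_zmod, abs_div, abs_of_pos (by positivity : (0 : ℝ) < (p : ℝ) ^ m), div_le_iff₀ (by positivity)]
    refine (abs_sum_le_sum_abs _ _).trans ?_
    have h3 : ∀ t : Fin m → ZMod p, |(n : ℝ) * p + ∑ q ∈ pairs n, t1 (rh p) (mem (F₀ (e q.1)) (h (e q.1)) c) t *
        t1 (rh p) (mem (F₀ (e q.2)) (h (e q.2)) c) t| ≤ (n + n ^ 2) * (p : ℝ) ^ 4 := by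
      intro t
      refine (abs_add_le _ _).trans ?_
      have h4 : |∑ q ∈ pairs n, t1 (rh p) (mem (F₀ (e q.1)) (h (e q.1)) c) t * t1 (rh p) (mem (F₀ (e q.2)) (h (e q.2)) c) t| ≤
          n ^ 2 * (p : ℝ) ^ 4 := by
        refine (abs_sum_le_sum_abs _ _).trans ?_
        have h5 : ∀ q ∈ pairs n, |t1 (rh p) (mem (F₀ (e q.1)) (h (e q.1)) c) t * t1 (rh p) (mem (F₀ (e q.2)) (h (e q.2)) c) t| ≤ (p : ℝ) ^ 4 := by
          intro q _
          have h6 := t1_abs (rh p) (mem (F₀ (e q.1)) (h (e q.1)) c) t (by rw [Nat.card_zmod]; exact hp.one_lt.le)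
          have h7 := t1_abs (rh p) (mem (F₀ (e q.2)) (h (e q.2)) c) t (by rw [Nat.card_zmod]; exact hp.one_lt.le)
          rw [Nat.card_zmod] at h6 h7
          rw [abs_mul]
          calc _ ≤ (p : ℝ) ^ 2 * (p : ℝ) ^ 2 := mul_le_mul h6 h7 (abs_nonneg _) (by positivity)
            _ = _ := by ring
        refine (sum_le_sum h5).trans ?_
        rw [sum_const, nsmul_eq_mul]
        exact mul_le_mul_of_nonneg_right hpc (by positivity)
      rw [abs_of_nonneg (by positivity : (0 : ℝ) ≤ (n : ℝ) * p)]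
      have h5 : (n : ℝ) * p ≤ n * (p : ℝ) ^ 4 := mul_le_mul_of_nonneg_left hp4 hn0
      linarith
    refine (sum_le_sum fun t _ => h3 t).trans (le_of_eq ?_)
    rw [sum_const, card_univ, nsmul_eq_mul, hcT]
    ring
  unfold psi
  rw [abs_div, abs_of_pos (by linarith : 0 < √(p : ℝ))]
  refine (div_le_self (abs_nonneg _) hs1).trans ?_
  refine (abs_sub _ _).trans ?_
  rw [abs_of_nonneg (by positivity : (0 : ℝ) ≤ ((n : ℝ) + ((pairs n).filter fun q => e q.1 = e q.2).card) * p)]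
  have h3 : ((n : ℝ) + ((pairs n).filter fun q => e q.1 = e q.2).card) * p ≤ (n + n ^ 2) * (p : ℝ) ^ 4 :=
    mul_le_mul (by linarith) hp4 hp0.le (by positivity)
  have h4 : (p : ℝ) ^ 4 ≤ (N : ℝ) ^ 4 := pow_le_pow_left₀ hp0.le hpNr 4
  have h5 : 0 ≤ (p : ℝ) ^ 4 := by positivity
  have h6 : (2 * (n : ℝ) + 2 * n ^ 2 + 1) * (p : ℝ) ^ 4 ≤ (2 * n + 2 * n ^ 2 + 1) * (N : ℝ) ^ 4 :=
    mul_le_mul_of_nonneg_left h4 (by positivity)
  linarith

end

end Pool.Agent.T3h87.RP
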