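import Pool.Agent.T3h87.RP.Sp

/-!
# Products of members of linear systems over the rational numbers with sparse parameters: the theorem
-/

set_option autoImplicit false

namespace Pool.Agent.T3h87.RP

open Finset Polynomial Filter
open Pool.Agent.N647.NG
open Pool.Agent.N794.CG (meanD meanD_eq)
open Pool.Agent.R459.Eq (pri mem_pri)
open Pool.Agent.T3h87.LT (Fam Kind meanD_zmod sparse_main meanD_mono meanD_one)

lemma meanD_abs_le (p D : ℕ) (hp : 0 < p) (f : (Fin D → ℤ) → ℝ) (b : ℝ) (h : ∀ m, |f m| ≤ b) : |meanD p D f| ≤ b := by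
  have h1 : ∀ m, f m ≤ b * 1 := fun m => by linarith [le_abs_self (f m), h m]
  have h2 : ∀ m, -b * 1 ≤ f m := fun m => by linarith [neg_abs_le (f m), h m]
  have h3 := meanD_mono p D _ _ h1
  have h4 := meanD_mono p D _ _ h2
  rw [Pool.Agent.T3h87.LT.meanD_mul, meanD_one p D hp, mul_one] at h3 h4
  exact abs_le.2 ⟨h4, h3⟩

section
variable {m D : ℕ}

theorem psi_bounds (hm : 1 ≤ m) {n r : ℕ} (F₀ : Fin r → (MvPolynomial (Fin m) ℤ)[X]) (h : Fin r → Fin D → (MvPolynomial (Fin m) ℤ)[X])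
    (e : Fin n → Fin r) (hF : ∀ j, (F₀ j).Monic) (hd : ∀ j, Odd (F₀ j).natDegree) (hh : ∀ j i, (h j i).natDegree < (F₀ j).natDegree)
    (B₀ : ℕ) (S : Set ℕ) (hS : S.Finite) (hs : ∀ p : ℕ, p.Prime → p ∉ S → ∀ i j, SepP p (i = j) (h i) (h j))
    (hb : ∀ p : ℕ, p.Prime → p ∉ S → ∀ j, FewP p B₀ (h j)) :
    ∃ C : ℝ, 1 ≤ C ∧ (∀ p : ℕ, p.Prime → ∀ c, |psi F₀ h e p c| ≤ C * √p) ∧
      (∀ p : ℕ, p.Prime → meanD p D (fun c => psi F₀ h e p c ^ 2) ≤ C) ∧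
      (∀ p : ℕ, p.Prime → |meanD p D (psi F₀ h e p)| ≤ C / √p) := by
  classical
  choose gg hgg using hd
  obtain ⟨C₁, hC₁⟩ : ∃ C₁ : Fin n × Fin n → ℝ, C₁ = fun q => 2 * (4 * (gg (e q.1) : ℝ) * gg (e q.2) + 2 * gg (e q.1) + 2) ^ 2 +
    2 * (B₀ : ℝ) ^ 4 + 2 * (2 * (gg (e q.1) : ℝ) + 1) ^ 2 + (B₀ : ℝ) ^ 2 + (2 * (gg (e q.1) : ℝ) + 1) +
    (4 * (gg (e q.1) : ℝ) * gg (e q.2) + 1) := ⟨_, rfl⟩
  have hC₁0 : ∀ q, 0 ≤ C₁ q := fun q => by rw [hC₁]; positivity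
  obtain ⟨C₂, hC₂⟩ : ∃ C₂ : ℝ, C₂ = ∑ q ∈ pairs n, C₁ q := ⟨_, rfl⟩
  have hC₂0 : 0 ≤ C₂ := by rw [hC₂]; exact sum_nonneg fun q _ => hC₁0 q
  obtain ⟨N₀, hN₀⟩ := hS.bddAbove
  obtain ⟨N, hN⟩ : ∃ N, N = N₀ + 2 := ⟨_, rfl⟩
  obtain ⟨b, hb'⟩ : ∃ b : ℝ, b = (2 * n + 2 * n ^ 2 + 1) * (N : ℝ) ^ 4 := ⟨_, rfl⟩
  have hN1 : (1 : ℝ) ≤ N := by exact_mod_cast (by omega : 1 ≤ N)
  have hn0 : (0 : ℝ) ≤ n := Nat.cast_nonneg _
  have hb1 : 1 ≤ b := by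
    rw [hb']
    have h1 : (1 : ℝ) ≤ (N : ℝ) ^ 4 := one_le_pow₀ hN1
    have h2 : (1 : ℝ) ≤ 2 * n + 2 * n ^ 2 + 1 := by nlinarith
    nlinarith
  have hpc : ((pairs n).card : ℝ) ≤ (n : ℝ) ^ 2 := by
    have h1 : (pairs n).card ≤ (univ : Finset (Fin n × Fin n)).card := card_le_card (filter_subset _ _)
    rw [card_univ, Fintype.card_prod, Fintype.card_fin, ← sq] at h1
    exact_mod_cast h1
  obtain ⟨C, hC⟩ : ∃ C : ℝ, C = (n ^ 2 + 1) * C₂ + b ^ 2 * N := ⟨_, rfl⟩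
  have hbb : b ≤ b ^ 2 * N := by nlinarith [mul_nonneg (by linarith : 0 ≤ b) (by linarith : (0 : ℝ) ≤ N - 1)]
  have hbN : b * N ≤ b ^ 2 * N := by
    have : b ≤ b ^ 2 := by nlinarith
    exact mul_le_mul_of_nonneg_right this (by linarith)
  have hb2 : b ^ 2 ≤ b ^ 2 * N := by nlinarith [sq_nonneg b]
  have hnC : 0 ≤ (n : ℝ) ^ 2 * C₂ := by positivity
  have hC1 : C₂ ≤ C := by rw [hC]; linarith
  have hC2 : (n : ℝ) ^ 2 * C₂ ≤ C := by rw [hC]; linarith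
  have hCb : b ^ 2 * N ≤ C := by rw [hC]; linarith
  -- the good primes
  have hgood : ∀ p : ℕ, p.Prime → N < p → (∀ c, |psi F₀ h e p c| ≤ C₂ * √p) ∧ meanD p D (fun c => psi F₀ h e p c ^ 2) ≤ n ^ 2 * C₂ ∧
      |meanD p D (psi F₀ h e p)| ≤ C₂ / √p := by
    intro p hp hNp
    have hFp : Fact p.Prime := ⟨hp⟩
    have hpS : p ∉ S := fun h0 => by have := hN₀ h0; omega
    have hp2 : p ≠ 2 := by omega
    have hch : ringChar (ZMod p) ≠ 2 := by rwa [ZMod.ringChar_zmod_n]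
    have hp0 : (0 : ℝ) < p := by exact_mod_cast hp.pos
    have hsp : 0 < √(p : ℝ) := Real.sqrt_pos.2 hp0
    have hcard : (Fintype.card (ZMod p) : ℝ) = p := by rw [ZMod.card]
    have hfew : ∀ j, ∀ t : Fin m → ZMod p, (univ.filter fun x : ZMod p => ∀ i, vf (rh p) (h j i) (t, x) = 0).card ≤ B₀ := by
      intro j t
      have h3 := hb p hp hpS j t
      rwa [Nat.card_eq_fintype_card, Fintype.card_subtype] at h3
    have hI : ∀ (e : Prop) [Decidable e] (x : ZMod p × ZMod p), x ∈ (if e then Idiff (ZMod p) else univ) → (e → x.1 ≠ x.2) := by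
      intro e _ x hx he1
      rw [if_pos he1] at hx
      unfold Idiff at hx
      rw [mem_filter] at hx
      exact hx.2
    have hloc : ∀ q : Fin n × Fin n, _ := fun q => PP_loc (κ := ZMod p) hm hch (e q.1 = e q.2) (rh p) (F₀ (e q.1)) (F₀ (e q.2))
      (h (e q.1)) (h (e q.2)) (fun h1 => by rw [h1]; exact ⟨rfl, rfl⟩) (hF _) (hgg _) (fun i => by rw [← hgg]; exact hh _ i)
      (hF _) (hgg _) (fun i => by rw [← hgg]; exact hh _ i) B₀ (hfew _) (hfew _) (by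
        constructor
        · intro t t' htt x hx y hy hne
          exact hs p hp hpS (e q.1) (e q.2) t t' htt x.1 x.2 y.1 y.2 (fun he1 => ⟨hI _ x hx he1, hI _ y hy he1⟩) hne
        · intro t t' htt x hx y hy hne
          obtain ⟨c, c1, c2, c3, c4⟩ := hs p hp hpS (e q.2) (e q.1) t t' htt x.2 x.1 y.2 y.1
            (fun he1 => ⟨(hI _ x hx he1.symm).symm, (hI _ y hy he1.symm).symm⟩) hne
          exact ⟨c, c1, c2, c4, c3⟩) (C₁ q) (by rw [hC₁])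
    have hpsi : ∀ c, psi F₀ h e p c = ∑ q ∈ pairs n, PP (e q.1 = e q.2) (rh p) (F₀ (e q.1)) (F₀ (e q.2)) (h (e q.1)) (h (e q.2))
        (fun l => (c l : ZMod p)) := fun c => psi_eq F₀ h e p hp2 c
    refine ⟨fun c => ?_, ?_, ?_⟩
    · rw [hpsi, hC₂, sum_mul]
      refine (abs_sum_le_sum_abs _ _).trans (sum_le_sum fun q _ => ?_)
      have h3 := (hloc q).1 (fun l => (c l : ZMod p))
      rwa [hcard] at h3
    · have e1 : meanD p D (fun c => psi F₀ h e p c ^ 2) = (∑ u : Fin D → ZMod p, (∑ q ∈ pairs n,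
          PP (e q.1 = e q.2) (rh p) (F₀ (e q.1)) (F₀ (e q.2)) (h (e q.1)) (h (e q.2)) u) ^ 2) / (Fintype.card (ZMod p) : ℝ) ^ D := by
        rw [← meanD_zmod p hp D (fun u : Fin D → ZMod p => (∑ q ∈ pairs n,
          PP (e q.1 = e q.2) (rh p) (F₀ (e q.1)) (F₀ (e q.2)) (h (e q.1)) (h (e q.2)) u) ^ 2)]
        congr 1
        funext c
        rw [hpsi]
      rw [e1]
      have h3 : ∀ u : Fin D → ZMod p, (∑ q ∈ pairs n, PP (e q.1 = e q.2) (rh p) (F₀ (e q.1)) (F₀ (e q.2)) (h (e q.1)) (h (e q.2)) u) ^ 2 ≤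
          n ^ 2 * ∑ q ∈ pairs n, PP (e q.1 = e q.2) (rh p) (F₀ (e q.1)) (F₀ (e q.2)) (h (e q.1)) (h (e q.2)) u ^ 2 := by
        intro u
        refine sq_sum_le_card_mul_sum_sq.trans ?_
        exact mul_le_mul_of_nonneg_right hpc (sum_nonneg fun q _ => sq_nonneg _)
      calc (∑ u : Fin D → ZMod p, (∑ q ∈ pairs n, PP (e q.1 = e q.2) (rh p) (F₀ (e q.1)) (F₀ (e q.2)) (h (e q.1)) (h (e q.2)) u) ^ 2) /
            (Fintype.card (ZMod p) : ℝ) ^ D ≤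
            (∑ u : Fin D → ZMod p, n ^ 2 * ∑ q ∈ pairs n, PP (e q.1 = e q.2) (rh p) (F₀ (e q.1)) (F₀ (e q.2)) (h (e q.1)) (h (e q.2)) u ^ 2) /
              (Fintype.card (ZMod p) : ℝ) ^ D := div_le_div_of_nonneg_right (sum_le_sum fun u _ => h3 u) (by positivity)
        _ = n ^ 2 * ∑ q ∈ pairs n, (∑ u : Fin D → ZMod p, PP (e q.1 = e q.2) (rh p) (F₀ (e q.1)) (F₀ (e q.2)) (h (e q.1)) (h (e q.2)) u ^ 2) /
              (Fintype.card (ZMod p) : ℝ) ^ D := by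
            rw [← mul_sum, sum_comm, mul_div_assoc, sum_div]
        _ ≤ n ^ 2 * ∑ q ∈ pairs n, C₁ q := mul_le_mul_of_nonneg_left (sum_le_sum fun q _ => (hloc q).2.1) (by positivity)
        _ = _ := by rw [hC₂]
    · have e1 : meanD p D (psi F₀ h e p) = (∑ u : Fin D → ZMod p, ∑ q ∈ pairs n,
          PP (e q.1 = e q.2) (rh p) (F₀ (e q.1)) (F₀ (e q.2)) (h (e q.1)) (h (e q.2)) u) / (Fintype.card (ZMod p) : ℝ) ^ D := by
        rw [← meanD_zmod p hp D (fun u : Fin D → ZMod p => ∑ q ∈ pairs n,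
          PP (e q.1 = e q.2) (rh p) (F₀ (e q.1)) (F₀ (e q.2)) (h (e q.1)) (h (e q.2)) u)]
        congr 1
        funext c
        rw [hpsi]
      rw [e1, sum_comm, sum_div, hC₂, sum_div]
      refine (abs_sum_le_sum_abs _ _).trans (sum_le_sum fun q _ => ?_)
      have h3 := (hloc q).2.2
      rwa [hcard] at h3 ⊢
  refine ⟨C, ?_, fun p hp c => ?_, fun p hp => ?_, fun p hp => ?_⟩
  · nlinarith
  · have hs1 : 1 ≤ √(p : ℝ) := Real.one_le_sqrt.2 (by exact_mod_cast hp.one_lt.le)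
    rcases le_or_gt p N with hpN | hpN
    · have h1 := psi_triv F₀ h e N p hp hpN c
      rw [← hb'] at h1
      nlinarith
    · exact ((hgood p hp hpN).1 c).trans (mul_le_mul_of_nonneg_right hC1 (Real.sqrt_nonneg _))
  · rcases le_or_gt p N with hpN | hpN
    · have h1 : ∀ c, psi F₀ h e p c ^ 2 ≤ b ^ 2 * 1 := by
        intro c
        have h2 := psi_triv F₀ h e N p hp hpN c
        rw [← hb'] at h2
        rw [mul_one, ← sq_abs]
        exact pow_le_pow_left₀ (abs_nonneg _) h2 2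
      have h2 := meanD_mono p D _ _ h1
      rw [Pool.Agent.T3h87.LT.meanD_mul, meanD_one p D hp.pos, mul_one] at h2
      linarith
    · exact (hgood p hp hpN).2.1.trans hC2
  · have hp0 : (0 : ℝ) < p := by exact_mod_cast hp.pos
    have hsp : 0 < √(p : ℝ) := Real.sqrt_pos.2 hp0
    rcases le_or_gt p N with hpN | hpN
    · have h1 := meanD_abs_le p D hp.pos (psi F₀ h e p) b (fun c => by
        have h2 := psi_triv F₀ h e N p hp hpN c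
        rwa [← hb'] at h2)
      rw [le_div_iff₀ hsp]
      have h2 : √(p : ℝ) ≤ N := by
        rw [Real.sqrt_le_left (by linarith)]
        have h3 : (p : ℝ) ≤ N := by exact_mod_cast hpN
        nlinarith
      calc |meanD p D (psi F₀ h e p)| * √(p : ℝ) ≤ b * N := mul_le_mul h1 h2 hsp.le (by linarith)
        _ ≤ C := hbN.trans hCb
    · exact ((hgood p hp hpN).2.2).trans (div_le_div_of_nonneg_right hC1 hsp.le)

open Classical in
/-- **Products of members of linear systems of fibrations with sparse coefficients.** -/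
theorem prodS (hm : 1 ≤ m) {n r : ℕ} (F₀ : Fin r → (MvPolynomial (Fin m) ℤ)[X]) (h : Fin r → Fin D → (MvPolynomial (Fin m) ℤ)[X])
    (e : Fin n → Fin r) (hF : ∀ j, (F₀ j).Monic) (hd : ∀ j, Odd (F₀ j).natDegree) (hh : ∀ j i, (h j i).natDegree < (F₀ j).natDegree)
    (B₀ : ℕ) (S : Set ℕ) (hS : S.Finite) (hs : ∀ p : ℕ, p.Prime → p ∉ S → ∀ i j, SepP p (i = j) (h i) (h j))
    (hb : ∀ p : ℕ, p.Prime → p ∉ S → ∀ j, FewP p B₀ (h j))
    (F : Fin D → ℤ → Set Fam) (hK : ∀ l, Kind (F l)) (Z : MvPolynomial (Fin D) ℤ) (hZ : Z ≠ 0) (δ : ℝ) (hδ : 0 < δ) (hδ1 : δ ≤ 1) :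
    ∃ (W e' K : ℕ) (ρ : ℝ), 1 ≤ W ∧ 1 ≤ K ∧ 0 < ρ ∧ ∀ κ : Fin D → ℤ, (∀ l, κ l ≠ 0) → ∃ X₀ : ℕ, 1 ≤ X₀ ∧ ∀ X : ℕ, X₀ ≤ X →
    ∀ f : Fin D → Fam, (∀ l, f l ∈ F l (κ l)) →
    ∀ w : ℕ → ℕ → ℝ, (∀ j p, |w j p| ≤ 1) → ∀ E : Finset (∀ l, (f l).ι), E ⊆ Fintype.piFinset (fun l => (f l).set) →
    (∀ i ∈ E, ∃ x : ℕ, X ≤ x ∧ (∀ l, (x : ℝ) ^ W ≤ (f l).size) ∧ ∃ j : ℕ, (j + 1) ^ K ≤ x ∧
      ∃ R : Set ℕ, (∀ p ∈ R, (p : ℤ) ∣ MvPolynomial.eval (fun l => (f l).val (i l)) Z) ∧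
      (x : ℝ) ^ (1 + δ) < |∑ p ∈ (pri x).filter (fun p => p ∉ R), w j p *
        ((BBn (rh p) (fun i' => mem (F₀ (e i')) (h (e i')) (fun l => (f l).val (i l))) -
          ((n : ℝ) + ((pairs n).filter fun q => e q.1 = e q.2).card) * p) * Real.log p)|) →
    ∑ i ∈ E, ∏ l, (f l).wt (i l) ≤ (∑ l, (1 + |Real.log (f l).size|) ^ e') * (X : ℝ) ^ (-ρ) := by
  obtain ⟨C, hC, h1, h2, h3⟩ := psi_bounds hm F₀ h e hF hd hh B₀ S hS hs hb
  obtain ⟨W, e', K, ρ, hW, hK1, hρ, H⟩ := sparse_main D F hK Z hZ (psi F₀ h e) (fun p _ c c' hc => psi_per F₀ h e p c c' hc) C hC h1 h2 h3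
    δ hδ hδ1
  refine ⟨W, e', K, ρ, hW, hK1, hρ, fun κ hκ => ?_⟩
  obtain ⟨X₀, hX₀, J⟩ := H κ hκ
  refine ⟨X₀, hX₀, fun X hX f hf w hw E hE hbad => J X hX f hf w hw E hE fun i hi => ?_⟩
  obtain ⟨x, q1, q2, j, q3, R, q4, q5⟩ := hbad i hi
  refine ⟨x, q1, q2, j, q3, R, q4, lt_of_lt_of_eq q5 ?_⟩
  congr 1
  refine sum_congr rfl fun p hp => ?_
  have hpp := (mem_pri.1 (mem_filter.1 hp).1).2
  have hsp : √(p : ℝ) ≠ 0 := (Real.sqrt_pos.2 (by exact_mod_cast hpp.pos)).ne'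
  unfold psi
  rw [← mul_assoc (_ / √(p : ℝ)), div_mul_cancel₀ _ hsp]

end

section
variable {r : ℕ} {d : Fin r → ℕ} {e m D : ℕ} (E : Fin D ≃ Ep d e m)

lemma sepP_p (hd : ∀ j, 2 ≤ d j) (he : 1 ≤ e) (p : ℕ) (hp1 : p.Prime) (i j : Fin r) :
    SepP p (i = j) (fun k => hp ℤ i (E k)) (fun k => hp ℤ j (E k)) := by
  have hF : Fact p.Prime := ⟨hp1⟩
  intro t t' htt x y x' y' hI _
  obtain ⟨l, hl⟩ := Function.ne_iff.1 htt
  by_cases hij : i = j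
  · subst hij
    obtain ⟨h1, h2⟩ := hI rfl
    obtain ⟨c, hc, -⟩ := rep_diff2 (φ := rh p) (E := E) (hd i) he l (t' l) y
    refine ⟨c, ?_, ?_, ?_, ?_⟩
    · rw [hc]
      exact mul_ne_zero (sub_ne_zero.2 hl) (sub_ne_zero.2 h1)
    · rw [hc]
      beta_reduce
      rw [sub_self, mul_zero]
    · rw [hc]
      beta_reduce
      rw [sub_self, zero_mul]
    · rw [hc]
      beta_reduce
      rw [sub_self, zero_mul]
  · obtain ⟨c, hc, hc'⟩ := rep_diff (φ := rh p) (E := E) (i := i) (by have := hd i; omega) he l (t' l)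
    refine ⟨c, ?_, ?_, ?_, ?_⟩
    · rw [hc]
      exact sub_ne_zero.2 hl
    · exact hc' j (Ne.symm hij) _
    · rw [hc]
      beta_reduce
      rw [sub_self]
    · exact hc' j (Ne.symm hij) _

lemma fewP_p (hd : ∀ j, 1 ≤ d j) (p : ℕ) (hp1 : p.Prime) (i : Fin r) : FewP p 0 (fun k => hp ℤ i (E k)) := by
  have hF : Fact p.Prime := ⟨hp1⟩
  intro t
  refine le_of_eq (Nat.card_eq_zero.2 (Or.inl ⟨fun x => ?_⟩))
  have h := x.2 (E.symm ⟨i, ⟨0, hd i⟩, fun _ => 0⟩)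
  beta_reduce at h
  rw [Equiv.apply_symm_apply, vf_hp, if_pos rfl] at h
  simp at h

end

end Pool.Agent.T3h87.RP
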