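import Pool.Agent.T3h87.RP.Su

/-!
# Fibrations in surfaces over the rational numbers with sparse parameters: the theorem
-/

set_option autoImplicit false

namespace Pool.Agent.T3h87.RP

open Finset Polynomial Filter
open Pool.Agent.N647.NG
open Pool.Agent.N794.CG (meanD meanD_eq)
open Pool.Agent.R459.Eq (pri mem_pri)
open Pool.Agent.T3h87.LT (Fam Kind meanD_zmod sparse_main meanD_mono meanD_one)

/-- the modified weights -/
noncomputable def wS (w : ℕ → ℕ → ℝ) (n p : ℕ) : ℝ :=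
  if p ≤ 2 ^ (Nat.unpair n).2 then w (Nat.unpair n).1 p * (√p / √((2 : ℝ) ^ (Nat.unpair n).2)) else 0

lemma wS_abs (w : ℕ → ℕ → ℝ) (hw : ∀ j p, |w j p| ≤ 1) (n p : ℕ) : |wS w n p| ≤ 1 := by
  unfold wS
  split_ifs with h
  · have h1 : √(p : ℝ) / √((2 : ℝ) ^ (Nat.unpair n).2) ≤ 1 :=
      div_le_one_of_le₀ (Real.sqrt_le_sqrt (by exact_mod_cast h)) (Real.sqrt_nonneg _)
    have h2 : 0 ≤ √(p : ℝ) / √((2 : ℝ) ^ (Nat.unpair n).2) := by positivity
    rw [abs_mul, abs_of_nonneg h2]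
    exact mul_le_one₀ (hw _ _) h2 h1
  · simp

lemma ev_su (c δ : ℝ) (K : ℕ) (hc : 0 ≤ c) (hδ : 0 < δ) : ∃ X₀ : ℕ, 1 ≤ X₀ ∧ ∀ x : ℕ, X₀ ≤ x →
    (Nat.log 2 x + 2) ^ K ≤ x ∧
      √((2 : ℝ) ^ (Nat.log 2 x + 1)) * (x : ℝ) ^ (1 + δ / 2) + (2 * x) * (c * √x * Real.log x) ≤ (x : ℝ) ^ (3 / 2 + δ) := by
  have h1 : Tendsto (fun x : ℝ => x ^ (δ / 2)) atTop atTop := tendsto_rpow_atTop (by positivity)
  have h2 := (isLittleO_log_rpow_atTop (show (0 : ℝ) < δ / 2 by positivity)).bound (show (0 : ℝ) < 1 by norm_num)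
  have h3 : ∀ᶠ x : ℝ in atTop, 2 + 2 * c ≤ x ^ (δ / 2) := h1.eventually (eventually_ge_atTop _)
  have h4 : ∀ᶠ x : ℝ in atTop, 2 * (√x * (x * x ^ (δ / 2))) + (2 * x) * (c * √x * Real.log x) ≤ x ^ (3 / 2 + δ) := by
    filter_upwards [h2, h3, eventually_ge_atTop 1] with x hx1 hx2 hx3
    have hx0 : 0 < x := by linarith
    have hl : 0 ≤ Real.log x := Real.log_nonneg hx3
    rw [Real.norm_of_nonneg hl, Real.norm_of_nonneg (by positivity), one_mul] at hx1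
    have e5 : x ^ (3 / 2 + δ) = √x * x * x ^ (δ / 2) * x ^ (δ / 2) := by
      rw [Real.sqrt_eq_rpow]
      nth_rewrite 3 [← Real.rpow_one x]
      rw [← Real.rpow_add hx0, ← Real.rpow_add hx0, ← Real.rpow_add hx0]
      congr 1
      ring
    have e6 : (2 * x) * (c * √x * Real.log x) ≤ (2 * c) * (√x * x * x ^ (δ / 2)) := by
      have e7 : (2 * x) * (c * √x * Real.log x) = (2 * c) * (√x * x * Real.log x) := by ring
      rw [e7]
      apply mul_le_mul_of_nonneg_left _ (by positivity)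
      exact mul_le_mul_of_nonneg_left hx1 (by positivity)
    have e8 : (2 + 2 * c) * (√x * x * x ^ (δ / 2)) ≤ x ^ (δ / 2) * (√x * x * x ^ (δ / 2)) :=
      mul_le_mul_of_nonneg_right hx2 (by positivity)
    rw [e5]
    nlinarith
  have h5 : ∀ᶠ x : ℝ in atTop, (2 * Real.log x + 2) ^ K ≤ x := by
    have h6 := (isLittleO_log_rpow_atTop (show (0 : ℝ) < 1 / (2 * (K + 1)) by positivity)).bound (show (0 : ℝ) < 1 by norm_num)
    have h7 : Tendsto (fun x : ℝ => x ^ (1 / (2 * ((K : ℝ) + 1)))) atTop atTop := tendsto_rpow_atTop (by positivity)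
    filter_upwards [h6, h7.eventually (eventually_ge_atTop 4), eventually_ge_atTop 1] with x hx1 hx2 hx3
    have hx0 : 0 < x := by linarith
    have hl : 0 ≤ Real.log x := Real.log_nonneg hx3
    rw [Real.norm_of_nonneg hl, Real.norm_of_nonneg (by positivity), one_mul] at hx1
    obtain ⟨a, ha⟩ : ∃ a : ℝ, a = x ^ (1 / (2 * ((K : ℝ) + 1))) := ⟨_, rfl⟩
    rw [← ha] at hx1 hx2
    have h8 : 2 * Real.log x + 2 ≤ a ^ 2 := by nlinarith
    calc (2 * Real.log x + 2) ^ K ≤ (a ^ 2) ^ K := pow_le_pow_left₀ (by positivity) h8 K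
      _ ≤ (a ^ 2) ^ (K + 1) := pow_le_pow_right₀ (by nlinarith) (by omega)
      _ = x := by
          rw [← pow_mul, ha, ← Real.rpow_natCast, ← Real.rpow_mul hx0.le]
          push_cast
          rw [one_div, inv_mul_cancel₀ (by positivity), Real.rpow_one]
  obtain ⟨X₁, hX₁⟩ := eventually_atTop.1 ((tendsto_natCast_atTop_atTop (R := ℝ)).eventually (h4.and h5))
  refine ⟨X₁ + 1, by omega, fun x hx => ?_⟩
  obtain ⟨k1, k2⟩ := hX₁ x (by omega)
  have hx0 : (0 : ℝ) < x := by exact_mod_cast (by omega : 0 < x)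
  have hx1 : (1 : ℝ) ≤ x := by exact_mod_cast (by omega : 1 ≤ x)
  have hpow : (2 : ℝ) ^ Nat.log 2 x ≤ x := by exact_mod_cast Nat.pow_log_le_self 2 (by omega)
  have hlog : (Nat.log 2 x : ℝ) ≤ 2 * Real.log x := by
    have h8 := Real.log_le_log (by positivity) hpow
    rw [Real.log_pow] at h8
    have h9 : (1 : ℝ) / 2 < Real.log 2 := by
      have := Real.log_two_gt_d9
      linarith
    have h10 : (0 : ℝ) ≤ (Nat.log 2 x : ℝ) := Nat.cast_nonneg _
    nlinarith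
  constructor
  · have h8 : ((Nat.log 2 x : ℝ) + 2) ^ K ≤ x := (pow_le_pow_left₀ (by positivity) (by linarith) K).trans k2
    exact_mod_cast h8
  · refine le_trans ?_ k1
    have h8 : √((2 : ℝ) ^ (Nat.log 2 x + 1)) ≤ 2 * √x := by
      rw [Real.sqrt_le_left (by positivity), mul_pow, Real.sq_sqrt hx0.le, pow_succ]
      linarith
    have h9 : (x : ℝ) ^ (1 + δ / 2) = x * (x : ℝ) ^ (δ / 2) := by
      rw [Real.rpow_add hx0, Real.rpow_one]
    have h10 : √((2 : ℝ) ^ (Nat.log 2 x + 1)) * (x : ℝ) ^ (1 + δ / 2) ≤ 2 * (√x * (x * (x : ℝ) ^ (δ / 2))) := by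
      rw [h9]
      calc _ ≤ 2 * √x * (x * (x : ℝ) ^ (δ / 2)) := mul_le_mul_of_nonneg_right h8 (by positivity)
        _ = _ := by ring
    linarith

section
variable {m D : ℕ}

open Classical in
/-- **Fibrations in surfaces with sparse coefficients.** -/
theorem surfS (k : ℕ) (F₀ : (MvPolynomial (Fin (m + 1)) ℤ)[X]) (h : Fin D → (MvPolynomial (Fin (m + 1)) ℤ)[X]) {g : ℕ}
    (hFm : F₀.Monic) (hd : F₀.natDegree = 2 * g + 1) (hh : ∀ i, (h i).natDegree < 2 * g + 1) (r C₀ : ℝ) (S : Set ℕ) (hS : S.Finite)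
    (hs : ∀ p : ℕ, p.Prime → p ∉ S → SepQ p h)
    (hb : ∀ p : ℕ, p.Prime → p ∉ S → |(ccQ p F₀ h : ℝ) - cbQ p h - r * (p : ℝ) ^ (m + 1)| ≤ C₀ * ((p : ℝ) ^ (m + 1) / √p))
    (F : Fin D → ℤ → Set Fam) (hK : ∀ l, Kind (F l)) (Z : MvPolynomial (Fin D) ℤ) (hZ : Z ≠ 0) (δ : ℝ) (hδ : 0 < δ) (hδ1 : δ ≤ 1) :
    ∃ (W e' K : ℕ) (ρ : ℝ), 1 ≤ W ∧ 1 ≤ K ∧ 0 < ρ ∧ ∀ κ : Fin D → ℤ, (∀ l, κ l ≠ 0) → ∃ X₀ : ℕ, 1 ≤ X₀ ∧ ∀ X : ℕ, X₀ ≤ X →
    ∀ f : Fin D → Fam, (∀ l, f l ∈ F l (κ l)) →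
    ∀ w : ℕ → ℕ → ℝ, (∀ j p, |w j p| ≤ 1) → ∀ E : Finset (∀ l, (f l).ι), E ⊆ Fintype.piFinset (fun l => (f l).set) →
    (∀ i ∈ E, ∃ x : ℕ, X ≤ x ∧ (∀ l, (x : ℝ) ^ W ≤ (f l).size) ∧ ∃ j : ℕ, (j + 1) ^ K ≤ x ∧
      ∃ R : Set ℕ, (∀ p ∈ R, (p : ℤ) ∣ MvPolynomial.eval (fun l => (f l).val (i l)) Z) ∧
      (x : ℝ) ^ (3 / 2 + δ) < |∑ p ∈ (pri x).filter (fun p => p ∉ R), w j p *
        ((BB k (rh p) (mem F₀ h (fun l => (f l).val (i l))) - (2 + r) * p) * Real.log p)|) →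
    ∑ i ∈ E, ∏ l, (f l).wt (i l) ≤ (∑ l, (1 + |Real.log (f l).size|) ^ e') * (X : ℝ) ^ (-ρ) := by
  obtain ⟨C, hC, h1, h2, h3⟩ := psu_bounds (by omega) F₀ h hFm hd hh r C₀ S hS hs hb
  obtain ⟨W, e', K, ρ, hW, hK1, hρ, H⟩ := sparse_main D F hK Z hZ (psu F₀ h r) (fun p _ c c' hc => psu_per F₀ h r p c c' hc) C hC h1 h2 h3
    (δ / 2) (by positivity) (by linarith)
  obtain ⟨X₁, -, hX₁⟩ := ev_su (2 * g) δ (2 * K) (by positivity) hδ
  refine ⟨W, e', 2 * K, ρ, hW, by omega, hρ, fun κ hκ => ?_⟩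
  obtain ⟨X₀, hX₀, J⟩ := H κ hκ
  refine ⟨X₀ + X₁, by omega, fun X hX f hf w hw E hE hbad => J X (by omega) f hf (wS w) (wS_abs w hw) E hE fun i hi => ?_⟩
  obtain ⟨x, q1, q2, j, q3, R, q4, q5⟩ := hbad i hi
  obtain ⟨k1, k2⟩ := hX₁ x (by omega)
  have hx0 : (0 : ℝ) < x := by exact_mod_cast (by omega : 0 < x)
  have hx1 : (1 : ℝ) ≤ x := by exact_mod_cast (by omega : 1 ≤ x)
  refine ⟨x, q1, q2, Nat.pair j (Nat.log 2 x + 1), ?_, R, q4, ?_⟩
  · have h4 := Nat.pair_lt_max_add_one_sq j (Nat.log 2 x + 1)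
    calc (Nat.pair j (Nat.log 2 x + 1) + 1) ^ K ≤ ((max j (Nat.log 2 x + 1) + 1) ^ 2) ^ K := Nat.pow_le_pow_left (by omega) K
      _ = (max j (Nat.log 2 x + 1) + 1) ^ (2 * K) := by rw [← pow_mul]
      _ ≤ x := by
          rcases le_total j (Nat.log 2 x + 1) with h5 | h5
          · rw [max_eq_right h5]
            exact k1
          · rw [max_eq_left h5]
            exact q3
  · by_contra hcon
    push Not at hcon
    refine absurd q5 (not_lt.2 (le_trans ?_ k2))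
    obtain ⟨c, hc⟩ : ∃ c : Fin D → ℤ, c = fun l => (f l).val (i l) := ⟨_, rfl⟩
    rw [← hc] at hcon ⊢
    obtain ⟨Y, hY⟩ : ∃ Y : ℝ, Y = √((2 : ℝ) ^ (Nat.log 2 x + 1)) := ⟨_, rfl⟩
    have hY0 : 0 < Y := by rw [hY]; positivity
    rw [← hY]
    have hxY : x ≤ 2 ^ (Nat.log 2 x + 1) := (Nat.lt_pow_succ_log_self (by norm_num) x).le
    obtain ⟨hmon, hdeg⟩ := mem_mon F₀ h hFm hd hh c
    have e1 : ∑ p ∈ (pri x).filter (fun p => p ∉ R), w j p * ((BB k (rh p) (mem F₀ h c) - (2 + r) * p) * Real.log p) =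
        -(Y * ∑ p ∈ (pri x).filter (fun p => p ∉ R), wS w (Nat.pair j (Nat.log 2 x + 1)) p * (psu F₀ h r p c * (√p * Real.log p))) +
        ∑ p ∈ (pri x).filter (fun p => p ∉ R), w j p * ((BB k (rh p) (mem F₀ h c) - (2 + r) * p + p * psu F₀ h r p c) * Real.log p) := by
      rw [mul_sum, ← sum_neg_distrib, ← sum_add_distrib]
      refine sum_congr rfl fun p hp => ?_
      have hp1 := mem_pri.1 (mem_filter.1 hp).1
      have hpp := hp1.2
      have hw1 : wS w (Nat.pair j (Nat.log 2 x + 1)) p = w j p * (√p / Y) := by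
        unfold wS
        rw [Nat.unpair_pair, if_pos (by dsimp only; omega), hY]
      rw [hw1]
      have e2 : Y * (w j p * (√p / Y) * (psu F₀ h r p c * (√p * Real.log p))) = w j p * ((√p * √p) * psu F₀ h r p c * Real.log p) := by
        field_simp
      rw [e2, Real.mul_self_sqrt (Nat.cast_nonneg p)]
      ring
    have e3 : |∑ p ∈ (pri x).filter (fun p => p ∉ R), w j p * ((BB k (rh p) (mem F₀ h c) - (2 + r) * p + p * psu F₀ h r p c) * Real.log p)| ≤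
        (2 * x) * (2 * g * √x * Real.log x) := by
      have h4 : ∀ p ∈ (pri x).filter (fun p => p ∉ R),
          |w j p * ((BB k (rh p) (mem F₀ h c) - (2 + r) * p + p * psu F₀ h r p c) * Real.log p)| ≤ 2 * g * √x * Real.log x := by
        intro p hp
        have hp1 := mem_pri.1 (mem_filter.1 hp).1
        have hF : Fact p.Prime := ⟨hp1.2⟩
        have h5 := BB_main k (rh p) (mem F₀ h c) hmon hdeg r
        rw [ZMod.card] at h5
        have hpx : (p : ℝ) ≤ x := by exact_mod_cast hp1.1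
        have hp0 : (1 : ℝ) ≤ p := by exact_mod_cast hp1.2.one_lt.le
        have hl0 : 0 ≤ Real.log p := Real.log_nonneg hp0
        have hl1 : Real.log p ≤ Real.log x := Real.log_le_log (by linarith) hpx
        have h6 := Real.sqrt_le_sqrt hpx
        rw [abs_mul, abs_mul, abs_of_nonneg hl0]
        calc _ ≤ 1 * (2 * g * √p * Real.log p) := by
              apply mul_le_mul (hw _ _) _ (by positivity) zero_le_one
              exact mul_le_mul_of_nonneg_right h5 hl0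
          _ ≤ _ := by
              rw [one_mul]
              gcongr
      refine (abs_sum_le_sum_abs _ _).trans ((sum_le_sum h4).trans ?_)
      rw [sum_const, nsmul_eq_mul]
      have hl : 0 ≤ Real.log (x : ℝ) := Real.log_nonneg hx1
      apply mul_le_mul_of_nonneg_right _ (by positivity)
      have h5 : ((pri x).filter (fun p => p ∉ R)).card ≤ (range (x + 1)).card := by
        apply card_le_card
        intro p hp
        have hp1 := mem_pri.1 (mem_filter.1 hp).1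
        rw [mem_range]
        omega
      rw [card_range] at h5
      have h6 : (((pri x).filter (fun p => p ∉ R)).card : ℝ) ≤ x + 1 := by exact_mod_cast h5
      linarith
    rw [e1]
    refine (abs_add_le _ _).trans ?_
    rw [abs_neg, abs_mul, abs_of_pos hY0]
    have h4 := mul_le_mul_of_nonneg_left hcon hY0.le
    linarith

end

section
variable (d r n e m D : ℕ) (E : Fin D ≃ Es d r n e m)

lemma sepQ_s (hd : r + 2 ≤ d) (hn : 1 ≤ n) (he1 : 1 ≤ e) (p : ℕ) (hp : p.Prime) : SepQ p (fun i => hs ℤ d r m (E i)) := by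
  have hF : Fact p.Prime := ⟨hp⟩
  intro P Q hPQ hP hl
  obtain ⟨i, hi⟩ := hP
  obtain ⟨l, hl⟩ := hl
  refine sep_s d r n e m (rh p) hd hn he1 P Q hPQ ⟨E i, hi⟩ ⟨l, fun i => ?_⟩
  have := hl (E.symm i)
  beta_reduce at this
  rw [Equiv.apply_symm_apply] at this
  exact this

lemma baseQ_s (hd : r + 2 ≤ d) (hn : 1 ≤ n) (p : ℕ) (hp : p.Prime) (hp2 : p ≠ 2) (hpr : r < p) :
    |(ccQ p (Fs ℤ d r n m) (fun i => hs ℤ d r m (E i)) : ℝ) - cbQ p (fun i => hs ℤ d r m (E i)) -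
      r * (p : ℝ) ^ (m + 1)| ≤ r * ((p : ℝ) ^ (m + 1) / √p) := by
  classical
  have hF : Fact p.Prime := ⟨hp⟩
  have hch : ringChar (ZMod p) ≠ 2 := by rwa [ZMod.ringChar_zmod_n]
  have hcard : (Fintype.card (ZMod p) : ℝ) = p := by rw [ZMod.card]
  have hr : ∀ i j : ℕ, i < r → j < r → ((i + 1 : ℕ) : ZMod p) = ((j + 1 : ℕ) : ZMod p) → i = j := by
    intro i j hi hj hij
    rw [ZMod.natCast_eq_natCast_iff'] at hij
    rw [Nat.mod_eq_of_lt (by omega), Nat.mod_eq_of_lt (by omega)] at hij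
    omega
  have h1 := bs_card hch (vf (rh p) (Fs ℤ d r n m)) (fun i => vf (rh p) (hs ℤ d r m (E i)))
  have h2 := bs_s d r n e m (rh p) D E hd hn hr
  have h3 : (ccQ p (Fs ℤ d r n m) (fun i => hs ℤ d r m (E i)) : ℝ) - cbQ p (fun i => hs ℤ d r m (E i)) =
      r * (((Fintype.card (ZMod p) : ℝ) - 1) * (Fintype.card (ZMod p) : ℝ) ^ m) := by
    rw [← h2, h1]
    rfl
  rw [h3, hcard]
  have hp1 : (1 : ℝ) ≤ p := by exact_mod_cast hp.one_lt.le
  have hs1 : 1 ≤ √(p : ℝ) := Real.one_le_sqrt.2 hp1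
  have h4 : (r : ℝ) * (((p : ℝ) - 1) * (p : ℝ) ^ m) - r * (p : ℝ) ^ (m + 1) = -(r * (p : ℝ) ^ m) := by ring
  rw [h4, abs_neg, abs_of_nonneg (by positivity)]
  apply mul_le_mul_of_nonneg_left _ (Nat.cast_nonneg _)
  rw [le_div_iff₀ (by linarith), pow_succ]
  apply mul_le_mul_of_nonneg_left _ (by positivity)
  rw [Real.sqrt_le_left (by linarith)]
  nlinarith

end

end Pool.Agent.T3h87.RP
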